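import Mathlib

open Polynomial

namespace Pool.Agent.Lib.MP_0bf891_al

theorem exists_extend {R L : Type} [CommRing R] [IsDomain R] [Countable R] [Field L]
    [IsAlgClosed L] (hL : Cardinal.continuum ≤ Cardinal.mk L) (i : R →+* ℂ)
    (hi : Function.Injective i) (σ : R →+* L) (hσ : Function.Injective σ) :
    ∃ τ : ℂ →+* L, ∀ r, τ (i r) = σ r := by
  letI : Algebra R ℂ := i.toAlgebra
  letI : Algebra R L := σ.toAlgebra
  have : FaithfulSMul R ℂ := (faithfulSMul_iff_algebraMap_injective R ℂ).2 hi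
  have : FaithfulSMul R L := (faithfulSMul_iff_algebraMap_injective R L).2 hσ
  obtain ⟨s, hs⟩ := exists_isTranscendenceBasis R ℂ
  obtain ⟨t, ht⟩ := exists_isTranscendenceBasis R L
  have hR : Cardinal.mk R ≤ Cardinal.aleph0 := Cardinal.mk_le_aleph0
  have h1 := IsAlgClosed.cardinal_eq_cardinal_transcendence_basis_of_aleph0_lt' _ hs hR
    (by rw [Cardinal.mk_complex]; exact Cardinal.aleph0_lt_continuum)
  have h2 := IsAlgClosed.cardinal_eq_cardinal_transcendence_basis_of_aleph0_lt' _ ht hR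
    (lt_of_lt_of_le Cardinal.aleph0_lt_continuum hL)
  have hc : Cardinal.mk s ≤ Cardinal.mk t := by
    rw [← h1, ← h2, Cardinal.mk_complex]; exact hL
  obtain ⟨e⟩ := (Cardinal.le_def _ _).1 hc
  have hy : AlgebraicIndependent R (fun a : s => ((e a : t) : L)) := ht.1.comp e e.injective
  let φ : Algebra.adjoin R (Set.range ((↑) : s → ℂ)) →ₐ[R] L :=
    (MvPolynomial.aeval (fun a : s => ((e a : t) : L))).comp hs.1.aevalEquiv.symm.toAlgHom
  have hφ : Function.Injective φ := by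
    have h3 : Function.Injective
        (MvPolynomial.aeval (fun a : s => ((e a : t) : L)) : MvPolynomial s R →ₐ[R] L) := hy
    exact h3.comp hs.1.aevalEquiv.symm.injective
  letI : Algebra (Algebra.adjoin R (Set.range ((↑) : s → ℂ))) L := φ.toRingHom.toAlgebra
  have : FaithfulSMul (Algebra.adjoin R (Set.range ((↑) : s → ℂ))) L :=
    (faithfulSMul_iff_algebraMap_injective _ L).2 hφ
  have := hs.isAlgebraic
  let ψ : ℂ →ₐ[Algebra.adjoin R (Set.range ((↑) : s → ℂ))] L := IsAlgClosed.lift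
  refine ⟨ψ.toRingHom, fun r => ?_⟩
  have h4 := ψ.commutes (algebraMap R _ r)
  have h5 : algebraMap (Algebra.adjoin R (Set.range ((↑) : s → ℂ))) ℂ (algebraMap R _ r) = i r :=
    rfl
  rw [h5] at h4
  have h6 : algebraMap (Algebra.adjoin R (Set.range ((↑) : s → ℂ))) L (algebraMap R _ r) =
      φ (algebraMap R _ r) := rfl
  rw [h6, φ.commutes] at h4
  exact h4

theorem exists_move {R : Type} [CommRing R] [IsDomain R] [Countable R] [Algebra R ℂ]
    {x y : ℂ} (hx : Transcendental R x) (hy : Transcendental R y) :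
    ∃ τ : ℂ →+* ℂ, (∀ r, τ (algebraMap R ℂ r) = algebraMap R ℂ r) ∧ τ x = y := by
  have : Countable R[X] := by
    rw [← Cardinal.mk_le_aleph0_iff]
    exact (Polynomial.cardinalMk_le_max).trans (max_le Cardinal.mk_le_aleph0 le_rfl)
  obtain ⟨τ, hτ⟩ := exists_extend (R := R[X]) (L := ℂ) (by rw [Cardinal.mk_complex])
    (aeval x : R[X] →ₐ[R] ℂ).toRingHom (transcendental_iff_injective.1 hx)
    (aeval y : R[X] →ₐ[R] ℂ).toRingHom (transcendental_iff_injective.1 hy)
  refine ⟨τ, fun r => ?_, ?_⟩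
  · simpa using hτ (C r)
  · simpa using hτ X

/-- pull back an absolute value along a ring homomorphism out of `ℂ` -/
noncomputable def pull {L : Type} [Field L] (v : AbsoluteValue L ℝ) (τ : ℂ →+* L) :
    AbsoluteValue ℂ ℝ := v.comp τ.injective

theorem pull_apply {L : Type} [Field L] (v : AbsoluteValue L ℝ) (τ : ℂ →+* L) (z : ℂ) :
    pull v τ z = v (τ z) := rfl

theorem exists_abs_norm {L : Type} [NormedField L] (τ : ℂ →+* L) :
    ∃ v : AbsoluteValue ℂ ℝ, ∀ z, v z = ‖τ z‖ :=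
  ⟨pull (NormedField.toAbsoluteValue L) τ, fun _ => rfl⟩

theorem transc_add_nat {z : ℂ} (hz : Transcendental ℚ z) (n : ℕ) : Transcendental ℚ (z + n) := by
  intro h
  apply hz
  have h2 : IsAlgebraic ℚ ((n : ℂ)) := isAlgebraic_nat n
  simpa using h.sub h2

theorem exists_abs_gt_of_transc {z : ℂ} (hz : Transcendental ℚ z) :
    ∃ v : AbsoluteValue ℂ ℝ, 1 < v z := by
  obtain ⟨n, hn⟩ := exists_nat_gt (‖z‖ + 1)
  obtain ⟨τ, -, hτ⟩ := exists_move hz (transc_add_nat hz n)
  obtain ⟨v, hv⟩ := exists_abs_norm τ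
  refine ⟨v, ?_⟩
  rw [hv, hτ]
  have h1 : ‖(n : ℂ)‖ ≤ ‖z + n‖ + ‖z‖ := by
    simpa using norm_sub_le (z + n) z
  rw [Complex.norm_natCast] at h1
  linarith

theorem coeff_prod_le {L : Type} [NormedField L] [IsUltrametricDist L] (s : Multiset L)
    (hs : ∀ r ∈ s, ‖r‖ ≤ 1) (n : ℕ) : ‖((s.map fun r => X - C r).prod).coeff n‖ ≤ 1 := by
  induction s using Multiset.induction_on generalizing n with
  | empty =>
    simp only [Multiset.map_zero, Multiset.prod_zero, coeff_one]
    split_ifs <;> simp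
  | cons a s ih =>
    have ih' := ih (fun r hr => hs r (Multiset.mem_cons_of_mem hr))
    have ha := hs a (Multiset.mem_cons_self a s)
    rw [Multiset.map_cons, Multiset.prod_cons, sub_mul, coeff_sub, coeff_C_mul, sub_eq_add_neg]
    refine (IsUltrametricDist.norm_add_le_max _ _).trans (max_le ?_ ?_)
    · cases n with
      | zero => simp
      | succ n => rw [coeff_X_mul]; exact ih' n
    · rw [norm_neg, norm_mul]
      exact mul_le_one₀ ha (norm_nonneg _) (ih' n)

theorem exists_hom_root {L : Type} [Field L] [CharZero L] [IsAlgClosed L]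
    (hL : Cardinal.continuum ≤ Cardinal.mk L) {z : ℂ} (hz : IsIntegral ℚ z) {r : L}
    (hr : aeval r (minpoly ℚ z) = 0) : ∃ τ : ℂ →+* L, τ z = r := by
  have : Fact (Irreducible (minpoly ℚ z)) := ⟨minpoly.irreducible hz⟩
  have : Countable ℚ[X] := by
    rw [← Cardinal.mk_le_aleph0_iff]
    exact (Polynomial.cardinalMk_le_max).trans (max_le Cardinal.mk_le_aleph0 le_rfl)
  have : Countable (AdjoinRoot (minpoly ℚ z)) := AdjoinRoot.mk_surjective.countable
  let i : AdjoinRoot (minpoly ℚ z) →+* ℂ :=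
    AdjoinRoot.lift (algebraMap ℚ ℂ) z (minpoly.aeval ℚ z)
  let σ : AdjoinRoot (minpoly ℚ z) →+* L := AdjoinRoot.lift (algebraMap ℚ L) r hr
  obtain ⟨τ, hτ⟩ := exists_extend hL i i.injective σ σ.injective
  refine ⟨τ, ?_⟩
  simpa [i, σ] using hτ (AdjoinRoot.root _)

theorem isIntegral_of_abs_le {z : ℂ} (h : ∀ v : AbsoluteValue ℂ ℝ, v z ≤ 1) :
    IsIntegral ℤ z := by
  have hz : IsAlgebraic ℚ z := by
    by_contra hz
    obtain ⟨v, hv⟩ := exists_abs_gt_of_transc hz
    exact absurd (h v) (not_le.2 hv)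
  have hz' : IsIntegral ℚ z := hz.isIntegral
  have hden : ∀ n, ((minpoly ℚ z).coeff n).den = 1 := by
    intro n
    by_contra hne
    obtain ⟨p, hp, hpd⟩ := Nat.exists_prime_and_dvd hne
    have : Fact p.Prime := ⟨hp⟩
    have hroots : ∀ r ∈ ((minpoly ℚ z).map (algebraMap ℚ ℂ_[p])).roots, ‖r‖ ≤ 1 := by
      intro r hr
      have hr' : aeval r (minpoly ℚ z) = 0 := by
        have := (mem_roots'.1 hr).2
        rwa [IsRoot, eval_map, ← aeval_def] at this
      obtain ⟨τ, hτ⟩ := exists_hom_root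
        (continuum_le_cardinal_of_nontriviallyNormedField ℂ_[p]) hz' hr'
      obtain ⟨v, hv⟩ := exists_abs_norm τ
      rw [← hτ, ← hv]
      exact h v
    have hm : ((minpoly ℚ z).map (algebraMap ℚ ℂ_[p])).Monic := (minpoly.monic hz').map _
    have hc := coeff_prod_le _ hroots n
    rw [← (IsAlgClosed.splits _).eq_prod_roots_of_monic hm, coeff_map] at hc
    have h1 : ‖(((minpoly ℚ z).coeff n : ℚ) : ℚ_[p])‖ ≤ 1 := by
      rw [← PadicComplex.norm_extends']
      have : ((((minpoly ℚ z).coeff n : ℚ) : ℚ_[p]) : ℂ_[p]) =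
          algebraMap ℚ ℂ_[p] ((minpoly ℚ z).coeff n) := by
        rw [PadicComplex.coe_eq]; simp
      rw [this]; exact hc
    have h2 := PadicInt.isUnit_den _ h1
    rw [PadicInt.isUnit_iff] at h2
    have h3 : ‖((((minpoly ℚ z).coeff n).den : ℤ) : ℤ_[p])‖ < 1 :=
      (PadicInt.norm_int_lt_one_iff_dvd _).2 (by exact_mod_cast hpd)
    rw [Int.cast_natCast, h2] at h3
    exact lt_irrefl _ h3
  have hl : minpoly ℚ z ∈ lifts (algebraMap ℤ ℚ) := by
    rw [lifts_iff_coeff_lifts]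
    intro n
    exact ⟨((minpoly ℚ z).coeff n).num, by
      simpa using (Rat.den_eq_one_iff _).1 (hden n)⟩
  obtain ⟨q, hq, -, hqm⟩ := lifts_and_natDegree_eq_and_monic hl (minpoly.monic hz')
  refine ⟨q, hqm, ?_⟩
  rw [← aeval_def, ← aeval_map_algebraMap ℚ, hq]
  exact minpoly.aeval ℚ z

theorem finite_bdd {a b : ℂ} (ha : IsIntegral ℚ a) (hb : IsIntegral ℚ b) (B : ℝ) :
    {z : ℂ | z ∈ IntermediateField.adjoin ℚ {a, b} ∧ IsIntegral ℤ z ∧
      ∀ τ : ℂ →+* ℂ, ‖τ z‖ ≤ B}.Finite := by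
  let K := IntermediateField.adjoin ℚ ({a, b} : Set ℂ)
  let : NumberField K :=
    { to_charZero := K.charZero
      to_finiteDimensional := IntermediateField.finiteDimensional_adjoin_pair ha hb }
  have : Countable K := Finsupp.Countable.of_moduleFinite (R := ℚ)
  refine ((NumberField.Embeddings.finite_of_norm_le K ℂ B).image (fun x : K => (x : ℂ))).subset ?_
  rintro z ⟨hz, hi, hτ⟩
  refine ⟨⟨z, hz⟩, ⟨IntermediateField.coe_isIntegral_iff.1 hi, fun φ => ?_⟩, rfl⟩
  obtain ⟨τ, h⟩ := exists_extend (L := ℂ) (by rw [Cardinal.mk_complex]) (algebraMap K ℂ)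
    (algebraMap K ℂ).injective φ φ.injective
  rw [← h]
  exact hτ τ

theorem pow_eq_one_of_abs {z : ℂ} (h : ∀ v : AbsoluteValue ℂ ℝ, v z = 1) :
    ∃ n : ℕ, 0 < n ∧ z ^ n = 1 := by
  have hi := isIntegral_of_abs_le (fun v => (h v).le)
  have hz : z ≠ 0 := by
    intro h0
    have := h (NormedField.toAbsoluteValue ℂ)
    rw [h0, map_zero] at this
    exact zero_ne_one this
  have hfin := finite_bdd (a := z) (b := z) hi.tower_top hi.tower_top 1
  have hmem : ∀ n : ℕ, z ^ n ∈ {w : ℂ | w ∈ IntermediateField.adjoin ℚ {z, z} ∧ IsIntegral ℤ w ∧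
      ∀ τ : ℂ →+* ℂ, ‖τ w‖ ≤ 1} := by
    intro n
    refine ⟨pow_mem (IntermediateField.subset_adjoin _ _ (by simp)) n, hi.pow n, fun τ => ?_⟩
    obtain ⟨v, hv⟩ := exists_abs_norm τ
    rw [← hv, map_pow, h v, one_pow]
  obtain ⟨m, n, hmn, he⟩ := hfin.exists_lt_map_eq_of_forall_mem hmem
  refine ⟨n - m, by omega, ?_⟩
  apply mul_left_cancel₀ (pow_ne_zero m hz)
  rw [← pow_add, mul_one, Nat.add_sub_cancel' hmn.le, he]

/-- `x` is algebraic over `ℚ[y]` -/
def Dep (x y : ℂ) : Prop := IsAlgebraic (Algebra.adjoin ℚ ({y} : Set ℂ)) x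

theorem dep_iff {x y : ℂ} : Dep x y ↔ x ∈ (AlgebraicIndependent.matroid ℚ ℂ).closure {y} := by
  rw [AlgebraicIndependent.matroid_closure_eq, SetLike.mem_coe, Subalgebra.mem_algebraicClosure]
  rfl

theorem Dep.trans {x y z : ℂ} (h1 : Dep x y) (h2 : Dep y z) : Dep x z := by
  rw [dep_iff] at *
  exact Matroid.closure_subset_closure_of_subset_closure (Set.singleton_subset_iff.2 h2) h1

theorem Dep.symm {x y : ℂ} (h : Dep x y) (hx : Transcendental ℚ x) : Dep y x := by
  rw [dep_iff] at *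
  have h0 : x ∉ (AlgebraicIndependent.matroid ℚ ℂ).closure ∅ := by
    rw [AlgebraicIndependent.matroid_closure_eq, SetLike.mem_coe, Subalgebra.mem_algebraicClosure,
      Algebra.adjoin_empty]
    intro h1
    apply hx
    have : Algebra.IsAlgebraic ℚ (⊥ : Subalgebra ℚ ℂ) := by
      refine ⟨fun r => ?_⟩
      obtain ⟨q, hq⟩ := Algebra.mem_bot.1 r.2
      have : r = algebraMap ℚ _ q := Subtype.ext hq.symm
      rw [this]; exact isAlgebraic_algebraMap q
    exact h1.restrictScalars ℚ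
  have := Matroid.mem_closure_insert h0 (f := y) (by simpa using h)
  simpa using this

theorem Dep.map {x y : ℂ} (h : Dep x y) (τ : ℂ →+* ℂ) : Dep (τ x) (τ y) := by
  let f : Algebra.adjoin ℚ ({y} : Set ℂ) →ₐ[ℚ] Algebra.adjoin ℚ ({τ y} : Set ℂ) :=
    (τ.toRatAlgHom.comp (Subalgebra.val _)).codRestrict _ (fun r => by
      have := AlgHom.map_adjoin_singleton τ.toRatAlgHom y
      rw [show τ.toRatAlgHom y = τ y from rfl] at this
      rw [← this]
      exact ⟨r, r.2, rfl⟩)
  refine IsAlgebraic.ringHom_of_comp_eq f.toRingHom τ h ?_ ?_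
  · intro a b hab
    have : τ a = τ b := congrArg Subtype.val hab
    exact Subtype.ext (τ.injective this)
  · ext r; rfl

theorem dep_self (y : ℂ) : Dep y y :=
  isAlgebraic_algebraMap (⟨y, Algebra.subset_adjoin rfl⟩ : Algebra.adjoin ℚ ({y} : Set ℂ))

theorem dep_of_alg {x : ℂ} (hx : IsAlgebraic ℚ x) (y : ℂ) : Dep x y :=
  hx.extendScalars (algebraMap ℚ _).injective

theorem countable_adj (y : ℂ) : Countable (Algebra.adjoin ℚ ({y} : Set ℂ)) := by
  rw [← Cardinal.mk_le_aleph0_iff]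
  refine (Algebra.cardinalMk_adjoin_le _ _).trans ?_
  simp

theorem exists_real_not_dep (y : ℂ) : ∃ t : ℝ, ¬ Dep t y := by
  by_contra h
  push Not at h
  have := countable_adj y
  have hc := Algebraic.countable (Algebra.adjoin ℚ ({y} : Set ℂ)) ℂ
  have h2 : (Set.univ : Set ℝ).Countable :=
    (hc.preimage_of_injOn (f := fun t : ℝ => (t : ℂ)) Complex.ofReal_injective.injOn).mono
      (fun t _ => h t)
  exact Cardinal.not_countable_real h2

theorem exists_conj_indep : ∃ y : ℂ, Transcendental ℚ y ∧ ¬ Dep (starRingEnd ℂ y) y := by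
  obtain ⟨s, hs⟩ := exists_real_not_dep 0
  have hs' : Transcendental ℚ (s : ℂ) := fun h => hs (dep_of_alg h 0)
  obtain ⟨t, ht⟩ := exists_real_not_dep s
  have hI : IsAlgebraic ℚ Complex.I := by
    refine ⟨X ^ 2 + 1, ?_, by simp⟩
    exact (monic_X_pow_add_C (1 : ℚ) two_ne_zero).ne_zero
  have key : ¬ Dep (starRingEnd ℂ (s + t * Complex.I)) (s + t * Complex.I) := by
    intro h
    have h1 : Dep s (s + t * Complex.I) := by
      have e : (s : ℂ) = ((1 / 2 : ℚ) : ℂ) * ((s + t * Complex.I) +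
          starRingEnd ℂ (s + t * Complex.I)) := by
        simp; ring
      have h3 : Dep (((1 / 2 : ℚ) : ℂ) * ((s + t * Complex.I) +
          starRingEnd ℂ (s + t * Complex.I))) (s + t * Complex.I) :=
        IsAlgebraic.mul (dep_of_alg (isAlgebraic_rat ℚ _) _) (IsAlgebraic.add (dep_self _) h)
      rwa [← e] at h3
    have h2 : Dep t (s + t * Complex.I) := by
      have e : (t : ℂ) = - Complex.I * ((s + t * Complex.I) - s) := by
        ring_nf; simp
      have h3 : Dep (- Complex.I * ((s + t * Complex.I) - s)) (s + t * Complex.I) :=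
        IsAlgebraic.mul (dep_of_alg hI.neg _) (IsAlgebraic.sub (dep_self _) h1)
      rwa [← e] at h3
    exact ht (h2.trans (h1.symm hs'))
  refine ⟨s + t * Complex.I, fun h => key (dep_of_alg ?_ _), key⟩
  exact h.algHom (starRingEnd ℂ).toRatAlgHom

theorem conj_eq_inv {z : ℂ} (h : ‖z‖ = 1) : starRingEnd ℂ z = z⁻¹ := by
  rw [Complex.inv_def, Complex.normSq_eq_norm_sq, h]; simp

theorem exists_abs_two {α β : ℂ} (hα : Transcendental ℚ α) (hβ0 : β ≠ 0)
    (hβ : ∀ n : ℕ, 0 < n → β ^ n ≠ 1) : ∃ v : AbsoluteValue ℂ ℝ, v α ≠ 1 ∧ v β ≠ 1 := by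
  by_cases hd : Dep α β
  · have hβt : Transcendental ℚ β := fun h =>
      hα (by
        have h1 : Dep α 0 := hd.trans (dep_of_alg h 0)
        by_contra h2
        have h3 : Algebra.IsAlgebraic ℚ (Algebra.adjoin ℚ ({0} : Set ℂ)) := by
          rw [← Subalgebra.isAlgebraic_iff, Algebra.isAlgebraic_adjoin_iff]
          rintro x rfl
          exact isAlgebraic_zero
        exact h2 (IsAlgebraic.restrictScalars ℚ h1))
    obtain ⟨y, hy, hyc⟩ := exists_conj_indep
    obtain ⟨τ, -, hτ⟩ := exists_move hβt hy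
    obtain ⟨v, hv⟩ := exists_abs_norm τ
    have hz : Transcendental ℚ (τ α) := fun h =>
      hα ((isAlgebraic_algHom_iff τ.toRatAlgHom τ.injective).1 h)
    have hzy : Dep (τ α) y := hτ ▸ hd.map τ
    refine ⟨v, fun h => hyc ?_, fun h => hyc ?_⟩
    · rw [hv] at h
      have h1 : Dep (starRingEnd ℂ y) (starRingEnd ℂ (τ α)) := (hzy.symm hz).map _
      have h2 : Dep (starRingEnd ℂ (τ α)) (τ α) := by
        rw [conj_eq_inv h]; exact IsAlgebraic.inv (dep_self _)
      exact (h1.trans h2).trans hzy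
    · rw [hv, hτ] at h
      rw [conj_eq_inv h]; exact IsAlgebraic.inv (dep_self _)
  · obtain ⟨v, hv⟩ : ∃ v : AbsoluteValue ℂ ℝ, v β ≠ 1 := by
      by_contra h
      push Not at h
      obtain ⟨n, hn, h1⟩ := pow_eq_one_of_abs h
      exact hβ n hn h1
    by_cases hv1 : v α = 1
    · have := countable_adj β
      have hd2 : ¬ Dep (α * β) β := by
        intro h
        apply hd
        have e : α = (α * β) * β⁻¹ := by field_simp
        have h3 : Dep ((α * β) * β⁻¹) β := IsAlgebraic.mul h (IsAlgebraic.inv (dep_self _))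
        rwa [← e] at h3
      obtain ⟨τ, hτ1, hτ2⟩ := exists_move (R := Algebra.adjoin ℚ ({β} : Set ℂ)) hd hd2
      have hτ3 : τ β = β := hτ1 ⟨β, Algebra.subset_adjoin rfl⟩
      refine ⟨pull v τ, ?_, ?_⟩
      · rw [pull_apply, hτ2, map_mul, hv1, one_mul]; exact hv
      · rw [pull_apply, hτ3]; exact hv
    · exact ⟨v, hv1, hv⟩

end Pool.Agent.Lib.MP_0bf891_al
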