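import Pool.Agent.Lib.MP_0bf891_al.Quat

open Quaternion ComplexConjugate

namespace Pool.Agent.Lib.MP_0bf891_al

variable {Γ : Type*} [Group Γ]

/-- all values are unit quaternions -/
def IsU (ρ : Γ →* ℍ) : Prop := ∀ γ, normSq (ρ γ) = 1

def FreeAct (ρ₁ ρ₂ : Γ →* ℍ) : Prop :=
  ∃ φ : FreeGroup (Fin 2) →* Γ, ∀ w, w ≠ 1 → ∀ x : ℍ, x ≠ 0 → ρ₁ (φ w) * x ≠ x * ρ₂ (φ w)

def VA (ρ : Γ →* ℍ) : Prop :=
  ∃ N : Subgroup Γ, N.FiniteIndex ∧ ∀ a ∈ N, ∀ b ∈ N, ρ a * ρ b = ρ b * ρ a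

def Line (ρ₁ ρ₂ : Γ →* ℍ) : Prop :=
  ∃ x : ℍ, x ≠ 0 ∧ ∀ γ, ρ₁ γ * x = x * ρ₂ γ ∨ ρ₁ γ * x = - (x * ρ₂ γ)

/-- conjugate representation -/
noncomputable def cj (ρ : Γ →* ℍ) (q : ℍ) (hq : q ≠ 0) : Γ →* ℍ where
  toFun γ := q⁻¹ * ρ γ * q
  map_one' := by simp [hq]
  map_mul' a b := by
    rw [map_mul]; simp only [mul_assoc]; rw [mul_inv_cancel_left₀ hq]

theorem cj_apply (ρ : Γ →* ℍ) (q : ℍ) (hq : q ≠ 0) (γ : Γ) : cj ρ q hq γ = q⁻¹ * ρ γ * q := rfl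

theorem IsU.cj {ρ : Γ →* ℍ} (h : IsU ρ) (q : ℍ) (hq : q ≠ 0) : IsU (cj ρ q hq) :=
  fun γ => (normSq_conj _ hq).trans (h γ)

theorem IsU.map_inv {ρ : Γ →* ℍ} (h : IsU ρ) (γ : Γ) : ρ γ⁻¹ = star (ρ γ) := by
  rw [← inv_eq_star (h γ)]
  symm
  apply inv_eq_of_mul_eq_one_right
  rw [← map_mul, mul_inv_cancel, map_one]

theorem FreeAct.of_cj {ρ₁ ρ₂ : Γ →* ℍ} {q₁ q₂ : ℍ} {h₁ : q₁ ≠ 0} {h₂ : q₂ ≠ 0}
    (h : FreeAct (cj ρ₁ q₁ h₁) (cj ρ₂ q₂ h₂)) : FreeAct ρ₁ ρ₂ := by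
  obtain ⟨φ, hφ⟩ := h
  refine ⟨φ, fun w hw x hx he => hφ w hw (q₁⁻¹ * x * q₂) (by simp [h₁, h₂, hx]) ?_⟩
  simp only [cj_apply, mul_assoc, mul_inv_cancel_left₀ h₁, mul_inv_cancel_left₀ h₂]
  rw [← mul_assoc (ρ₁ _), he, mul_assoc]

theorem FreeAct.symm {ρ₁ ρ₂ : Γ →* ℍ} (h : FreeAct ρ₁ ρ₂) : FreeAct ρ₂ ρ₁ := by
  obtain ⟨φ, hφ⟩ := h
  refine ⟨φ, fun w hw x hx he => hφ w hw x⁻¹ (inv_ne_zero hx) ?_⟩
  rw [mul_inv_eq_iff_eq_mul₀ hx, mul_assoc, he, inv_mul_cancel_left₀ hx]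

theorem FreeAct.of_comp {ρ₁ ρ₂ : Γ →* ℍ} (N : Subgroup Γ)
    (h : FreeAct (ρ₁.comp N.subtype) (ρ₂.comp N.subtype)) : FreeAct ρ₁ ρ₂ := by
  obtain ⟨φ, hφ⟩ := h
  exact ⟨N.subtype.comp φ, hφ⟩

theorem VA.of_cj {ρ : Γ →* ℍ} {q : ℍ} {hq : q ≠ 0} (h : VA (cj ρ q hq)) : VA ρ := by
  obtain ⟨N, hN, h⟩ := h
  refine ⟨N, hN, fun a ha b hb => ?_⟩
  have := h a ha b hb
  rw [← map_mul, ← map_mul, cj_apply, cj_apply, map_mul, map_mul] at this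
  exact mul_left_cancel₀ (inv_ne_zero hq) (mul_right_cancel₀ hq this)

theorem VA.of_comp {ρ : Γ →* ℍ} (N : Subgroup Γ) [hN : N.FiniteIndex]
    (h : VA (ρ.comp N.subtype)) : VA ρ := by
  obtain ⟨K, hK, h⟩ := h
  refine ⟨K.map N.subtype, ⟨?_⟩, ?_⟩
  · rw [Subgroup.index_map_subtype]
    exact mul_ne_zero hK.1 hN.1
  · rintro _ ⟨a, ha, rfl⟩ _ ⟨b, hb, rfl⟩
    exact h a ha b hb

theorem Line.of_cj {ρ₁ ρ₂ : Γ →* ℍ} {q₁ q₂ : ℍ} {h₁ : q₁ ≠ 0} {h₂ : q₂ ≠ 0}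
    (h : Line (cj ρ₁ q₁ h₁) (cj ρ₂ q₂ h₂)) : Line ρ₁ ρ₂ := by
  obtain ⟨x, hx, h⟩ := h
  refine ⟨q₁ * x * q₂⁻¹, by simp [h₁, h₂, hx], fun γ => ?_⟩
  have e1 : ρ₁ γ * (q₁ * x * q₂⁻¹) = q₁ * (cj ρ₁ q₁ h₁ γ * x) * q₂⁻¹ := by
    simp only [cj_apply, mul_assoc, mul_inv_cancel_left₀ h₁]
  have e2 : (q₁ * x * q₂⁻¹) * ρ₂ γ = q₁ * (x * cj ρ₂ q₂ h₂ γ) * q₂⁻¹ := by
    simp only [cj_apply, mul_assoc, mul_inv_cancel₀ h₂, mul_one]
  rw [e1, e2]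
  rcases h γ with h | h <;> rw [h] <;> simp

theorem comm_of_qq {x y : ℍ} (hx : qq x = 0) (hy : qq y = 0) : x * y = y * x := by
  apply pq_ext <;> simp [pp_mul, qq_mul, hx, hy, mul_comm]

theorem va_of_dih {ρ : Γ →* ℍ} (hu : IsU ρ) (h : ∀ γ, pp (ρ γ) = 0 ∨ qq (ρ γ) = 0) : VA ρ := by
  let N : Subgroup Γ :=
    { carrier := {γ | qq (ρ γ) = 0}
      mul_mem' := fun {a b} ha hb => by
        simp only [Set.mem_ofPred_eq] at ha hb ⊢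
        rw [map_mul, qq_mul, ha, hb]; simp
      one_mem' := by simp [qq_one]
      inv_mem' := fun {a} ha => by
        simp only [Set.mem_ofPred_eq] at ha ⊢
        rw [hu.map_inv, qq_star, ha, neg_zero] }
  refine ⟨N, ⟨?_⟩, fun a ha b hb => comm_of_qq ha hb⟩
  have : N.index ∣ 2 := by
    rw [Subgroup.index_dvd_two_iff]
    by_cases hall : ∀ a, a ∈ N
    · exact ⟨1, fun b => Or.inr (hall b)⟩
    · push Not at hall
      obtain ⟨a, ha⟩ := hall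
      refine ⟨a, fun b => ?_⟩
      by_cases hb : b ∈ N
      · exact Or.inr hb
      · left
        show qq (ρ (b * a)) = 0
        rw [map_mul, qq_mul, (h a).resolve_right ha, (h b).resolve_right hb]; simp
  intro h0
  rw [h0] at this
  norm_num at this

theorem free_or_dih {ρ₁ ρ₂ : Γ →* ℍ} (hu₁ : IsU ρ₁) (hu₂ : IsU ρ₂) (g : Γ)
    (v : AbsoluteValue ℂ ℝ) {z₁ z₂ : ℂ} (e₁ : Ev (ρ₁ g) z₁) (e₂ : Ev (ρ₂ g) z₂)
    (hv : v z₂ < v z₁) (hv' : (v z₂)⁻¹ < v z₁) : FreeAct ρ₁ ρ₂ ∨ VA ρ₁ := by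
  obtain ⟨q₁, h₁, a₁, b₁⟩ := exists_diag (hu₁ g) e₁
  obtain ⟨q₂, h₂, a₂, b₂⟩ := exists_diag (hu₂ g) e₂
  have u₁ := hu₁.cj q₁ h₁
  have u₂ := hu₂.cj q₂ h₂
  by_cases hd : ∀ γ, pp (cj ρ₁ q₁ h₁ γ) = 0 ∨ qq (cj ρ₁ q₁ h₁ γ) = 0
  · exact Or.inr (va_of_dih u₁ hd).of_cj
  · push Not at hd
    obtain ⟨h, hp, hq⟩ := hd
    left
    apply FreeAct.of_cj (h₁ := h₁) (h₂ := h₂)
    obtain ⟨φ, hφ⟩ := pingpong v (iot.comp (cj ρ₁ q₁ h₁)) (iot.comp (cj ρ₂ q₂ h₂)) g h e₂.1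
      (by rw [← b₁]; exact iot_diag (u₁ g) a₁) (by rw [← b₂]; exact iot_diag (u₂ g) a₂) hv hv'
      (iot_ne hp hq) (by
        rw [MonoidHom.comp_apply, u₁.map_inv]
        apply iot_ne
        · rw [pp_star]; simpa using hp
        · rw [qq_star]; simpa using hq)
    refine ⟨φ, fun w hw x hx he => hφ w hw (iot x) (iot x⁻¹) ?_ ?_⟩
    · rw [← map_mul, mul_inv_cancel₀ hx, map_one]
    · simp only [MonoidHom.comp_apply]
      rw [← map_mul, ← map_mul, he]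

theorem tors_trace {a : ℍ} (hu : normSq a = 1)
    (h : ∀ z, Ev a z → ∀ v : AbsoluteValue ℂ ℝ, v z = 1) :
    IsIntegral ℤ ((2 * a.re : ℝ) : ℂ) ∧ ∀ τ : ℂ →+* ℂ, ‖τ ((2 * a.re : ℝ) : ℂ)‖ ≤ 2 := by
  obtain ⟨z, hz⟩ := exists_ev hu
  rw [← hz.2]
  refine ⟨(isIntegral_of_abs_le fun v => (h z hz v).le).add
    (isIntegral_of_abs_le fun v => (h _ hz.inv v).le), fun τ => ?_⟩
  obtain ⟨v, hv⟩ := exists_abs_norm τ
  rw [← hv]
  linarith [v.add_le z z⁻¹, h z hz v, h _ hz.inv v]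

theorem jorgensen {ρ : Γ →* ℍ} (hu : IsU ρ) (K : Subgroup Γ) [hK : K.Normal]
    (ht : ∀ k ∈ K, ∀ z, Ev (ρ k) z → ∀ v : AbsoluteValue ℂ ℝ, v z = 1)
    {k : Γ} (hk : k ∈ K) (hq : qq (ρ k) = 0) (hb0 : (ρ k).imI ≠ 0) (hb1 : 4 * (ρ k).imI ^ 2 < 1)
    (h : Γ) : pp (ρ h) = 0 ∨ qq (ρ h) = 0 := by
  by_contra hcon
  push Not at hcon
  set B : ℝ := 4 * (ρ k).imI ^ 2 with hB
  have hB0 : 0 < B := by positivity
  let y : ℕ → Γ := fun n => Nat.rec h (fun _ a => a * k * a⁻¹) n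
  let w : ℕ → ℝ := fun n => B * Complex.normSq (qq (ρ (y n)))
  have hk1 : (ρ k).re ^ 2 + (ρ k).imI ^ 2 = 1 := by
    have := hu k
    rw [normSq_pq, hq, map_zero, add_zero, Complex.normSq_apply] at this
    simp only [pp] at this
    linarith
  have hw1 : ∀ a : Γ, B * Complex.normSq (qq (ρ a)) = 2 - 2 * (ρ (k * (a * k⁻¹ * a⁻¹))).re := by
    intro a
    have h1 := hu a
    rw [normSq_pq] at h1
    rw [← pp_re]
    simp only [map_mul, hu.map_inv, pp_mul, qq_mul, pp_star, qq_star, hq]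
    simp only [Complex.normSq_apply, pp, qq] at h1 ⊢
    simp
    linear_combination (exp := 1) (-2 * ((ρ k).re ^ 2 + (ρ k).imI ^ 2)) * h1 * (-1) +
      (2 - 2 * 2 * ((ρ a).imJ ^ 2 + (ρ a).imK ^ 2) * 0) * hk1
  have hw2 : ∀ n, w (n + 1) = w n * (B - w n) := by
    intro n
    have h1 := hu (y n)
    rw [normSq_pq] at h1
    have e : qq (ρ (y (n + 1))) =
        pp (ρ (y n)) * qq (ρ (y n)) * (conj (pp (ρ k)) - pp (ρ k)) := by
      show qq (ρ (y n * k * (y n)⁻¹)) = _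
      simp only [map_mul, hu.map_inv, pp_mul, qq_mul, pp_star, qq_star, hq]
      simp; ring
    have e2 : Complex.normSq (conj (pp (ρ k)) - pp (ρ k)) = B := by
      simp [Complex.normSq_apply, pp, hB]; ring
    simp only [w]
    rw [e, map_mul, map_mul, e2]
    linear_combination (B ^ 2 * Complex.normSq (qq (ρ (y n)))) * h1
  have hpos : ∀ n, 0 < w n ∧ w n < B := by
    intro n
    induction n with
    | zero =>
      have h1 := hu h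
      rw [normSq_pq] at h1
      have p1 := Complex.normSq_pos.2 hcon.1
      have p2 := Complex.normSq_pos.2 hcon.2
      refine ⟨mul_pos hB0 p2, ?_⟩
      show B * Complex.normSq (qq (ρ h)) < B
      nlinarith
    | succ n ih =>
      rw [hw2]
      refine ⟨mul_pos ih.1 (by linarith), ?_⟩
      nlinarith [ih.1, ih.2]
  have hanti : StrictAnti w := strictAnti_nat_of_succ_lt fun n => by
    rw [hw2]; nlinarith [hpos n]
  have hmem : ∀ a : Γ, k * (a * k⁻¹ * a⁻¹) ∈ K :=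
    fun a => K.mul_mem hk (hK.conj_mem _ (K.inv_mem hk) a)
  have hint : ∀ n, IsIntegral ℤ (w n : ℂ) ∧ ∀ τ : ℂ →+* ℂ, ‖τ (w n : ℂ)‖ ≤ 4 := by
    intro n
    obtain ⟨i1, i2⟩ := tors_trace (hu _) (ht _ (hmem (y n)))
    have e : (w n : ℂ) = 2 - ((2 * (ρ (k * (y n * k⁻¹ * (y n)⁻¹))).re : ℝ) : ℂ) := by
      simp only [w]; rw [hw1]; push_cast; ring
    rw [e]
    refine ⟨IsIntegral.sub (by simpa using isIntegral_algebraMap (R := ℤ) (A := ℂ) (x := 2)) i1,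
      fun τ => ?_⟩
    rw [map_sub]
    have : ‖τ 2‖ = 2 := by rw [map_ofNat]; simp
    linarith [norm_sub_le (τ 2) (τ ((2 * (ρ (k * (y n * k⁻¹ * (y n)⁻¹))).re : ℝ) : ℂ)), i2 τ]
  have hBi : IsIntegral ℤ (B : ℂ) := by
    have i1 := (tors_trace (hu _) (ht _ hk)).1
    have e : (B : ℂ) = 4 - ((2 * (ρ k).re : ℝ) : ℂ) ^ 2 := by
      have : B = 4 - (2 * (ρ k).re) ^ 2 := by rw [hB]; linarith
      rw [this]; push_cast; ring
    rw [e]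
    exact IsIntegral.sub (by simpa using isIntegral_algebraMap (R := ℤ) (A := ℂ) (x := 4))
      (i1.pow 2)
  have hadj : ∀ n, (w n : ℂ) ∈ IntermediateField.adjoin ℚ ({(B : ℂ), (w 0 : ℂ)} : Set ℂ) := by
    intro n
    induction n with
    | zero => exact IntermediateField.subset_adjoin _ _ (by simp)
    | succ n ih =>
      rw [hw2]; push_cast
      exact mul_mem ih (sub_mem (IntermediateField.subset_adjoin _ _ (by simp)) ih)
  have hfin := finite_bdd (a := (B : ℂ)) (b := (w 0 : ℂ)) hBi.tower_top (hint 0).1.tower_top 4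
  obtain ⟨m, n, hmn, he⟩ := hfin.exists_lt_map_eq_of_forall_mem (f := fun n => (w n : ℂ))
    (fun n => Set.mem_ofPred_eq ▸ And.intro (hadj n) (hint n))
  exact (hanti hmn).ne' (Complex.ofReal_injective he)

theorem norm_of_isU {ρ : Γ →* ℍ} (hu : IsU ρ) (γ : Γ) : ‖ρ γ‖ = 1 := by
  have := hu γ
  rw [normSq_eq_norm_mul_self] at this
  nlinarith [norm_nonneg (ρ γ)]

theorem va_of_discrete {ρ : Γ →* ℍ} (hu : IsU ρ) {ε : ℝ} (hε : 0 < ε)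
    (h : ∀ γ, ‖ρ γ - 1‖ < ε → ρ γ = 1) : VA ρ := by
  have : ProperSpace ℍ := FiniteDimensional.proper_real ℍ
  have hb : TotallyBounded (Set.range ρ) :=
    (isCompact_closedBall (0 : ℍ) 1).totallyBounded.subset (by
      rintro _ ⟨γ, rfl⟩
      simp [norm_of_isU hu])
  obtain ⟨t, ht, hc⟩ := Metric.totallyBounded_iff.1 hb (ε / 2) (by linarith)
  have hfin : (Set.range ρ).Finite := by
    refine (ht.biUnion (t := fun y => Set.range ρ ∩ Metric.ball y (ε / 2)) fun y _ =>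
      Set.Subsingleton.finite ?_).subset ?_
    · rintro _ ⟨⟨a, rfl⟩, ha⟩ _ ⟨⟨b, rfl⟩, hb⟩
      have h1 : dist (ρ a) (ρ b) < ε := by
        have := dist_triangle_right (ρ a) (ρ b) y
        rw [Metric.mem_ball] at ha hb
        linarith
      have e : ρ a - ρ b = ρ b * (ρ (b⁻¹ * a) - 1) := by
        rw [mul_sub, ← map_mul, mul_inv_cancel_left, mul_one]
      rw [dist_eq_norm, e, norm_mul, norm_of_isU hu, one_mul] at h1
      rw [← sub_eq_zero, e, h _ h1, sub_self, mul_zero]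
    · intro x hx
      have := hc hx
      simp only [Set.mem_iUnion] at this ⊢
      obtain ⟨y, hy, hxy⟩ := this
      exact ⟨y, hy, hx, hxy⟩
  have : Finite ρ.toHomUnits.range := by
    have : Finite (Set.range ρ) := hfin
    refine Finite.of_injective (fun x : ρ.toHomUnits.range =>
      (⟨(x.1 : ℍ), by obtain ⟨γ, hγ⟩ := x.2; exact ⟨γ, by rw [← hγ]; rfl⟩⟩ : Set.range ρ)) ?_
    intro a b hab
    exact Subtype.ext (Units.ext (congrArg Subtype.val hab))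
  refine ⟨ρ.toHomUnits.ker, inferInstance, fun a ha b _ => ?_⟩
  have : ρ a = 1 := congrArg Units.val (MonoidHom.mem_ker.1 ha)
  rw [this, one_mul, mul_one]

theorem small_im {x : ℍ} (hu : normSq x = 1) (hq : qq x = 0) (h1 : x ≠ 1)
    (hs : ‖x - 1‖ < 1 / 2) : x.imI ≠ 0 ∧ 4 * x.imI ^ 2 < 1 := by
  have e1 : normSq (x - 1) < 1 / 4 := by
    rw [normSq_eq_norm_mul_self]
    nlinarith [norm_nonneg (x - 1)]
  have hJ : x.imJ = 0 := congrArg Complex.re hq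
  have hK : x.imK = 0 := congrArg Complex.im hq
  rw [normSq_def'] at e1 hu
  simp only [re_sub, re_one, imI_sub, imI_one, imJ_sub, imJ_one, imK_sub, imK_one, hJ, hK]
    at e1 hu
  refine ⟨fun h0 => h1 ?_, by nlinarith [sq_nonneg (x.re - 1)]⟩
  rw [h0] at e1 hu
  have : x.re = 1 := by nlinarith
  ext <;> simp [this, h0, hJ, hK]

theorem norm_cj_sub_one {x q : ℍ} (hq : q ≠ 0) : ‖q⁻¹ * x * q - 1‖ = ‖x - 1‖ := by
  have e : q⁻¹ * x * q - 1 = q⁻¹ * (x - 1) * q := by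
    rw [mul_sub, sub_mul, mul_one, inv_mul_cancel₀ hq]
  have : ‖q‖ ≠ 0 := by simpa using hq
  rw [e, norm_mul, norm_mul, norm_inv]; field_simp

theorem cj_ne_one {x q : ℍ} (hq : q ≠ 0) (h : x ≠ 1) : q⁻¹ * x * q ≠ 1 := by
  intro h1
  apply h
  rw [← sub_eq_zero, ← norm_eq_zero, ← norm_cj_sub_one hq, h1, sub_self, norm_zero]

theorem va_of_tors {ρ : Γ →* ℍ} (hu : IsU ρ) (K : Subgroup Γ) [hK : K.Normal]
    (hc : ∀ a b : Γ, a * b * a⁻¹ * b⁻¹ ∈ K)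
    (ht : ∀ k ∈ K, ∀ z, Ev (ρ k) z → ∀ v : AbsoluteValue ℂ ℝ, v z = 1) : VA ρ := by
  by_cases h1 : ∃ k ∈ K, ρ k ≠ 1 ∧ ‖ρ k - 1‖ < 1 / 2
  · obtain ⟨k, hk, hk1, hs⟩ := h1
    obtain ⟨q, hq, hd⟩ := exists_diag0 (ρ k)
    have u := hu.cj q hq
    obtain ⟨b0, b1⟩ := small_im (u k) hd (cj_ne_one hq hk1) (by
      rw [cj_apply, norm_cj_sub_one hq]; exact hs)
    exact (va_of_dih u (jorgensen u K (fun k hk z hz => ht k hk z ((ev_conj hq).1 hz)) hk hd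
      b0 b1)).of_cj
  · push Not at h1
    by_cases h2 : ∃ a, ρ a ≠ 1 ∧ ‖ρ a - 1‖ < 1 / 4
    · obtain ⟨a, ha1, hs⟩ := h2
      have hcomm : ∀ b, ρ a * ρ b = ρ b * ρ a := by
        intro b
        have e : ρ a * ρ b - ρ b * ρ a = (ρ (a * b * a⁻¹ * b⁻¹) - 1) * (ρ b * ρ a) := by
          rw [sub_mul, one_mul, ← map_mul, ← map_mul, ← map_mul]
          congr 2; group
        have e2 : ρ a * ρ b - ρ b * ρ a = (ρ a - 1) * ρ b - ρ b * (ρ a - 1) := by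
          noncomm_ring
        have n1 : ‖ρ a * ρ b - ρ b * ρ a‖ < 1 / 2 := by
          rw [e2]
          refine (norm_sub_le _ _).trans_lt ?_
          rw [norm_mul, norm_mul, norm_of_isU hu]
          linarith
        rw [e, norm_mul, norm_mul, norm_of_isU hu, norm_of_isU hu, mul_one, mul_one] at n1
        have h3 : ρ (a * b * a⁻¹ * b⁻¹) = 1 := by
          by_contra h4
          exact absurd n1 (not_lt.2 (h1 _ (hc a b) h4))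
        rw [← sub_eq_zero, e, h3, sub_self, zero_mul]
      obtain ⟨q, hq, hd⟩ := exists_diag0 (ρ a)
      have u := hu.cj q hq
      obtain ⟨b0, -⟩ := small_im (u a) hd (cj_ne_one hq ha1) (by
        rw [cj_apply, norm_cj_sub_one hq]; linarith)
      refine (va_of_dih u fun b => Or.inr ?_).of_cj
      have h3 : cj ρ q hq a * cj ρ q hq b = cj ρ q hq b * cj ρ q hq a := by
        rw [← map_mul, ← map_mul, cj_apply, cj_apply, map_mul, map_mul, hcomm]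
      have h4 := congrArg qq h3
      have hd' : qq (cj ρ q hq a) = 0 := hd
      rw [qq_mul, qq_mul, hd'] at h4
      have h5 : qq (cj ρ q hq b) * (pp (cj ρ q hq a) - conj (pp (cj ρ q hq a))) = 0 := by
        linear_combination h4
      refine (mul_eq_zero.1 h5).resolve_right fun h6 => b0 ?_
      have := congrArg Complex.im h6
      simp [pp] at this
      exact this
    · push Not at h2
      refine va_of_discrete hu (ε := 1 / 4) (by norm_num) fun γ hγ => ?_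
      by_contra h3
      exact absurd hγ (not_lt.2 (h2 γ h3))

theorem ev_one : Ev 1 1 := ⟨one_ne_zero, by simp; norm_num⟩

theorem exists_ev_ge {a : ℍ} {z : ℂ} (h : Ev a z) (v : AbsoluteValue ℂ ℝ) :
    ∃ w, Ev a w ∧ 1 ≤ v w ∧ (w = z ∨ w = z⁻¹) := by
  rcases le_total 1 (v z) with h1 | h1
  · exact ⟨z, h, h1, Or.inl rfl⟩
  · exact ⟨z⁻¹, h.inv, by rw [map_inv₀]; exact (one_le_inv₀ (v.pos h.1)).2 h1, Or.inr rfl⟩

theorem free_or_va_of_comm {ρ₁ ρ₂ : Γ →* ℍ} (hu₁ : IsU ρ₁) (hu₂ : IsU ρ₂)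
    (hc : ∀ a b, ρ₁ a * ρ₁ b = ρ₁ b * ρ₁ a) : FreeAct ρ₁ ρ₂ ∨ VA ρ₂ := by
  by_cases ht : ∀ k ∈ ρ₁.ker, ∀ z, Ev (ρ₂ k) z → ∀ v : AbsoluteValue ℂ ℝ, v z = 1
  · right
    refine va_of_tors hu₂ ρ₁.ker (fun a b => ?_) ht
    rw [MonoidHom.mem_ker, map_mul, map_mul, map_mul, hc a b, ← map_mul, ← map_mul, ← map_mul]
    rw [mul_inv_cancel_right, mul_inv_cancel, map_one]
  · push Not at ht
    obtain ⟨k, hk, z, hz, v, hv⟩ := ht
    obtain ⟨w, hw, h1, h2⟩ := exists_ev_ge hz v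
    have h3 : 1 < v w := by
      refine lt_of_le_of_ne h1 ?_
      rcases h2 with rfl | rfl
      · exact hv.symm
      · rw [map_inv₀]; intro h4; exact hv (inv_eq_one.1 h4.symm)
    have e1 : Ev (ρ₁ k) 1 := by rw [MonoidHom.mem_ker.1 hk]; exact ev_one
    rcases free_or_dih hu₂ hu₁ k v hw e1 (by simpa using h3) (by simpa using h3) with h | h
    · exact Or.inl h.symm
    · exact Or.inr h

theorem free_or_va_of_va {ρ₁ ρ₂ : Γ →* ℍ} (hu₁ : IsU ρ₁) (hu₂ : IsU ρ₂) (h : VA ρ₁) :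
    FreeAct ρ₁ ρ₂ ∨ VA ρ₂ := by
  obtain ⟨N, hN, hc⟩ := h
  rcases free_or_va_of_comm (ρ₁ := ρ₁.comp N.subtype) (ρ₂ := ρ₂.comp N.subtype)
    (fun γ => hu₁ γ) (fun γ => hu₂ γ) (fun a b => hc a a.2 b b.2) with h | h
  · exact Or.inl (h.of_comp N)
  · exact Or.inr (h.of_comp N)

theorem caseA {ρ₁ ρ₂ : Γ →* ℍ} (hu₁ : IsU ρ₁) (hu₂ : IsU ρ₂) (g : Γ) (v : AbsoluteValue ℂ ℝ)
    (h : ∀ z₁ z₂, Ev (ρ₁ g) z₁ → Ev (ρ₂ g) z₂ → v z₁ ≠ v z₂) :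
    FreeAct ρ₁ ρ₂ ∨ (VA ρ₁ ∧ VA ρ₂) := by
  obtain ⟨y₁, hy₁⟩ := exists_ev (hu₁ g)
  obtain ⟨y₂, hy₂⟩ := exists_ev (hu₂ g)
  obtain ⟨z₁, e₁, a₁, -⟩ := exists_ev_ge hy₁ v
  obtain ⟨z₂, e₂, a₂, -⟩ := exists_ev_ge hy₂ v
  rcases lt_or_gt_of_ne (h z₁ z₂ e₁ e₂) with hl | hl
  · rcases free_or_dih hu₂ hu₁ g v e₂ e₁ hl
      ((inv_le_one_of_one_le₀ a₁).trans_lt (a₁.trans_lt hl)) with h1 | h1
    · exact Or.inl h1.symm
    · rcases free_or_va_of_va hu₂ hu₁ h1 with h2 | h2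
      · exact Or.inl h2.symm
      · exact Or.inr ⟨h2, h1⟩
  · rcases free_or_dih hu₁ hu₂ g v e₁ e₂ hl
      ((inv_le_one_of_one_le₀ a₂).trans_lt (a₂.trans_lt hl)) with h1 | h1
    · exact Or.inl h1
    · rcases free_or_va_of_va hu₁ hu₂ h1 with h2 | h2
      · exact Or.inl h2
      · exact Or.inr ⟨h1, h2⟩

end Pool.Agent.Lib.MP_0bf891_al
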