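import Pool.Agent.Lib.MP_0bf891_al.CaseA

open Quaternion ComplexConjugate

namespace Pool.Agent.Lib.MP_0bf891_al

variable {Γ : Type*} [Group Γ]

def Bal (ρ₁ ρ₂ : Γ →* ℍ) : Prop :=
  ∀ γ (v : AbsoluteValue ℂ ℝ), ∃ z₁ z₂, Ev (ρ₁ γ) z₁ ∧ Ev (ρ₂ γ) z₂ ∧ v z₁ = v z₂

theorem Bal.symm {ρ₁ ρ₂ : Γ →* ℍ} (h : Bal ρ₁ ρ₂) : Bal ρ₂ ρ₁ := fun γ v =>
  let ⟨z₁, z₂, a, b, c⟩ := h γ v
  ⟨z₂, z₁, b, a, c.symm⟩

theorem Bal.cj {ρ₁ ρ₂ : Γ →* ℍ} (h : Bal ρ₁ ρ₂) {q₁ q₂ : ℍ} (h₁ : q₁ ≠ 0) (h₂ : q₂ ≠ 0) :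
    Bal (cj ρ₁ q₁ h₁) (cj ρ₂ q₂ h₂) := fun γ v =>
  let ⟨z₁, z₂, a, b, c⟩ := h γ v
  ⟨z₁, z₂, (ev_conj h₁).2 a, (ev_conj h₂).2 b, c⟩

theorem Bal.trace_le {ρ₁ ρ₂ : Γ →* ℍ} (h : Bal ρ₁ ρ₂) (γ : Γ) (v : AbsoluteValue ℂ ℝ) :
    v (pp (ρ₁ γ) + conj (pp (ρ₁ γ))) ≤ v (pp (ρ₂ γ) + conj (pp (ρ₂ γ))) + 2 := by
  obtain ⟨z₁, z₂, a, b, c⟩ := h γ v
  rw [← two_re, ← two_re, ← a.2, ← b.2]
  have h1 := v.add_le z₁ z₁⁻¹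
  have h2 := v.le_add z₂ z₂⁻¹
  have h3 := v.le_add z₂⁻¹ z₂
  rw [add_comm] at h3
  rw [map_inv₀] at h1 h2 h3
  rw [c] at h1
  rcases le_total 1 (v z₂) with h4 | h4
  · linarith [inv_le_one_of_one_le₀ h4]
  · linarith

theorem Bal.pp_le {ρ₁ ρ₂ : Γ →* ℍ} (hu₁ : IsU ρ₁) (h : Bal ρ₁ ρ₂) {g : Γ}
    (a₁ : qq (ρ₁ g) = 0) (a₂ : qq (ρ₂ g) = 0) (b : pp (ρ₂ g) = pp (ρ₁ g))
    (v : AbsoluteValue ℂ ℝ) (hv : 1 < v (pp (ρ₁ g))) (γ : Γ) :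
    v (pp (ρ₁ γ)) ≤ v (pp (ρ₂ γ)) := by
  by_contra hcon
  push Not at hcon
  set l := pp (ρ₁ g) with hl
  set p := pp (ρ₁ γ) with hp
  set p' := pp (ρ₂ γ) with hp'
  obtain ⟨n, hn⟩ := pow_unbounded_of_one_lt
    ((v (conj p) + v (conj p') + 2) / (v p - v p')) hv
  rw [div_lt_iff₀ (by linarith)] at hn
  have h1 := h.trace_le (g ^ n * γ) v
  simp only [map_mul, map_pow, pp_mul, (pq_pow a₁ n).1, (pq_pow a₁ n).2, (pq_pow a₂ n).1,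
    (pq_pow a₂ n).2, b, zero_mul, sub_zero, ← hl, ← hp, ← hp'] at h1
  have hc : conj l = l⁻¹ := conj_pp (hu₁ g) a₁
  rw [hc] at h1
  have h2 := v.le_add (l ^ n * p) (l⁻¹ ^ n * conj p)
  have h3 := v.add_le (l ^ n * p') (l⁻¹ ^ n * conj p')
  simp only [map_mul, map_pow, map_inv₀] at h2 h3
  have h4 : (v l)⁻¹ ^ n ≤ 1 := pow_le_one₀ (by positivity) (inv_le_one_of_one_le₀ hv.le)
  have h5 := mul_le_of_le_one_left (v.nonneg (conj p)) h4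
  have h6 := mul_le_of_le_one_left (v.nonneg (conj p')) h4
  nlinarith

theorem Bal.pp_eq {ρ₁ ρ₂ : Γ →* ℍ} (hu₁ : IsU ρ₁) (hu₂ : IsU ρ₂) (h : Bal ρ₁ ρ₂) {g : Γ}
    (a₁ : qq (ρ₁ g) = 0) (a₂ : qq (ρ₂ g) = 0) (b : pp (ρ₂ g) = pp (ρ₁ g))
    (v : AbsoluteValue ℂ ℝ) (hv : v (pp (ρ₁ g)) ≠ 1) (γ : Γ) :
    v (pp (ρ₁ γ)) = v (pp (ρ₂ γ)) := by
  rcases lt_or_gt_of_ne hv with h1 | h1
  · have c₁ : qq (ρ₁ g⁻¹) = 0 := by rw [hu₁.map_inv, qq_star, a₁, neg_zero]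
    have c₂ : qq (ρ₂ g⁻¹) = 0 := by rw [hu₂.map_inv, qq_star, a₂, neg_zero]
    have d : pp (ρ₂ g⁻¹) = pp (ρ₁ g⁻¹) := by rw [hu₁.map_inv, hu₂.map_inv, pp_star, pp_star, b]
    have h2 : 1 < v (pp (ρ₁ g⁻¹)) := by
      rw [hu₁.map_inv, pp_star, conj_pp (hu₁ g) a₁, map_inv₀]
      exact (one_lt_inv₀ (v.pos (pp_ne (hu₁ g) a₁))).2 h1
    exact le_antisymm (h.pp_le hu₁ c₁ c₂ d v h2 γ)
      (h.symm.pp_le hu₂ c₂ c₁ d.symm v (d ▸ h2) γ)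
  · exact le_antisymm (h.pp_le hu₁ a₁ a₂ b v h1 γ)
      (h.symm.pp_le hu₂ a₂ a₁ b.symm v (b ▸ h1) γ)

theorem Bal.normSq_eq {ρ₁ ρ₂ : Γ →* ℍ} (hu₁ : IsU ρ₁) (hu₂ : IsU ρ₂) (h : Bal ρ₁ ρ₂) {g : Γ}
    (a₁ : qq (ρ₁ g) = 0) (a₂ : qq (ρ₂ g) = 0) (b : pp (ρ₂ g) = pp (ρ₁ g))
    (ht : Transcendental ℚ (pp (ρ₁ g))) (γ : Γ) :
    Complex.normSq (pp (ρ₂ γ)) = Complex.normSq (pp (ρ₁ γ)) := by
  obtain ⟨v₀, hv₀⟩ := exists_abs_gt_of_transc ht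
  have h0 := h.pp_eq hu₁ hu₂ a₁ a₂ b v₀ hv₀.ne' γ
  by_cases hp : pp (ρ₁ γ) = 0
  · rw [hp, map_zero, eq_comm, v₀.eq_zero] at h0
    rw [hp, h0]
  · have hp' : pp (ρ₂ γ) ≠ 0 := fun h1 => by
      rw [h1, map_zero, v₀.eq_zero] at h0
      exact hp h0
    obtain ⟨n, hn, h1⟩ : ∃ n : ℕ, 0 < n ∧ (pp (ρ₂ γ) / pp (ρ₁ γ)) ^ n = 1 := by
      by_contra hcon
      push Not at hcon
      obtain ⟨v, hv1, hv2⟩ := exists_abs_two ht (div_ne_zero hp' hp) hcon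
      apply hv2
      rw [map_div₀, ← h.pp_eq hu₁ hu₂ a₁ a₂ b v hv1 γ]
      exact div_self (v.pos hp).ne'
    have h2 := congrArg Complex.normSq h1
    rw [map_pow, map_one, pow_eq_one_iff_of_nonneg (Complex.normSq_nonneg _) hn.ne', map_div₀,
      div_eq_one_iff_eq (Complex.normSq_pos.2 hp).ne'] at h2
    exact h2

theorem line_or_va {ρ₁ ρ₂ : Γ →* ℍ} (hu₁ : IsU ρ₁) (hu₂ : IsU ρ₂) {g : Γ}
    (a₁ : qq (ρ₁ g) = 0) (a₂ : qq (ρ₂ g) = 0) (b : pp (ρ₂ g) = pp (ρ₁ g))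
    (him : (pp (ρ₁ g) ^ 2).im ≠ 0)
    (hp : ∀ γ, Complex.normSq (pp (ρ₂ γ)) = Complex.normSq (pp (ρ₁ γ))) :
    Line ρ₂ ρ₁ ∨ (VA ρ₁ ∧ VA ρ₂) := by
  have hq : ∀ γ, Complex.normSq (qq (ρ₂ γ)) = Complex.normSq (qq (ρ₁ γ)) := by
    intro γ
    have h1 := hu₁ γ
    have h2 := hu₂ γ
    rw [normSq_pq] at h1 h2
    linarith [hp γ]
  have hp0 : ∀ γ, pp (ρ₂ γ) = 0 ↔ pp (ρ₁ γ) = 0 := fun γ => by
    rw [← Complex.normSq_eq_zero, hp, Complex.normSq_eq_zero]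
  have hq0 : ∀ γ, qq (ρ₂ γ) = 0 ↔ qq (ρ₁ γ) = 0 := fun γ => by
    rw [← Complex.normSq_eq_zero, hq, Complex.normSq_eq_zero]
  by_cases hd : ∀ γ, pp (ρ₁ γ) = 0 ∨ qq (ρ₁ γ) = 0
  · exact Or.inr ⟨va_of_dih hu₁ hd, va_of_dih hu₂ fun γ => by rw [hp0, hq0]; exact hd γ⟩
  push Not at hd
  obtain ⟨h₀, hp₀, hq₀⟩ := hd
  left
  set l := pp (ρ₁ g) with hl
  have hl1 : l * conj l = 1 := pp_unit (hu₁ g) a₁
  have hR : ∀ a c : Γ, pp (ρ₂ a) * pp (ρ₂ c) * conj (qq (ρ₂ a)) * qq (ρ₂ c) =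
      pp (ρ₁ a) * pp (ρ₁ c) * conj (qq (ρ₁ a)) * qq (ρ₁ c) := by
    intro a c
    have e : ∀ A B : ℂ, Complex.normSq (A - B) =
        Complex.normSq A + Complex.normSq B - 2 * (A * conj B).re := Complex.normSq_sub
    have h1 := hp (a * c)
    have h2 := hp (a * g * c)
    simp only [map_mul, pp_mul, qq_mul, a₁, a₂, b, ← hl, map_zero, mul_zero, sub_zero, zero_add,
      e, Complex.normSq_conj, hp, hq] at h1 h2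
    set X := pp (ρ₂ a) * pp (ρ₂ c) * conj (qq (ρ₂ a)) * qq (ρ₂ c) with hX
    set Y := pp (ρ₁ a) * pp (ρ₁ c) * conj (qq (ρ₁ a)) * qq (ρ₁ c) with hY
    have h3 : (X - Y).re = 0 := by
      have e1 : pp (ρ₂ a) * pp (ρ₂ c) * (conj (qq (ρ₂ a)) * conj (conj (qq (ρ₂ c)))) = X := by
        rw [hX, Complex.conj_conj]; ring
      have e2 : pp (ρ₁ a) * pp (ρ₁ c) * (conj (qq (ρ₁ a)) * conj (conj (qq (ρ₁ c)))) = Y := by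
        rw [hY, Complex.conj_conj]; ring
      rw [e1, e2] at h1
      rw [Complex.sub_re]; linarith
    have h4 : (l ^ 2 * (X - Y)).re = 0 := by
      have e1 : pp (ρ₂ a) * l * pp (ρ₂ c) *
          (conj (qq (ρ₂ a)) * conj (conj l) * conj (conj (qq (ρ₂ c)))) = l ^ 2 * X := by
        rw [hX, Complex.conj_conj, Complex.conj_conj]; ring
      have e2 : pp (ρ₁ a) * l * pp (ρ₁ c) *
          (conj (qq (ρ₁ a)) * conj (conj l) * conj (conj (qq (ρ₁ c)))) = l ^ 2 * Y := by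
        rw [hY, Complex.conj_conj, Complex.conj_conj]; ring
      rw [e1, e2] at h2
      rw [mul_sub, Complex.sub_re]; linarith
    rw [Complex.mul_re, h3, mul_zero, zero_sub, neg_eq_zero] at h4
    rw [← sub_eq_zero]
    exact Complex.ext h3 ((mul_eq_zero.1 h4).resolve_left him)
  have hqc : ∀ a, conj (qq (ρ₂ a)) * qq (ρ₂ a) = conj (qq (ρ₁ a)) * qq (ρ₁ a) := fun a => by
    rw [← Complex.normSq_eq_conj_mul_self, ← Complex.normSq_eq_conj_mul_self, hq]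
  have hε : ∀ a, qq (ρ₁ a) ≠ 0 → ∃ ε : ℂ, (ε = 1 ∨ ε = -1) ∧ pp (ρ₂ a) = ε * pp (ρ₁ a) := by
    intro a ha
    have h1 := hR a a
    have h2 : conj (qq (ρ₁ a)) * qq (ρ₁ a) ≠ 0 := by simpa using ha
    have h3 : pp (ρ₂ a) * pp (ρ₂ a) = pp (ρ₁ a) * pp (ρ₁ a) := by
      apply mul_right_cancel₀ h2
      linear_combination h1 - pp (ρ₂ a) * pp (ρ₂ a) * hqc a
    rcases mul_self_eq_mul_self_iff.1 h3 with h4 | h4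
    · exact ⟨1, Or.inl rfl, by rw [h4, one_mul]⟩
    · exact ⟨-1, Or.inr rfl, by rw [h4, neg_one_mul]⟩
  obtain ⟨ε₀, hε₀, e₀⟩ := hε h₀ hq₀
  have hε₀2 : ε₀ * ε₀ = 1 := by rcases hε₀ with rfl | rfl <;> norm_num
  obtain ⟨d, hd⟩ := IsAlgClosed.exists_eq_mul_self (ε₀ * qq (ρ₂ h₀) / qq (ρ₁ h₀))
  have hd1 : Complex.normSq d = 1 := by
    have h1 := congrArg Complex.normSq hd
    have h2 : Complex.normSq ε₀ = 1 := by rcases hε₀ with rfl | rfl <;> simp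
    rw [map_div₀, map_mul, map_mul, h2, one_mul, hq, div_self (Complex.normSq_pos.2 hq₀).ne'] at h1
    nlinarith [Complex.normSq_nonneg d]
  have hd2 : d * conj d = 1 := by rw [Complex.mul_conj, hd1]; rfl
  have hd3 : ε₀ * qq (ρ₂ h₀) = d * d * qq (ρ₁ h₀) := by rw [← hd]; field_simp
  let D : ℍ := d
  have pD : pp D = d := rfl
  have qD : qq D = 0 := rfl
  have hD : D ≠ 0 := fun h0 => by
    have : d = 0 := by rw [← pD, h0]; rfl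
    rw [this] at hd1; simp at hd1
  have hgen : ∀ a, pp (ρ₁ a) ≠ 0 → qq (ρ₁ a) ≠ 0 →
      ρ₂ a * D = D * ρ₁ a ∨ ρ₂ a * D = - (D * ρ₁ a) := by
    intro a hpa hqa
    obtain ⟨ε, hε1, e⟩ := hε a hqa
    have hε2 : ε * ε = 1 := by rcases hε1 with rfl | rfl <;> norm_num
    have h1 := hR h₀ a
    rw [e₀, e] at h1
    have h2 : ε₀ * ε * conj (qq (ρ₂ h₀)) * qq (ρ₂ a) = conj (qq (ρ₁ h₀)) * qq (ρ₁ a) := by
      apply mul_left_cancel₀ (mul_ne_zero hp₀ hpa)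
      linear_combination h1
    have h3 : qq (ρ₂ a) = ε * d * d * qq (ρ₁ a) := by
      have h4 : conj (qq (ρ₁ h₀)) * qq (ρ₁ h₀) ≠ 0 := by simpa using hq₀
      apply mul_left_cancel₀ h4
      linear_combination (- qq (ρ₂ a)) * hqc h₀ + ε * ε₀ * qq (ρ₂ h₀) * h2 +
        ε * conj (qq (ρ₁ h₀)) * qq (ρ₁ a) * hd3 -
        conj (qq (ρ₂ h₀)) * qq (ρ₂ h₀) * qq (ρ₂ a) * (ε * ε * hε₀2 + hε2)
    rcases hε1 with rfl | rfl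
    · left
      apply pq_ext
      · rw [pp_mul, pp_mul, pD, qD, e]; simp; ring
      · rw [qq_mul, qq_mul, pD, qD, h3]; linear_combination d * qq (ρ₁ a) * hd2
    · right
      apply pq_ext
      · rw [pp_neg, pp_mul, pp_mul, pD, qD, e]; simp; ring
      · rw [qq_neg, qq_mul, qq_mul, pD, qD, h3]; linear_combination (- d * qq (ρ₁ a)) * hd2
  refine ⟨D, hD, fun a => ?_⟩
  by_cases ha : pp (ρ₁ a) ≠ 0 ∧ qq (ρ₁ a) ≠ 0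
  · exact hgen a ha.1 ha.2
  have hg : pp (ρ₁ (a * h₀)) ≠ 0 ∧ qq (ρ₁ (a * h₀)) ≠ 0 := by
    rw [map_mul, pp_mul, qq_mul]
    by_cases h1 : pp (ρ₁ a) = 0
    · have h2 := qq_ne (hu₁ a) h1
      simp [h1, h2, hp₀, hq₀]
    · have h2 : qq (ρ₁ a) = 0 := by tauto
      simp [h1, h2, hp₀, hq₀]
  have h1 := hgen _ hg.1 hg.2
  have h2 := hgen _ hp₀ hq₀
  have h3 : ρ₁ h₀ ≠ 0 := ne_zero_of_unit (hu₁ h₀)
  rw [map_mul, map_mul, mul_assoc, ← mul_assoc D] at h1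
  rcases h2 with h2 | h2 <;> rw [h2] at h1 <;> rcases h1 with h1 | h1
  · left; apply mul_right_cancel₀ h3; rw [← h1, mul_assoc]
  · right; apply mul_right_cancel₀ h3; rw [neg_mul, ← h1, mul_assoc]
  · right; apply mul_right_cancel₀ h3; rw [neg_mul, ← h1, mul_assoc, mul_neg, neg_neg]
  · left; apply mul_right_cancel₀ h3; rw [mul_neg, neg_inj] at h1; rw [← h1, mul_assoc]

theorem caseB {ρ₁ ρ₂ : Γ →* ℍ} (hu₁ : IsU ρ₁) (hu₂ : IsU ρ₂) (h : Bal ρ₁ ρ₂) (g : Γ)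
    {z₁ z₂ : ℂ} (e₁ : Ev (ρ₁ g) z₁) (e₂ : Ev (ρ₂ g) z₂) (ht : Transcendental ℚ (z₁ * z₂)) :
    Line ρ₂ ρ₁ ∨ (VA ρ₁ ∧ VA ρ₂) := by
  have n₁ := e₁.1
  have n₂ := e₂.1
  obtain ⟨m, hm, h1⟩ : ∃ m : ℕ, 0 < m ∧ (z₁ / z₂) ^ m = 1 := by
    by_contra hcon
    push Not at hcon
    obtain ⟨v, hv1, hv2⟩ := exists_abs_two ht (div_ne_zero n₁ n₂) hcon
    obtain ⟨y₁, y₂, c₁, c₂, hy⟩ := h g v
    have p₁ := (v.pos n₁).ne'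
    have p₂ := (v.pos n₂).ne'
    rw [map_mul] at hv1
    rw [map_div₀] at hv2
    rcases e₁.eq_or c₁ with rfl | rfl <;> rcases e₂.eq_or c₂ with rfl | rfl
    · exact hv2 (by rw [hy, div_self p₂])
    · exact hv1 (by rw [hy, map_inv₀, inv_mul_cancel₀ p₂])
    · exact hv1 (by rw [← hy, map_inv₀, mul_inv_cancel₀ p₁])
    · rw [map_inv₀, map_inv₀, inv_inj] at hy
      exact hv2 (by rw [hy, div_self p₂])
  rw [div_pow, div_eq_one_iff_eq (pow_ne_zero _ n₂)] at h1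
  obtain ⟨q₁, h₁, a₁, b₁⟩ := exists_diag (hu₁ g) e₁
  obtain ⟨q₂, h₂, a₂, b₂⟩ := exists_diag (hu₂ g) e₂
  have u₁ := hu₁.cj q₁ h₁
  have u₂ := hu₂.cj q₂ h₂
  have c₁ : qq (cj ρ₁ q₁ h₁ (g ^ m)) = 0 := by rw [map_pow]; exact (pq_pow a₁ m).1
  have c₂ : qq (cj ρ₂ q₂ h₂ (g ^ m)) = 0 := by rw [map_pow]; exact (pq_pow a₂ m).1
  have d₁ : pp (cj ρ₁ q₁ h₁ (g ^ m)) = z₁ ^ m := by
    rw [map_pow, ← b₁]; exact (pq_pow a₁ m).2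
  have d₂ : pp (cj ρ₂ q₂ h₂ (g ^ m)) = z₁ ^ m := by
    rw [map_pow, h1, ← b₂]; exact (pq_pow a₂ m).2
  have ht2 : Transcendental ℚ ((z₁ ^ m) ^ 2) := by
    have e : (z₁ ^ m) ^ 2 = (z₁ * z₂) ^ m := by rw [mul_pow, ← h1, sq]
    rw [e]; exact ht.pow hm
  have ht1 : Transcendental ℚ (z₁ ^ m) := fun h => ht2 (h.pow 2)
  have him : (pp (cj ρ₁ q₁ h₁ (g ^ m)) ^ 2).im ≠ 0 := by
    intro h0
    have h2 := pp_unit (u₁ (g ^ m)) c₁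
    rw [d₁] at h0 h2
    have h3 : conj ((z₁ ^ m) ^ 2) = (z₁ ^ m) ^ 2 := Complex.conj_eq_iff_im.2 h0
    have h4 : ((z₁ ^ m) ^ 2) ^ 2 = 1 := by
      rw [map_pow] at h3
      linear_combination (- (z₁ ^ m) ^ 2) * h3 + (z₁ ^ m * conj (z₁ ^ m) + 1) * h2
    exact ht2.pow two_pos (by rw [h4]; exact isAlgebraic_one)
  rcases line_or_va u₁ u₂ c₁ c₂ (d₂.trans d₁.symm) him
    ((h.cj h₁ h₂).normSq_eq u₁ u₂ c₁ c₂ (d₂.trans d₁.symm) (by rw [d₁]; exact ht1)) with h3 | h3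
  · exact Or.inl h3.of_cj
  · exact Or.inr ⟨h3.1.of_cj, h3.2.of_cj⟩

theorem Line.symm {ρ₁ ρ₂ : Γ →* ℍ} (h : Line ρ₁ ρ₂) : Line ρ₂ ρ₁ := by
  obtain ⟨x, hx, h⟩ := h
  refine ⟨x⁻¹, inv_ne_zero hx, fun γ => ?_⟩
  rcases h γ with h | h
  · left
    rw [mul_inv_eq_iff_eq_mul₀ hx, mul_assoc, h, inv_mul_cancel_left₀ hx]
  · right
    rw [mul_inv_eq_iff_eq_mul₀ hx, neg_mul, mul_assoc, h, mul_neg, neg_neg,
      inv_mul_cancel_left₀ hx]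

theorem trichotomy {ρ₁ ρ₂ : Γ →* ℍ} (hu₁ : IsU ρ₁) (hu₂ : IsU ρ₂) (g : Γ)
    (h : (∃ z₁ z₂, Ev (ρ₁ g) z₁ ∧ Ev (ρ₂ g) z₂ ∧ Transcendental ℚ (z₁ * z₂)) ∨
      ∃ v : AbsoluteValue ℂ ℝ, ∀ z₁ z₂, Ev (ρ₁ g) z₁ → Ev (ρ₂ g) z₂ → v z₁ ≠ v z₂) :
    FreeAct ρ₁ ρ₂ ∨ (VA ρ₁ ∧ VA ρ₂) ∨ Line ρ₁ ρ₂ := by
  by_cases hb : Bal ρ₁ ρ₂
  · rcases h with ⟨z₁, z₂, e₁, e₂, ht⟩ | ⟨v, hv⟩
    · rcases caseB hu₁ hu₂ hb g e₁ e₂ ht with h | h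
      · exact Or.inr (Or.inr h.symm)
      · exact Or.inr (Or.inl h)
    · obtain ⟨z₁, z₂, e₁, e₂, h⟩ := hb g v
      exact absurd h (hv z₁ z₂ e₁ e₂)
  · unfold Bal at hb
    push Not at hb
    obtain ⟨γ, v, hv⟩ := hb
    rcases caseA hu₁ hu₂ γ v hv with h | h
    · exact Or.inl h
    · exact Or.inr (Or.inl h)

end Pool.Agent.Lib.MP_0bf891_al
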