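import Pool.Agent.Lib.MP_0bf891_al.CaseB

open Quaternion ComplexConjugate Filter Topology

namespace Pool.Agent.Lib.MP_0bf891_al

theorem pp_coe (z : ℂ) : pp (z : ℍ) = z := rfl
theorem qq_coe (z : ℂ) : qq (z : ℍ) = 0 := rfl

theorem normSq_coeC (z : ℂ) : normSq (z : ℍ) = Complex.normSq z := by
  rw [normSq_pq, pp_coe, qq_coe]; simp

theorem coe_pp {x : ℍ} (h : qq x = 0) : ((pp x : ℂ) : ℍ) = x := pq_ext rfl h.symm

theorem coeC_pow (z : ℂ) (n : ℕ) : ((z ^ n : ℂ) : ℍ) = (z : ℍ) ^ n := map_pow ofComplex z n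

theorem continuous_coeC : Continuous fun z : ℂ => (z : ℍ) :=
  (ofComplex.toLinearMap.continuous_of_finiteDimensional : Continuous ofComplex.toLinearMap)

/-- the rotation `q e^{iθ} q̄` -/
noncomputable def rot (q : ℍ) (θ : ℝ) : ℍ := q * (Complex.exp (θ * Complex.I) : ℂ) * star q

theorem continuous_rot : Continuous fun p : ℍ × ℝ => rot p.1 p.2 := by
  unfold rot
  refine (continuous_fst.mul (continuous_coeC.comp ?_)).mul continuous_fst.star
  fun_prop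

theorem rot_pow {q : ℍ} (hq : normSq q = 1) (θ : ℝ) (n : ℕ) : rot q θ ^ n = rot q (n * θ) := by
  have h1 : star q * q = 1 := by rw [star_mul_self, hq]; rfl
  have h2 : q * star q = 1 := by rw [self_mul_star, hq]; rfl
  induction n with
  | zero => simp [rot, h2]
  | succ n ih =>
    rw [pow_succ, ih]
    simp only [rot, mul_assoc]
    rw [← mul_assoc (star q), h1, one_mul, ← mul_assoc (coeComplex _), ← coeComplex_mul,
      ← Complex.exp_add]
    congr 4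
    push_cast; ring

theorem normSq_exp (θ : ℝ) : Complex.normSq (Complex.exp (θ * Complex.I)) = 1 := by
  rw [Complex.normSq_eq_norm_sq, Complex.norm_exp_ofReal_mul_I, one_pow]

theorem normSq_rot {q : ℍ} (hq : normSq q = 1) (θ : ℝ) : normSq (rot q θ) = 1 := by
  rw [rot, map_mul, map_mul, normSq_coeC, normSq_exp, normSq_star, hq]; norm_num

theorem rot_sub_one {q : ℍ} (hq : normSq q = 1) (θ : ℝ) :
    ‖rot q θ - 1‖ = ‖Complex.exp (θ * Complex.I) - 1‖ := by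
  have h0 := ne_zero_of_unit hq
  have e : rot q θ = (q⁻¹)⁻¹ * (Complex.exp (θ * Complex.I) : ℂ) * q⁻¹ := by
    rw [inv_inv, inv_eq_star hq]; rfl
  rw [e, norm_cj_sub_one (inv_ne_zero h0)]
  have e2 : ((Complex.exp (θ * Complex.I) : ℂ) : ℍ) - 1 =
      ((Complex.exp (θ * Complex.I) - 1 : ℂ) : ℍ) := (map_sub ofComplex _ 1).symm ▸ by simp
  rw [e2]
  apply (mul_self_inj_of_nonneg (norm_nonneg _) (norm_nonneg _)).1
  rw [← normSq_eq_norm_mul_self, normSq_coeC, Complex.normSq_eq_norm_sq, sq]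

theorem exists_rot {a : ℍ} (ha : normSq a = 1) :
    ∃ q θ, normSq q = 1 ∧ |θ| ≤ Real.pi ∧ a = rot q θ := by
  obtain ⟨q, hq, h⟩ := exists_diag0 a
  have hn : ‖q‖ ≠ 0 := by simpa using hq
  have hu := (normSq_conj a hq).trans ha
  have h1 : ‖pp (q⁻¹ * a * q)‖ = 1 := by
    have := hu
    rw [normSq_pq, h, map_zero, add_zero, Complex.normSq_eq_norm_sq] at this
    nlinarith [norm_nonneg (pp (q⁻¹ * a * q))]
  have h2 := Complex.norm_mul_exp_arg_mul_I (pp (q⁻¹ * a * q))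
  rw [h1] at h2
  simp only [Complex.ofReal_one, one_mul] at h2
  have h3 : normSq (‖q‖⁻¹ • q) = 1 := by
    rw [normSq_eq_norm_mul_self, norm_smul, norm_inv, norm_norm]; field_simp
  refine ⟨‖q‖⁻¹ • q, _, h3, Complex.abs_arg_le_pi (pp (q⁻¹ * a * q)), ?_⟩
  rw [rot, h2, coe_pp h, ← inv_eq_star h3, smul_inv₀, inv_inv]
  simp only [smul_mul_assoc, mul_smul_comm, smul_smul, mul_assoc, mul_inv_cancel₀ hq, mul_one,
    mul_inv_cancel_left₀ hq]
  rw [mul_inv_cancel₀ hn, one_smul]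

theorem abs_le_of_rot {θ : ℝ} (h : |θ| ≤ Real.pi) :
    |θ| ≤ Real.pi / 2 * ‖Complex.exp (θ * Complex.I) - 1‖ := by
  rw [mul_comm (θ : ℂ), Complex.norm_exp_I_mul_ofReal_sub_one, Real.norm_eq_abs, abs_mul,
    abs_two]
  have h1 : |θ / 2| ≤ Real.pi / 2 := by rw [abs_div, abs_two]; linarith
  have h2 := Real.mul_abs_le_abs_sin h1
  rw [abs_div, abs_two] at h2
  have hp := Real.pi_pos
  have e : |θ| = Real.pi * (2 / Real.pi * (|θ| / 2)) := by field_simp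
  rw [e]
  nlinarith

theorem full_of_nhds (C : Set ℍ) (hm : ∀ x ∈ C, ∀ y ∈ C, x * y ∈ C) {δ : ℝ} (hδ : 0 < δ)
    (h : ∀ x, normSq x = 1 → ‖x - 1‖ < δ → x ∈ C) (a : ℍ) (ha : normSq a = 1) : a ∈ C := by
  obtain ⟨q, θ, hq, hθ, rfl⟩ := exists_rot ha
  obtain ⟨n, hn⟩ := exists_nat_gt (Real.pi / δ)
  rw [div_lt_iff₀ hδ] at hn
  have hx : rot q (θ / (n + 1)) ∈ C := by
    apply h
    · exact normSq_rot hq _
    · rw [rot_sub_one hq, mul_comm]
      refine (Real.norm_exp_I_mul_ofReal_sub_one_le).trans_lt ?_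
      rw [Real.norm_eq_abs, abs_div, abs_of_pos (a := (n : ℝ) + 1) (by positivity),
        div_lt_iff₀ (by positivity)]
      nlinarith
  have hp : ∀ k : ℕ, rot q (θ / (n + 1)) ^ (k + 1) ∈ C := by
    intro k
    induction k with
    | zero => simpa using hx
    | succ k ih => rw [pow_succ]; exact hm _ ih _ hx
  have := hp n
  rw [rot_pow hq] at this
  have e : ((n + 1 : ℕ) : ℝ) * (θ / (n + 1)) = θ := by push_cast; field_simp
  rwa [e] at this

theorem exists_phase {a b : ℂ} (h : Complex.normSq a = Complex.normSq b) :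
    ∃ u : ℂ, Complex.normSq u = 1 ∧ a = u * b := by
  by_cases hb : b = 0
  · rw [hb, map_zero, Complex.normSq_eq_zero] at h
    exact ⟨1, by simp, by simp [h, hb]⟩
  · refine ⟨a / b, ?_, by field_simp⟩
    rw [map_div₀, h, div_self (Complex.normSq_pos.2 hb).ne']

theorem normSq_qq_le (x : ℍ) : Complex.normSq (qq x) ≤ ‖x - 1‖ * ‖x - 1‖ := by
  rw [← normSq_eq_norm_mul_self, normSq_pq]
  have : qq (x - 1) = qq x := by apply Complex.ext <;> simp [qq]
  rw [this]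
  linarith [Complex.normSq_nonneg (pp (x - 1))]

theorem full_of_torus (C : Set ℍ) (hm : ∀ x ∈ C, ∀ y ∈ C, x * y ∈ C)
    (hs : ∀ x ∈ C, star x ∈ C) (hT : ∀ z : ℂ, Complex.normSq z = 1 → (z : ℍ) ∈ C) {y : ℍ}
    (hy : y ∈ C) (hu : normSq y = 1) (hp : pp y ≠ 0) (hq : qq y ≠ 0) (a : ℍ)
    (ha : normSq a = 1) : a ∈ C := by
  set c := ‖pp y * qq y‖ with hc
  have hc0 : 0 < c := norm_pos_iff.2 (mul_ne_zero hp hq)
  refine full_of_nhds C hm (δ := 2 * c) (by positivity) (fun x hx hx1 => ?_) a ha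
  have h1 : ‖qq x‖ ≤ 2 * c := by
    have := normSq_qq_le x
    rw [Complex.normSq_eq_norm_sq] at this
    nlinarith [norm_nonneg (qq x), norm_nonneg (x - 1)]
  set s := ‖qq x‖ / (2 * c) with hsd
  have hs0 : 0 ≤ s := by positivity
  have hs1 : s ≤ 1 := (div_le_one (by positivity)).2 h1
  let l : ℂ := ⟨Real.sqrt (1 - s ^ 2), s⟩
  have hl : Complex.normSq l = 1 := by
    rw [Complex.normSq_apply]
    simp only [l]
    rw [Real.mul_self_sqrt (by nlinarith)]; ring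
  have hw : y * l * star y ∈ C := hm _ (hm _ hy _ (hT l hl)) _ (hs _ hy)
  set w := y * l * star y with hwd
  have hwu : normSq w = 1 := by simp [hwd, hu, normSq_coeC, hl]
  have hwq : Complex.normSq (qq x) = Complex.normSq (qq w) := by
    have e : qq w = pp y * qq y * (conj l - l) := by
      simp only [hwd, pp_mul, qq_mul, pp_star, qq_star, pp_coe, qq_coe]
      simp; ring
    have e2 : Complex.normSq (conj l - l) = (2 * s) ^ 2 := by
      simp [Complex.normSq_apply, l]; ring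
    rw [e, map_mul, e2, Complex.normSq_eq_norm_sq, Complex.normSq_eq_norm_sq, ← hc, hsd]
    field_simp
  have hwp : Complex.normSq (pp x) = Complex.normSq (pp w) := by
    rw [normSq_pq] at hx hwu; linarith
  obtain ⟨α, hα, e1⟩ := exists_phase hwp
  obtain ⟨β, hβ, e2⟩ := exists_phase hwq
  obtain ⟨μ, hμ⟩ := IsAlgClosed.exists_eq_mul_self (α * β)
  have hμ1 : Complex.normSq μ = 1 := by
    have := congrArg Complex.normSq hμ
    rw [map_mul, map_mul, hα, hβ] at this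
    nlinarith [Complex.normSq_nonneg μ]
  have hμ2 : μ * conj μ = 1 := by rw [Complex.mul_conj, hμ1]; rfl
  have hα2 : α * conj α = 1 := by rw [Complex.mul_conj, hα]; rfl
  have e : x = (μ : ℍ) * w * ((α * conj μ : ℂ) : ℍ) := by
    apply pq_ext
    · simp only [pp_mul, qq_mul, pp_coe, qq_coe, e1]
      simp
      linear_combination (- α * pp w) * hμ2
    · simp only [pp_mul, qq_mul, pp_coe, qq_coe, e2]
      simp
      linear_combination (conj α * qq w) * hμ - β * qq w * hα2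
  rw [e]
  exact hm _ (hm _ (hT _ hμ1) _ hw) _ (hT _ (by simp [hα, hμ1]))

theorem conj_of_re_eq {a b : ℍ} (ha : normSq a = 1) (hb : normSq b = 1) (h : a.re = b.re) :
    ∃ c : ℍ, normSq c = 1 ∧ a = c * b * star c := by
  obtain ⟨z, hz⟩ := exists_ev ha
  obtain ⟨q, hq, a1, a2⟩ := exists_diag ha hz
  obtain ⟨r, hr, b1, b2⟩ := exists_diag hb (z := z) ⟨hz.1, h ▸ hz.2⟩
  have e : q⁻¹ * a * q = r⁻¹ * b * r := pq_ext (a2.trans b2.symm) (a1.trans b1.symm)
  have h0 : q * r⁻¹ ≠ 0 := mul_ne_zero hq (inv_ne_zero hr)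
  have hn : ‖q * r⁻¹‖ ≠ 0 := by simpa using ⟨hq, hr⟩
  have h3 : normSq (‖q * r⁻¹‖⁻¹ • (q * r⁻¹)) = 1 := by
    rw [normSq_eq_norm_mul_self, norm_smul, norm_inv, norm_norm]; field_simp
  refine ⟨_, h3, ?_⟩
  rw [← inv_eq_star h3, smul_inv₀, inv_inv]
  simp only [smul_mul_assoc, mul_smul_comm, smul_smul]
  rw [mul_inv_cancel₀ hn, one_smul, mul_inv_rev, inv_inv]
  calc a = q * (q⁻¹ * a * q) * q⁻¹ := by
        simp only [mul_assoc, mul_inv_cancel₀ hq, mul_one, mul_inv_cancel_left₀ hq]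
    _ = _ := by rw [e]; simp only [mul_assoc]

theorem full_of_normal (C : Set ℍ) (hm : ∀ x ∈ C, ∀ y ∈ C, x * y ∈ C)
    (hs : ∀ x ∈ C, star x ∈ C) (hn : ∀ x ∈ C, ∀ c, normSq c = 1 → c * x * star c ∈ C) {y : ℍ}
    (hy : y ∈ C) (hu : normSq y = 1) (h1 : y ≠ 1) (h2 : y ≠ -1) (a : ℍ) (ha : normSq a = 1) :
    a ∈ C := by
  have hre : y.re ^ 2 < 1 := by
    have h3 := hu
    rw [normSq_def'] at h3
    by_contra h4
    have a1 : y.imI = 0 := by nlinarith [sq_nonneg y.imI, sq_nonneg y.imJ, sq_nonneg y.imK]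
    have a2 : y.imJ = 0 := by nlinarith [sq_nonneg y.imI, sq_nonneg y.imJ, sq_nonneg y.imK]
    have a3 : y.imK = 0 := by nlinarith [sq_nonneg y.imI, sq_nonneg y.imJ, sq_nonneg y.imK]
    have a4 : y.re * y.re = 1 * 1 := by rw [a1, a2, a3] at h3; linarith
    rcases mul_self_eq_mul_self_iff.1 a4 with h5 | h5
    · exact h1 (by ext <;> simp [h5, a1, a2, a3])
    · exact h2 (by ext <;> simp [h5, a1, a2, a3])
  set b := Real.sqrt (1 - y.re ^ 2) with hb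
  have hb0 : 0 < b := Real.sqrt_pos.2 (by linarith)
  have hb2 : b ^ 2 = 1 - y.re ^ 2 := Real.sq_sqrt (by linarith)
  let l : ℍ := ⟨y.re, b, 0, 0⟩
  have hl : normSq l = 1 := by rw [normSq_def']; simp only [l]; linarith
  have hlC : l ∈ C := by
    obtain ⟨c, hc, e⟩ := conj_of_re_eq hl hu rfl
    rw [e]; exact hn _ hy c hc
  refine full_of_nhds C hm (δ := 2 * b) (by positivity) (fun x hx hx1 => ?_) a ha
  have h3 : normSq (x - 1) = 2 - 2 * x.re := by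
    rw [normSq_def'] at hx ⊢
    simp only [re_sub, re_one, imI_sub, imI_one, imJ_sub, imJ_one, imK_sub, imK_one]
    linarith
  have h4 : 2 - 2 * x.re ≤ 4 * b ^ 2 := by
    rw [← h3, normSq_eq_norm_mul_self]
    nlinarith [norm_nonneg (x - 1)]
  have h5 : 0 ≤ 2 - 2 * x.re := h3 ▸ normSq_nonneg
  set s := (2 - 2 * x.re) / (4 * b ^ 2) with hsd
  have hs0 : 0 ≤ s := by positivity
  have hs1 : s ≤ 1 := (div_le_one (by positivity)).2 h4
  let c : ℍ := ⟨Real.sqrt (1 - s), 0, Real.sqrt s, 0⟩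
  have q1 : Real.sqrt (1 - s) ^ 2 = 1 - s := Real.sq_sqrt (by linarith)
  have q2 : Real.sqrt s ^ 2 = s := Real.sq_sqrt hs0
  have hc : normSq c = 1 := by rw [normSq_def']; simp only [c]; linarith
  have hw : l * (c * star l * star c) ∈ C := hm _ hlC _ (hn _ (hs _ hlC) c hc)
  have hwu : normSq (l * (c * star l * star c)) = 1 := by simp [hl, hc]
  have hre2 : x.re = (l * (c * star l * star c)).re := by
    have h6 : s * (4 * b ^ 2) = 2 - 2 * x.re := by rw [hsd]; field_simp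
    simp only [re_mul, imI_mul, imJ_mul, imK_mul, re_star, imI_star, imJ_star, imK_star, l, c]
    linear_combination (1 / 2) * h6 - hb2 - (y.re ^ 2 + b ^ 2) * q1 - (y.re ^ 2 - b ^ 2) * q2
  obtain ⟨d, hd, e⟩ := conj_of_re_eq hx hwu hre2
  rw [e]; exact hn _ hw d hd

/-- closed subgroups of `S³ × S³` -/
structure CG (S : Set (ℍ × ℍ)) : Prop where
  closed : IsClosed S
  unit : ∀ s ∈ S, normSq s.1 = 1 ∧ normSq s.2 = 1
  one : (1 : ℍ × ℍ) ∈ S
  mul : ∀ s ∈ S, ∀ t ∈ S, s * t ∈ S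
  star : ∀ s ∈ S, star s ∈ S

theorem CG.pow {S : Set (ℍ × ℍ)} (h : CG S) {s : ℍ × ℍ} (hs : s ∈ S) (n : ℕ) : s ^ n ∈ S := by
  induction n with
  | zero => simpa using h.one
  | succ n ih => rw [pow_succ]; exact h.mul _ ih _ hs

theorem isCompact_unit : IsCompact {q : ℍ | normSq q = 1} := by
  have : ProperSpace ℍ := FiniteDimensional.proper_real ℍ
  refine (isCompact_closedBall (0 : ℍ) 1).of_isClosed_subset
    (isClosed_eq continuous_normSq continuous_const) fun q hq => ?_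
  rw [Set.mem_ofPred_eq, normSq_eq_norm_mul_self] at hq
  rw [mem_closedBall_zero_iff]
  nlinarith [norm_nonneg q]

theorem star_rot (q : ℍ) (θ : ℝ) : star (rot q θ) = rot q (-θ) := by
  have e : star ((Complex.exp (θ * Complex.I) : ℂ) : ℍ) =
      (Complex.exp ((-θ : ℝ) * Complex.I) : ℂ) := by
    apply pq_ext
    · rw [pp_star, pp_coe, pp_coe, ← Complex.exp_conj]; simp
    · rw [qq_star, qq_coe, qq_coe, neg_zero]
  rw [rot, rot, star_mul, star_mul, star_star, e, mul_assoc]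

theorem CG.one_param {S : Set (ℍ × ℍ)} (h : CG S)
    (hacc : ∀ ε > 0, ∃ s ∈ S, s ≠ 1 ∧ ‖s.1 - 1‖ < ε ∧ ‖s.2 - 1‖ < ε) :
    ∃ (q r : ℍ) (α β : ℝ), normSq q = 1 ∧ normSq r = 1 ∧ (α ≠ 0 ∨ β ≠ 0) ∧
      ∀ t : ℝ, (rot q (t * α), rot r (t * β)) ∈ S := by
  choose s hs hs1 hs2 hs3 using fun n : ℕ => hacc (1 / ((n : ℝ) + 1)) (by positivity)
  choose q θ hq hθ eq using fun n => exists_rot (h.unit _ (hs n)).1
  choose r φ hr hφ er using fun n => exists_rot (h.unit _ (hs n)).2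
  let u : ℕ → ℝ × ℝ := fun n => (θ n, φ n)
  have hu0 : ∀ n, 0 < ‖u n‖ := by
    intro n
    rw [norm_pos_iff]
    intro h0
    apply hs1 n
    have h1 : θ n = 0 := congrArg Prod.fst h0
    have h2 : φ n = 0 := congrArg Prod.snd h0
    have h3 := rot_pow (hq n) 0 0
    have h4 := rot_pow (hr n) 0 0
    simp only [pow_zero, mul_zero] at h3 h4
    exact Prod.ext (by rw [eq, h1, ← h3]; rfl) (by rw [er, h2, ← h4]; rfl)
  have hul : Tendsto (fun n => ‖u n‖) atTop (𝓝 0) := by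
    have l1 : Tendsto (fun n : ℕ => Real.pi / 2 * (1 / ((n : ℝ) + 1))) atTop (𝓝 0) := by
      simpa using tendsto_one_div_add_atTop_nhds_zero_nat.const_mul (Real.pi / 2)
    refine squeeze_zero (fun n => norm_nonneg _) (fun n => ?_) l1
    have hp : 0 ≤ Real.pi / 2 := by positivity
    rw [Prod.norm_def]
    refine max_le ?_ ?_
    · refine (abs_le_of_rot (hθ n)).trans (mul_le_mul_of_nonneg_left ?_ hp)
      rw [← rot_sub_one (hq n), ← eq]; exact (hs2 n).le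
    · refine (abs_le_of_rot (hφ n)).trans (mul_le_mul_of_nonneg_left ?_ hp)
      rw [← rot_sub_one (hr n), ← er]; exact (hs3 n).le
  have hK : IsCompact ({q : ℍ | normSq q = 1} ×ˢ {q : ℍ | normSq q = 1} ×ˢ
      Metric.sphere (0 : ℝ × ℝ) 1) :=
    isCompact_unit.prod (isCompact_unit.prod (isCompact_sphere _ _))
  obtain ⟨⟨q₀, r₀, α, β⟩, ⟨h1, h2, h3⟩, k, hk, hlim⟩ := hK.tendsto_subseq
    (x := fun n => (q n, r n, ‖u n‖⁻¹ • u n)) (fun n => ⟨hq n, hr n, by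
      rw [mem_sphere_zero_iff_norm, norm_smul, norm_inv, norm_norm,
        inv_mul_cancel₀ (hu0 n).ne']⟩)
  have hpos : ∀ t : ℝ, 0 ≤ t → (rot q₀ (t * α), rot r₀ (t * β)) ∈ S := by
    intro t ht
    let m : ℕ → ℕ := fun n => ⌊t / ‖u (k n)‖⌋₊
    have l1 : Tendsto (fun n => (m n : ℝ) * ‖u (k n)‖) atTop (𝓝 t) := by
      have l2 : Tendsto (fun n => t - ‖u (k n)‖) atTop (𝓝 t) := by
        simpa using (hul.comp hk.tendsto_atTop).const_sub t
      refine tendsto_of_tendsto_of_tendsto_of_le_of_le l2 tendsto_const_nhds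
        (fun n => ?_) (fun n => ?_)
      · have := Nat.lt_floor_add_one (t / ‖u (k n)‖)
        rw [div_lt_iff₀ (hu0 _)] at this
        simp only [m]; linarith
      · have := Nat.floor_le (div_nonneg ht (hu0 (k n)).le)
        rw [le_div_iff₀ (hu0 _)] at this
        exact this
    have lq := (continuous_fst.tendsto _).comp hlim
    have lr := ((continuous_fst.comp continuous_snd).tendsto _).comp hlim
    have la := ((continuous_fst.comp (continuous_snd.comp continuous_snd)).tendsto _).comp hlim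
    have lb := ((continuous_snd.comp (continuous_snd.comp continuous_snd)).tendsto _).comp hlim
    have l3 := (continuous_rot.tendsto _).comp (lq.prodMk_nhds (l1.mul la))
    have l4 := (continuous_rot.tendsto _).comp (lr.prodMk_nhds (l1.mul lb))
    refine h.closed.mem_of_tendsto (l3.prodMk_nhds l4) (Eventually.of_forall fun n => ?_)
    have h5 := h.pow (hs (k n)) (m n)
    have e : s (k n) ^ m n = (rot (q (k n)) (m n * θ (k n)), rot (r (k n)) (m n * φ (k n))) :=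
      Prod.ext (by rw [Prod.pow_fst, eq, rot_pow (hq _)]) (by rw [Prod.pow_snd, er, rot_pow (hr _)])
    rw [e] at h5
    have hn := (hu0 (k n)).ne'
    have e1 : (m n : ℝ) * ‖u (k n)‖ * (‖u (k n)‖⁻¹ * θ (k n)) = m n * θ (k n) := by field_simp
    have e2 : (m n : ℝ) * ‖u (k n)‖ * (‖u (k n)‖⁻¹ * φ (k n)) = m n * φ (k n) := by field_simp
    rw [← e1, ← e2] at h5
    exact h5
  refine ⟨q₀, r₀, α, β, h1, h2, ?_, fun t => ?_⟩
  · by_contra h0
    push Not at h0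
    simp [h0.1, h0.2] at h3
  · rcases le_total 0 t with ht | ht
    · exact hpos t ht
    · have := h.star _ (hpos (-t) (by linarith))
      simpa [Prod.star_def, star_rot] using this

variable {Γ : Type*} [Group Γ]

/-- closure of the image of a pair of representations -/
def Cl (ρ₁ ρ₂ : Γ →* ℍ) : Set (ℍ × ℍ) := closure (Set.range fun γ => (ρ₁ γ, ρ₂ γ))

theorem cg_cl {ρ₁ ρ₂ : Γ →* ℍ} (hu₁ : IsU ρ₁) (hu₂ : IsU ρ₂) : CG (Cl ρ₁ ρ₂) where
  closed := isClosed_closure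
  unit := by
    refine closure_minimal (t := {s : ℍ × ℍ | normSq s.1 = 1 ∧ normSq s.2 = 1}) ?_ ?_
    · rintro _ ⟨γ, rfl⟩; exact ⟨hu₁ γ, hu₂ γ⟩
    · exact (isClosed_eq (continuous_normSq.comp continuous_fst) continuous_const).inter
        (isClosed_eq (continuous_normSq.comp continuous_snd) continuous_const)
  one := subset_closure ⟨1, by simp⟩
  mul := fun s hs t ht => map_mem_closure₂ continuous_mul hs ht (by
    rintro _ ⟨a, rfl⟩ _ ⟨b, rfl⟩; exact ⟨a * b, by simp⟩)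
  star := fun s hs => map_mem_closure continuous_star hs (by
    rintro _ ⟨a, rfl⟩; exact ⟨a⁻¹, by simp [hu₁.map_inv, hu₂.map_inv, Prod.star_def]⟩)

theorem va_of_finite {ρ : Γ →* ℍ} (hfin : (Set.range ρ).Finite) : VA ρ := by
  have : Finite ρ.toHomUnits.range := by
    have : Finite (Set.range ρ) := hfin
    refine Finite.of_injective (fun x : ρ.toHomUnits.range =>
      (⟨(x.1 : ℍ), by obtain ⟨γ, hγ⟩ := x.2; exact ⟨γ, by rw [← hγ]; rfl⟩⟩ : Set.range ρ)) ?_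
    intro a b hab
    exact Subtype.ext (Units.ext (congrArg Subtype.val hab))
  refine ⟨ρ.toHomUnits.ker, inferInstance, fun a ha b _ => ?_⟩
  have : ρ a = 1 := congrArg Units.val (MonoidHom.mem_ker.1 ha)
  rw [this, one_mul, mul_one]

theorem acc_of_not_va {ρ₁ ρ₂ : Γ →* ℍ} (hu₁ : IsU ρ₁) (hu₂ : IsU ρ₂) (h : ¬ VA ρ₁) :
    ∀ ε > 0, ∃ s ∈ Cl ρ₁ ρ₂, s ≠ 1 ∧ ‖s.1 - 1‖ < ε ∧ ‖s.2 - 1‖ < ε := by
  intro ε hε
  by_contra hcon
  push Not at hcon
  apply h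
  have hb : TotallyBounded (Set.range fun γ => (ρ₁ γ, ρ₂ γ)) :=
    (isCompact_unit.prod isCompact_unit).totallyBounded.subset (by
      rintro _ ⟨γ, rfl⟩; exact ⟨hu₁ γ, hu₂ γ⟩)
  obtain ⟨t, ht, hc⟩ := Metric.totallyBounded_iff.1 hb (ε / 2) (by linarith)
  have hfin : (Set.range fun γ => (ρ₁ γ, ρ₂ γ)).Finite := by
    refine (ht.biUnion (t := fun y => (Set.range fun γ => (ρ₁ γ, ρ₂ γ)) ∩ Metric.ball y (ε / 2))
      fun y _ => Set.Subsingleton.finite ?_).subset ?_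
    · rintro _ ⟨⟨a, rfl⟩, ha⟩ _ ⟨⟨b, rfl⟩, hb⟩
      have h1 : dist (ρ₁ a, ρ₂ a) (ρ₁ b, ρ₂ b) < ε := by
        have := dist_triangle_right (ρ₁ a, ρ₂ a) (ρ₁ b, ρ₂ b) y
        rw [Metric.mem_ball] at ha hb
        linarith
      rw [Prod.dist_eq, max_lt_iff] at h1
      have e : ∀ ρ : Γ →* ℍ, ρ a - ρ b = ρ b * (ρ (b⁻¹ * a) - 1) := fun ρ => by
        rw [mul_sub, ← map_mul, mul_inv_cancel_left, mul_one]
      simp only [dist_eq_norm, e, norm_mul, norm_of_isU hu₁, norm_of_isU hu₂, one_mul] at h1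
      by_cases h2 : (ρ₁ (b⁻¹ * a), ρ₂ (b⁻¹ * a)) = 1
      · have h3 : ρ₁ (b⁻¹ * a) = 1 := congrArg Prod.fst h2
        have h4 : ρ₂ (b⁻¹ * a) = 1 := congrArg Prod.snd h2
        refine Prod.ext ?_ ?_
        · show ρ₁ a = ρ₁ b
          rw [← sub_eq_zero, e, h3, sub_self, mul_zero]
        · show ρ₂ a = ρ₂ b
          rw [← sub_eq_zero, e, h4, sub_self, mul_zero]
      · exact absurd h1.2 (not_lt.2 (hcon _ (subset_closure ⟨b⁻¹ * a, rfl⟩) h2 h1.1))
    · intro x hx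
      have := hc hx
      simp only [Set.mem_iUnion] at this ⊢
      obtain ⟨y, hy, hxy⟩ := this
      exact ⟨y, hy, hx, hxy⟩
  refine va_of_finite ((hfin.image Prod.fst).subset ?_)
  rintro _ ⟨γ, rfl⟩
  exact ⟨_, ⟨γ, rfl⟩, rfl⟩

theorem exists_exp {z : ℂ} (hz : Complex.normSq z = 1) {α : ℝ} (hα : α ≠ 0) :
    ∃ t : ℝ, Complex.exp ((t * α : ℝ) * Complex.I) = z := by
  have h1 : ‖z‖ = 1 := by
    rw [Complex.normSq_eq_norm_sq] at hz
    nlinarith [norm_nonneg z]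
  have h2 := Complex.norm_mul_exp_arg_mul_I z
  rw [h1] at h2
  refine ⟨z.arg / α, ?_⟩
  rw [div_mul_cancel₀ _ hα]
  simpa using h2

theorem dense_of_not_va {ρ : Γ →* ℍ} (hu : IsU ρ) (h : ¬ VA ρ) (a : ℍ) (ha : normSq a = 1) :
    a ∈ closure (Set.range ρ) := by
  have hS := cg_cl hu hu
  have f1 : ∀ s ∈ Cl ρ ρ, s.1 ∈ closure (Set.range ρ) := fun s hs =>
    map_mem_closure continuous_fst hs (by rintro _ ⟨γ, rfl⟩; exact ⟨γ, rfl⟩)
  have f2 : ∀ s ∈ Cl ρ ρ, s.2 ∈ closure (Set.range ρ) := fun s hs =>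
    map_mem_closure continuous_snd hs (by rintro _ ⟨γ, rfl⟩; exact ⟨γ, rfl⟩)
  obtain ⟨q, α, hq, hα, hT⟩ : ∃ (q : ℍ) (α : ℝ), normSq q = 1 ∧ α ≠ 0 ∧
      ∀ t : ℝ, rot q (t * α) ∈ closure (Set.range ρ) := by
    obtain ⟨q, r, α, β, hq, hr, h0, hT⟩ := hS.one_param (acc_of_not_va hu hu h)
    rcases h0 with h0 | h0
    · exact ⟨q, α, hq, h0, fun t => f1 _ (hT t)⟩
    · exact ⟨r, β, hr, h0, fun t => f2 _ (hT t)⟩
  have h0 := ne_zero_of_unit hq
  have h1 : star q * q = 1 := by rw [star_mul_self, hq]; rfl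
  have h2 : q * star q = 1 := by rw [self_mul_star, hq]; rfl
  have hm : ∀ x ∈ closure (Set.range ρ), ∀ y ∈ closure (Set.range ρ),
      x * y ∈ closure (Set.range ρ) := fun s hs t ht => map_mem_closure₂ continuous_mul hs ht (by
    rintro _ ⟨a, rfl⟩ _ ⟨b, rfl⟩; exact ⟨a * b, by simp⟩)
  have hs : ∀ x ∈ closure (Set.range ρ), star x ∈ closure (Set.range ρ) := fun s hs =>
    map_mem_closure continuous_star hs (by rintro _ ⟨a, rfl⟩; exact ⟨a⁻¹, hu.map_inv a⟩)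
  by_cases hd : ∀ γ, pp (cj ρ q h0 γ) = 0 ∨ qq (cj ρ q h0 γ) = 0
  · exact absurd (va_of_dih (hu.cj q h0) hd).of_cj h
  push Not at hd
  obtain ⟨γ, hp, hq'⟩ := hd
  have key := full_of_torus {x | q * x * star q ∈ closure (Set.range ρ)}
    (fun x hx y hy => by
      have := hm _ hx _ hy
      simp only [mul_assoc] at this
      rw [← mul_assoc (star q), h1, one_mul] at this
      simpa only [Set.mem_ofPred_eq, mul_assoc] using this)
    (fun x hx => by simpa only [Set.mem_ofPred_eq, star_mul, star_star, mul_assoc] using hs _ hx)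
    (fun z hz => by
      obtain ⟨t, ht⟩ := exists_exp hz hα
      rw [← ht]; exact hT t)
    (y := cj ρ q h0 γ) (subset_closure ⟨γ, by
      rw [cj_apply, ← inv_eq_star hq]
      simp only [mul_assoc, mul_inv_cancel₀ h0, mul_one, mul_inv_cancel_left₀ h0]⟩)
    (hu.cj q h0 γ) hp hq' (star q * a * q) (by simp [hq, ha])
  simp only [Set.mem_ofPred_eq, mul_assoc, h2, mul_one] at key
  rwa [← mul_assoc, h2, one_mul] at key

theorem re_rot {q : ℍ} (hq : normSq q = 1) (θ : ℝ) : (rot q θ).re = Real.cos θ := by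
  have h0 := ne_zero_of_unit hq
  have e : rot q θ = (q⁻¹)⁻¹ * (Complex.exp (θ * Complex.I) : ℂ) * q⁻¹ := by
    rw [inv_inv, inv_eq_star hq]; rfl
  rw [e, re_conj _ (inv_ne_zero h0), re_coeComplex, Complex.exp_ofReal_mul_I_re]

theorem sin_eq_zero_of_rot {q : ℍ} (hq : normSq q = 1) {θ : ℝ}
    (h : rot q θ = 1 ∨ rot q θ = -1) : Real.sin θ = 0 := by
  have h1 := re_rot hq θ
  rw [Real.sin_eq_zero_iff_cos_eq]
  rcases h with h | h <;> rw [h] at h1 <;> simp at h1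
  · exact Or.inl h1.symm
  · exact Or.inr h1.symm

theorem rot_pi {q : ℍ} (hq : normSq q = 1) : rot q Real.pi = -1 := by
  have : ((-1 : ℂ) : ℍ) = -1 := by ext <;> simp
  rw [rot, Complex.exp_pi_mul_I, this, mul_neg, neg_mul, mul_one, self_mul_star, hq]; rfl

theorem rot_zero {q : ℍ} (hq : normSq q = 1) : rot q 0 = 1 := by
  have := rot_pow hq 0 0
  simpa using this.symm

theorem cj_rot {q : ℍ} (hq : normSq q = 1) (θ : ℝ) :
    q⁻¹ * rot q θ * q = (Complex.exp (θ * Complex.I) : ℂ) := by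
  have h0 := ne_zero_of_unit hq
  rw [rot, ← inv_eq_star hq]
  simp only [mul_assoc, inv_mul_cancel₀ h0, mul_one, inv_mul_cancel_left₀ h0]

theorem exists_rot_neg {r : ℍ} (hr : normSq r = 1) :
    ∃ r' : ℍ, normSq r' = 1 ∧ ∀ θ, rot r' θ = rot r (-θ) := by
  let j : ℍ := ⟨0, 0, 1, 0⟩
  have hj : normSq j = 1 := by simp [j, normSq_def']
  have pj : pp j = 0 := rfl
  have qj : qq j = 1 := rfl
  refine ⟨r * j, by simp [hr, hj], fun θ => ?_⟩
  have e : j * (Complex.exp (θ * Complex.I) : ℂ) * star j =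
      (Complex.exp ((-θ : ℝ) * Complex.I) : ℂ) := by
    apply pq_ext
    · simp only [pp_mul, qq_mul, pp_star, qq_star, pj, qj, pp_coe, qq_coe, ← Complex.exp_conj]
      simp
    · simp [pp_mul, qq_mul, pp_star, qq_star, pj, qj, pp_coe, qq_coe]
  rw [rot, rot, ← e, star_mul]
  simp only [mul_assoc]

theorem CG.swap {S : Set (ℍ × ℍ)} (h : CG S) : CG (Prod.swap ⁻¹' S) where
  closed := h.closed.preimage continuous_swap
  unit := fun s hs => (h.unit _ hs).symm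
  one := h.one
  mul := fun s hs t ht => h.mul _ hs _ ht
  star := fun s hs => h.star _ hs

theorem CG.full {S : Set (ℍ × ℍ)} (h : CG S) (o₁ : ∀ c, normSq c = 1 → ∃ d, (c, d) ∈ S)
    (o₂ : ∀ d, normSq d = 1 → ∃ c, (c, d) ∈ S) {y : ℍ} (hy : (y, 1) ∈ S) (h1 : y ≠ 1)
    (h2 : y ≠ -1) (a b : ℍ) (ha : normSq a = 1) (hb : normSq b = 1) : (a, b) ∈ S := by
  have key := full_of_normal {x | (x, (1 : ℍ)) ∈ S}
    (fun x hx y hy => by simpa using h.mul _ hx _ hy)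
    (fun x hx => by simpa [Prod.star_def] using h.star _ hx)
    (fun x hx c hc => by
      obtain ⟨d, hd⟩ := o₁ c hc
      have h3 := h.mul _ (h.mul _ hd _ hx) _ (h.star _ hd)
      have h4 : d * Star.star d = 1 := by rw [self_mul_star, (h.unit _ hd).2]; rfl
      simpa [Prod.star_def, h4] using h3)
    hy (h.unit _ hy).1 h1 h2
  obtain ⟨c, hc⟩ := o₂ b hb
  have hc1 : normSq c = 1 := (h.unit _ hc).1
  have h3 := h.mul _ (key (a * Star.star c) (by simp [ha, hc1])) _ hc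
  have h4 : Star.star c * c = 1 := by rw [star_mul_self, hc1]; rfl
  simpa [mul_assoc, h4] using h3

theorem CG.int_ratio {S : Set (ℍ × ℍ)} (h : CG S) (hn : ((-1, -1) : ℍ × ℍ) ∈ S)
    (n₁ : ∀ y, (y, 1) ∈ S → y = 1 ∨ y = -1) {q r : ℍ} {α β : ℝ} (hq : normSq q = 1)
    (hr : normSq r = 1) (hα : α ≠ 0) (hT : ∀ t : ℝ, (rot q (t * α), rot r (t * β)) ∈ S) :
    β ≠ 0 ∧ ∃ m : ℤ, α = m * β := by
  have hβ : β ≠ 0 := by
    rintro rfl
    have h1 := hT (Real.pi / 2 / α)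
    rw [mul_zero, rot_zero hr, div_mul_cancel₀ _ hα] at h1
    have := sin_eq_zero_of_rot hq (n₁ _ h1)
    simp at this
  refine ⟨hβ, ?_⟩
  have h1 := hT (Real.pi / β)
  rw [div_mul_cancel₀ _ hβ, rot_pi hr] at h1
  have h2 := n₁ (- rot q (Real.pi / β * α)) (by simpa using h.mul _ h1 _ hn)
  have h3 := sin_eq_zero_of_rot hq (θ := Real.pi / β * α) (by
    rcases h2 with h2 | h2
    · exact Or.inr (neg_eq_iff_eq_neg.1 h2)
    · exact Or.inl (neg_inj.1 h2))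
  obtain ⟨m, hm⟩ := Real.sin_eq_zero_iff.1 h3
  refine ⟨m, ?_⟩
  have hp := Real.pi_pos.ne'
  field_simp at hm
  linarith

theorem CG.diag_param {S : Set (ℍ × ℍ)} (h : CG S) (hn : ((-1, -1) : ℍ × ℍ) ∈ S)
    (n₁ : ∀ y, (y, 1) ∈ S → y = 1 ∨ y = -1) (n₂ : ∀ y, (1, y) ∈ S → y = 1 ∨ y = -1)
    (hacc : ∀ ε > 0, ∃ s ∈ S, s ≠ 1 ∧ ‖s.1 - 1‖ < ε ∧ ‖s.2 - 1‖ < ε) :
    ∃ q r : ℍ, normSq q = 1 ∧ normSq r = 1 ∧ ∀ t : ℝ, (rot q t, rot r t) ∈ S := by
  obtain ⟨q, r, α, β, hq, hr, h0, hT⟩ := h.one_param hacc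
  have h1 : α ≠ 0 ∧ β ≠ 0 := by
    rcases h0 with h0 | h0
    · exact ⟨h0, (h.int_ratio hn n₁ hq hr h0 hT).1⟩
    · exact ⟨(h.swap.int_ratio hn n₂ hr hq h0 hT).1, h0⟩
  obtain ⟨m, hm⟩ := (h.int_ratio hn n₁ hq hr h1.1 hT).2
  obtain ⟨n, hn'⟩ := (h.swap.int_ratio hn n₂ hr hq h1.2 hT).2
  have h2 : n * m = 1 := by
    have : (n * m : ℝ) * β = 1 * β := by rw [mul_assoc, ← hm, ← hn', one_mul]
    exact_mod_cast mul_right_cancel₀ h1.2 this
  rcases Int.eq_one_or_neg_one_of_mul_eq_one h2 with rfl | rfl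
  · refine ⟨q, r, hq, hr, fun t => ?_⟩
    have := hT (t / α)
    rw [hn'] at this
    simpa [h1.1] using this
  · obtain ⟨r', hr', e⟩ := exists_rot_neg hr
    refine ⟨q, r', hq, hr', fun t => ?_⟩
    have := hT (t / α)
    rw [hn'] at this
    rw [e]
    simpa [h1.1] using this

theorem CG.re_sq {S : Set (ℍ × ℍ)} (h : CG S) (o₁ : ∀ c, normSq c = 1 → ∃ d, (c, d) ∈ S)
    (n₂ : ∀ y, (1, y) ∈ S → y = 1 ∨ y = -1) {q r : ℍ} (hq : normSq q = 1) (hr : normSq r = 1)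
    (hT : ∀ t : ℝ, (rot q t, rot r t) ∈ S) {a b : ℍ} (hs : (a, b) ∈ S) :
    b.re ^ 2 = a.re ^ 2 := by
  obtain ⟨c, θ, hc, -, e⟩ := exists_rot (h.unit _ hs).1
  dsimp only at e
  obtain ⟨d, hd⟩ := o₁ (c * Star.star q) (by simp [hc, hq])
  have hd1 : normSq d = 1 := (h.unit _ hd).2
  have h1 : Star.star q * q = 1 := by rw [star_mul_self, hq]; rfl
  have h2 := h.mul _ (h.mul _ hd _ (hT θ)) _ (h.star _ hd)
  have e1 : c * Star.star q * rot q θ * Star.star (c * Star.star q) = a := by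
    rw [e, rot, rot, star_mul, star_star]
    simp only [mul_assoc]
    rw [← mul_assoc (Star.star q) q, h1, one_mul, ← mul_assoc (Star.star q) q, h1, one_mul]
  have e2 : d * rot r θ * Star.star d = rot (d * r) θ := by
    rw [rot, rot, star_mul]; simp only [mul_assoc]
  simp only [Prod.star_def, Prod.mk_mul_mk, e1, e2] at h2
  have hdr : normSq (d * r) = 1 := by simp [hd1, hr]
  have h3 := h.mul _ hs _ (h.star _ h2)
  have h4 : a * Star.star a = 1 := by rw [self_mul_star, (h.unit _ hs).1]; rfl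
  simp only [Prod.star_def, Prod.mk_mul_mk, h4] at h3
  have h5 : Star.star (rot (d * r) θ) * rot (d * r) θ = 1 := by
    rw [star_mul_self, normSq_rot hdr]; rfl
  have h6 : b = b * Star.star (rot (d * r) θ) * rot (d * r) θ := by
    rw [mul_assoc, h5, mul_one]
  rw [e, re_rot hc, ← re_rot hdr]
  rcases n₂ _ h3 with h7 | h7 <;> rw [h7] at h6 <;> rw [h6] <;> simp

theorem dense_or_line {ρ₁ ρ₂ : Γ →* ℍ} (hu₁ : IsU ρ₁) (hu₂ : IsU ρ₂)
    (hneg : ∃ γ, ρ₁ γ = -1 ∧ ρ₂ γ = -1) (v₁ : ¬ VA ρ₁) (v₂ : ¬ VA ρ₂) :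
    Line ρ₁ ρ₂ ∨ ∀ a b, normSq a = 1 → normSq b = 1 → (a, b) ∈ Cl ρ₁ ρ₂ := by
  have hS := cg_cl hu₁ hu₂
  have hK : IsCompact (Cl ρ₁ ρ₂) :=
    (isCompact_unit.prod isCompact_unit).of_isClosed_subset hS.closed fun s hs => hS.unit s hs
  have o₁ : ∀ c, normSq c = 1 → ∃ d, (c, d) ∈ Cl ρ₁ ρ₂ := by
    intro c hc
    have : c ∈ Prod.fst '' Cl ρ₁ ρ₂ := closure_minimal (by
      rintro _ ⟨γ, rfl⟩; exact ⟨_, subset_closure ⟨γ, rfl⟩, rfl⟩)
      (hK.image continuous_fst).isClosed (dense_of_not_va hu₁ v₁ c hc)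
    obtain ⟨s, hs, rfl⟩ := this
    exact ⟨s.2, hs⟩
  have o₂ : ∀ d, normSq d = 1 → ∃ c, (c, d) ∈ Cl ρ₁ ρ₂ := by
    intro c hc
    have : c ∈ Prod.snd '' Cl ρ₁ ρ₂ := closure_minimal (by
      rintro _ ⟨γ, rfl⟩; exact ⟨_, subset_closure ⟨γ, rfl⟩, rfl⟩)
      (hK.image continuous_snd).isClosed (dense_of_not_va hu₂ v₂ c hc)
    obtain ⟨s, hs, rfl⟩ := this
    exact ⟨s.1, hs⟩
  by_cases n₁ : ∃ y, (y, 1) ∈ Cl ρ₁ ρ₂ ∧ y ≠ 1 ∧ y ≠ -1
  · obtain ⟨y, hy, h1, h2⟩ := n₁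
    exact Or.inr (hS.full o₁ o₂ hy h1 h2)
  by_cases n₂ : ∃ y, (1, y) ∈ Cl ρ₁ ρ₂ ∧ y ≠ 1 ∧ y ≠ -1
  · obtain ⟨y, hy, h1, h2⟩ := n₂
    exact Or.inr fun a b ha hb => hS.swap.full o₂ o₁ hy h1 h2 b a hb ha
  left
  have m₁ : ∀ y, (y, 1) ∈ Cl ρ₁ ρ₂ → y = 1 ∨ y = -1 := fun y hy => by
    by_contra h; push Not at h; exact n₁ ⟨y, hy, h⟩
  have m₂ : ∀ y, (1, y) ∈ Cl ρ₁ ρ₂ → y = 1 ∨ y = -1 := fun y hy => by
    by_contra h; push Not at h; exact n₂ ⟨y, hy, h⟩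
  obtain ⟨γ₀, g1, g2⟩ := hneg
  obtain ⟨q, r, hq, hr, hT⟩ := hS.diag_param (subset_closure ⟨γ₀, Prod.ext g1 g2⟩) m₁ m₂
    (acc_of_not_va hu₁ hu₂ v₁)
  let Λ : Subgroup (ℍˣ × ℍˣ) :=
    { carrier := {t | ((t.1 : ℍ), (t.2 : ℍ)) ∈ Cl ρ₁ ρ₂}
      mul_mem' := fun {a b} ha hb => hS.mul _ ha _ hb
      one_mem' := hS.one
      inv_mem' := fun {a} ha => by
        have h1 := hS.star _ ha
        have h2 := hS.unit _ ha
        simpa [Prod.star_def, inv_eq_star h2.1, inv_eq_star h2.2] using h1 }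
  let σ₁ : Λ →* ℍ := (Units.coeHom ℍ).comp ((MonoidHom.fst _ _).comp Λ.subtype)
  let σ₂ : Λ →* ℍ := (Units.coeHom ℍ).comp ((MonoidHom.snd _ _).comp Λ.subtype)
  have w₁ : IsU σ₁ := fun t => (hS.unit _ t.2).1
  have w₂ : IsU σ₂ := fun t => (hS.unit _ t.2).2
  have q0 := ne_zero_of_unit hq
  have r0 := ne_zero_of_unit hr
  let g : ℝ → Λ := fun t => ⟨(Units.mk0 _ (ne_zero_of_unit (normSq_rot hq t)),
    Units.mk0 _ (ne_zero_of_unit (normSq_rot hr t))), hT t⟩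
  have c₁ : ∀ t, cj σ₁ q q0 (g t) = (Complex.exp (t * Complex.I) : ℂ) := fun t => cj_rot hq t
  have c₂ : ∀ t, cj σ₂ r r0 (g t) = (Complex.exp (t * Complex.I) : ℂ) := fun t => cj_rot hr t
  have hre : ∀ t : Λ, (cj σ₂ r r0 t).re ^ 2 = (cj σ₁ q q0 t).re ^ 2 := fun t => by
    rw [cj_apply, cj_apply, re_conj _ r0, re_conj _ q0]
    exact hS.re_sq o₁ m₂ hq hr hT t.2
  let ι : Γ →* Λ := (ρ₁.toHomUnits.prod ρ₂.toHomUnits).codRestrict Λ
    fun γ => subset_closure ⟨γ, rfl⟩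
  rcases line_or_va (w₁.cj q q0) (w₂.cj r r0) (g := g (Real.pi / 4)) (by rw [c₁]; rfl)
    (by rw [c₂]; rfl) (by rw [c₁, c₂]) (by
      rw [c₁, pp_coe, ← Complex.exp_nat_mul]
      have : ((2 : ℕ) : ℂ) * (((Real.pi / 4 : ℝ) : ℂ) * Complex.I) = Real.pi / 2 * Complex.I := by
        push_cast; ring
      rw [this, Complex.exp_pi_div_two_mul_I]; simp) (fun t => by
      have h1 := hre t
      have h2 := hre (g (Real.pi / 2) * t)
      have e : Complex.exp (((Real.pi / 2 : ℝ) : ℂ) * Complex.I) = Complex.I := by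
        push_cast; exact Complex.exp_pi_div_two_mul_I
      rw [map_mul, map_mul, c₁, c₂, e] at h2
      simp only [Complex.normSq_apply, pp]
      simp at h2
      nlinarith) with h | h
  · obtain ⟨x, hx, hl⟩ := h.of_cj.symm
    exact ⟨x, hx, fun γ => hl (ι γ)⟩
  · obtain ⟨N, hN, hc⟩ := h.1.of_cj
    refine absurd ⟨N.comap ι, ⟨?_⟩, fun a ha b hb => hc _ ha _ hb⟩ v₁
    rw [Subgroup.index_comap]
    exact (Subgroup.instFiniteIndex_subgroupOf N ι.range).1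

theorem trichotomy' {ρ₁ ρ₂ : Γ →* ℍ} (hu₁ : IsU ρ₁) (hu₂ : IsU ρ₂)
    (hneg : ∃ γ, ρ₁ γ = -1 ∧ ρ₂ γ = -1)
    (h : ¬ ∀ a b, normSq a = 1 → normSq b = 1 → (a, b) ∈ Cl ρ₁ ρ₂) :
    FreeAct ρ₁ ρ₂ ∨ (VA ρ₁ ∧ VA ρ₂) ∨ Line ρ₁ ρ₂ := by
  by_cases v₁ : VA ρ₁
  · rcases free_or_va_of_va hu₁ hu₂ v₁ with h | h
    · exact Or.inl h
    · exact Or.inr (Or.inl ⟨v₁, h⟩)
  by_cases v₂ : VA ρ₂
  · rcases free_or_va_of_va hu₂ hu₁ v₂ with h | h
    · exact Or.inl h.symm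
    · exact absurd h v₁
  exact Or.inr (Or.inr ((dense_or_line hu₁ hu₂ hneg v₁ v₂).resolve_right h))

end Pool.Agent.Lib.MP_0bf891_al
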