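import Mathlib

namespace Pool.Agent.Lib.MP_0bf891_al

/-- the six letters -/
abbrev Let6 := Fin 3 × Bool

/-- inverse letter -/
def bar (s : Let6) : Let6 := (s.1, !s.2)

theorem bar_bar (s : Let6) : bar (bar s) = s := by simp [bar]

/-- the permutation named by a letter -/
def lett {X : Type} (g : Fin 3 → Equiv.Perm X) (s : Let6) : Equiv.Perm X :=
  cond s.2 (g s.1) (g s.1)⁻¹

/-- in a finite labelled subgraph without leaves, two branch points are never one step apart -/
def Sparse {X : Type} (g : Let6 → X → X) : Prop :=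
  ∀ P : Set (X × Let6), P.Finite → (∀ u s, (u, s) ∈ P → (g (bar s) u, bar s) ∈ P) →
    (∀ u s, (u, s) ∈ P → ∃ t, t ≠ s ∧ (u, t) ∈ P) →
    ∀ y p t t' r r', t ≠ t' → t ≠ bar p → t' ≠ bar p → r ≠ r' → r ≠ p → r' ≠ p →
      (y, t) ∈ P → (y, t') ∈ P → (g p y, r) ∈ P → (g p y, r') ∈ P → False

section hall

variable {X : Type} (g : Fin 3 → Equiv.Perm X)

/-- the item to which a half edge belongs -/
def item (v : X) (s : Let6) : X × Bool := (cond s.2 ((g s.1)⁻¹ v) v, decide (s.1 ≠ 0))

theorem item_bar (v : X) (s : Let6) : item g (lett g (bar s) v) (bar s) = item g v s := by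
  rcases s with ⟨i, b⟩
  cases b <;> simp [item, lett, bar]

theorem item_inj (s : Let6) : Function.Injective fun v => item g v s := by
  rcases s with ⟨i, b⟩
  intro x y h
  cases b <;> simpa [item] using h

open Classical in
/-- the points of an item -/
noncomputable def nb (i : X × Bool) : Finset X :=
  cond i.2 {i.1, g 1 i.1, g 2 i.1} {i.1, g 0 i.1}

theorem mem_nb (i : X × Bool) (v : X) : v ∈ nb g i ↔ ∃ s, item g v s = i := by
  rcases i with ⟨x, b⟩
  cases b <;> simp [nb, item, Fin.exists_fin_succ, Equiv.symm_apply_eq]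
  tauto

open Classical in
theorem hall_step (hs : Sparse fun s => lett g s) (I : Finset (X × Bool))
    (hmin : ∀ v s, item g v s ∈ I → ∃ t, item g v t ∈ I ∧ item g v t ≠ item g v s) :
    I.card ≤ (I.biUnion (nb g)).card := by
  set N := I.biUnion (nb g) with hN
  have hmem : ∀ v s, item g v s ∈ I → v ∈ N := fun v s h =>
    Finset.mem_biUnion.2 ⟨_, h, (mem_nb g _ v).2 ⟨s, rfl⟩⟩
  have key := hs {p | item g p.1 p.2 ∈ I}
    ((N ×ˢ (Finset.univ : Finset Let6)).finite_toSet.subset fun p hp => by
      simpa using hmem _ _ hp)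
    (fun u s h => by simpa [item_bar] using h)
    (fun u s h => by
      obtain ⟨t, h1, h2⟩ := hmin u s h
      exact ⟨t, fun e => h2 (by rw [e]), h1⟩)
  simp only [Set.mem_ofPred_eq] at key
  have hin : ∀ (v : X) (i : Fin 3), i ≠ 0 → item g v (i, true) ∈ I →
      (Finset.univ.filter fun s : Let6 => item g v s ∈ I).card ≤ 2 := by
    intro v i hi hv
    by_contra hc
    have h3 : 1 < ((Finset.univ.filter fun s : Let6 => item g v s ∈ I).erase (i, true)).card := by
      rw [Finset.card_erase_of_mem (by simpa using hv)]; omega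
    obtain ⟨r, hr, r', hr', hrr⟩ := Finset.one_lt_card.1 h3
    simp only [Finset.mem_erase, Finset.mem_filter, Finset.mem_univ, true_and] at hr hr'
    have e0 : ∀ j : Fin 3, j ≠ 0 → item g ((g i)⁻¹ v) (j, false) = item g v (i, true) := by
      intro j hj; simp [item, hi, hj]
    obtain ⟨t, ht1, ht2⟩ := hmin ((g i)⁻¹ v) (i, false) (by rw [e0 i hi]; exact hv)
    obtain ⟨j, hj0, hji⟩ := (by decide : ∀ i : Fin 3, ∃ j : Fin 3, j ≠ 0 ∧ j ≠ i) i
    have ev : lett g (i, true) ((g i)⁻¹ v) = v := by simp [lett]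
    refine key ((g i)⁻¹ v) (i, true) t (j, false) r r' ?_ ?_ ?_ hrr hr.1 hr'.1 ht1 ?_ ?_ ?_
    · rintro rfl; exact ht2 (by rw [e0 j hj0, e0 i hi])
    · rintro rfl; exact ht2 rfl
    · simp [bar, hji]
    · rw [e0 j hj0]; exact hv
    · rw [ev]; exact hr.2
    · rw [ev]; exact hr'.2
  have hdeg : ∀ v, (Finset.univ.filter fun s : Let6 => item g v s ∈ I).card ≤
      2 + 2 * (if (v, true) ∈ I then 1 else 0) := by
    intro v
    by_cases h1 : item g v (1, true) ∈ I
    · exact (hin v 1 (by decide) h1).trans (Nat.le_add_right _ _)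
    by_cases h2 : item g v (2, true) ∈ I
    · exact (hin v 2 (by decide) h2).trans (Nat.le_add_right _ _)
    have hall6 : ∀ s : Let6, s = (1, true) ∨ s = (2, true) ∨ s = (0, true) ∨ s = (0, false) ∨
        s = (1, false) ∨ s = (2, false) := by decide
    split_ifs with h
    · refine (Finset.card_le_card (t := {(0, true), (0, false), (1, false), (2, false)}) ?_).trans
        (by decide)
      intro s hs
      have hs' := (Finset.mem_filter.1 hs).2
      rcases hall6 s with rfl | rfl | rfl | rfl | rfl | rfl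
      exacts [absurd hs' h1, absurd hs' h2, by decide, by decide, by decide, by decide]
    · refine (Finset.card_le_card (t := {(0, true), (0, false)}) ?_).trans (by decide)
      intro s hs
      have hs' := (Finset.mem_filter.1 hs).2
      rcases hall6 s with rfl | rfl | rfl | rfl | rfl | rfl
      exacts [absurd hs' h1, absurd hs' h2, by decide, by decide, absurd hs' h, absurd hs' h]
  have hcnt : ∀ s : Let6, (N.filter fun v => item g v s ∈ I).card =
      (I.filter fun i => i.2 = decide (s.1 ≠ 0)).card := by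
    intro s
    refine Finset.card_bij (fun v _ => item g v s) ?_ (fun a _ b _ h => item_inj g s h) ?_
    · intro v hv
      exact Finset.mem_filter.2 ⟨(Finset.mem_filter.1 hv).2, rfl⟩
    · rintro ⟨x, b⟩ hi
      obtain ⟨h1, h2⟩ := Finset.mem_filter.1 hi
      have e : item g (cond s.2 (g s.1 x) x) s = (x, b) := by
        rcases s with ⟨i, c⟩
        have h3 : b = decide (i ≠ 0) := h2
        cases c <;> simp [item, h3]
      exact ⟨_, Finset.mem_filter.2 ⟨hmem _ s (e ▸ h1), e ▸ h1⟩, e⟩
  have hsum : ∑ s : Let6, (N.filter fun v => item g v s ∈ I).card =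
      ∑ v ∈ N, (Finset.univ.filter fun s : Let6 => item g v s ∈ I).card := by
    simp only [Finset.card_filter]
    exact Finset.sum_comm
  have h2 : ∑ v ∈ N, (if (v, true) ∈ I then 1 else 0) = (I.filter fun i => i.2 = true).card := by
    have := hcnt (1, false)
    rw [Finset.card_filter] at this
    simpa [item] using this
  have h3 := Finset.sum_le_sum fun v (_ : v ∈ N) => hdeg v
  rw [← hsum, Finset.sum_add_distrib, ← Finset.mul_sum, h2] at h3
  simp only [hcnt, Fintype.sum_prod_type, Fin.sum_univ_three, Fintype.sum_bool] at h3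
  have h4 := Finset.card_filter_add_card_filter_not (s := I) (fun i => i.2 = true)
  simp at h3 h4
  omega

open Classical in
theorem hall (hs : Sparse fun s => lett g s) (I : Finset (X × Bool)) :
    I.card ≤ (I.biUnion (nb g)).card := by
  induction I using Finset.strongInduction with
  | H I ih =>
    by_cases hmin : ∀ v s, item g v s ∈ I → ∃ t, item g v t ∈ I ∧ item g v t ≠ item g v s
    · exact hall_step g hs I hmin
    · push Not at hmin
      obtain ⟨v, s, h1, h2⟩ := hmin
      have h3 := ih _ (Finset.erase_ssubset h1)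
      have h4 : v ∈ I.biUnion (nb g) := Finset.mem_biUnion.2 ⟨_, h1, (mem_nb g _ v).2 ⟨s, rfl⟩⟩
      have h5 : (I.erase (item g v s)).biUnion (nb g) ⊆ (I.biUnion (nb g)).erase v := by
        intro w hw
        obtain ⟨i, hi, hwi⟩ := Finset.mem_biUnion.1 hw
        refine Finset.mem_erase.2 ⟨?_, Finset.mem_biUnion.2 ⟨i, Finset.mem_of_mem_erase hi, hwi⟩⟩
        rintro rfl
        obtain ⟨t, rfl⟩ := (mem_nb g _ _).1 hwi
        exact (Finset.mem_erase.1 hi).1 (h2 t (Finset.mem_of_mem_erase hi))
      have h6 := Finset.card_le_card h5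
      rw [Finset.card_erase_of_mem h1] at h3
      rw [Finset.card_erase_of_mem h4] at h6
      have h7 := Finset.card_pos.2 ⟨_, h4⟩
      omega

/-- exact five piece decomposition -/
def Five : Prop :=
  ∃ c : X → Fin 5,
    Set.BijOn (fun x => (![1, (g 0)⁻¹, 1, (g 1)⁻¹, (g 2)⁻¹] : Fin 5 → Equiv.Perm X) (c x) x)
      {x | c x < 2} Set.univ ∧
    Set.BijOn (fun x => (![1, (g 0)⁻¹, 1, (g 1)⁻¹, (g 2)⁻¹] : Fin 5 → Equiv.Perm X) (c x) x)
      {x | 2 ≤ c x} Set.univ

theorem five_of_inj (f : X × Bool → X) (hf : Function.Injective f) (hm : ∀ i, f i ∈ nb g i) :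
    Five g := by
  classical
  let α : X → X := fun x => f (x, false)
  let O : Set X := {x | ∃ n : ℕ, ∃ y, y ∉ Set.range f ∧ α^[n] y = x}
  have hO : ∀ x, α x ∈ O ↔ x ∈ O := by
    intro x
    constructor
    · rintro ⟨n, y, hy, h⟩
      cases n with
      | zero => exact absurd ⟨(x, false), h.symm⟩ hy
      | succ n =>
        rw [Function.iterate_succ_apply'] at h
        exact ⟨n, y, hy, congrArg Prod.fst (hf h)⟩
    · rintro ⟨n, y, hy, rfl⟩
      exact ⟨n + 1, y, hy, Function.iterate_succ_apply' _ _ _⟩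
  have hO2 : ∀ x, f (x, true) ∉ O := by
    rintro x ⟨n, y, hy, h⟩
    cases n with
    | zero => exact hy ⟨(x, true), h.symm⟩
    | succ n =>
      rw [Function.iterate_succ_apply'] at h
      exact Bool.false_ne_true (congrArg Prod.snd (hf h))
  let F : X × Bool → X := fun i => if i.2 = false ∧ i.1 ∈ O then i.1 else f i
  have hFm : ∀ i, F i ∈ nb g i := by
    rintro ⟨x, b⟩
    simp only [F]
    split_ifs with h
    · obtain ⟨rfl, -⟩ := h; simp [nb]
    · exact hm _
  have hnot : ∀ j : X × Bool, ¬ (j.2 = false ∧ j.1 ∈ O) → f j ∉ O := by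
    rintro ⟨y, b⟩ hj
    cases b
    · exact fun h => hj ⟨rfl, (hO y).1 h⟩
    · exact hO2 y
  have hFi : Function.Injective F := by
    intro i j h
    simp only [F] at h
    split_ifs at h with h1 h2 h2
    · exact Prod.ext h (h1.1.trans h2.1.symm)
    · exact absurd (h ▸ h1.2) (hnot j h2)
    · exact absurd (h ▸ h2.2) (hnot i h1)
    · exact hf h
  have hFs : Function.Surjective F := by
    intro x
    by_cases hx : x ∈ O
    · exact ⟨(x, false), by simp [F, hx]⟩
    · by_cases hr : x ∈ Set.range f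
      · obtain ⟨⟨y, b⟩, rfl⟩ := hr
        refine ⟨(y, b), if_neg ?_⟩
        rintro ⟨rfl, h⟩
        exact hx ((hO y).2 h)
      · exact absurd ⟨0, x, hr, rfl⟩ hx
  let E := Equiv.ofBijective F ⟨hFi, hFs⟩
  have hc : ∀ x, ∃ k : Fin 5, (k < 2 ↔ (E.symm x).2 = false) ∧
      (![1, (g 0)⁻¹, 1, (g 1)⁻¹, (g 2)⁻¹] : Fin 5 → Equiv.Perm X) k x = (E.symm x).1 := by
    intro x
    have h1 := hFm (E.symm x)
    have h2 : F (E.symm x) = x := E.apply_symm_apply x
    rw [h2] at h1
    generalize E.symm x = i at h1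
    rcases i with ⟨y, b⟩
    cases b
    · simp only [nb, cond_false, Finset.mem_insert, Finset.mem_singleton] at h1
      rcases h1 with rfl | rfl
      · exact ⟨0, by simp, by simp⟩
      · exact ⟨1, by simp, by simp⟩
    · simp only [nb, cond_true, Finset.mem_insert, Finset.mem_singleton] at h1
      rcases h1 with rfl | rfl | rfl
      · exact ⟨2, by simp, by simp⟩
      · exact ⟨3, by simp, by simp⟩
      · exact ⟨4, by simp, by simp⟩
  choose c hc1 hc2 using hc
  have hb : ∀ b : Bool, Set.BijOn (fun x => (E.symm x).1) {x | (E.symm x).2 = b} Set.univ := by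
    intro b
    refine ⟨Set.mapsTo_univ _ _, fun x hx y hy h => ?_, fun y _ => ⟨E (y, b), by simp, by simp⟩⟩
    exact E.symm.injective (Prod.ext h (hx.trans hy.symm))
  refine ⟨c, ?_, ?_⟩
  · simp only [hc1, hc2]; exact hb false
  · simp only [← not_lt, hc1, hc2, Bool.not_eq_false]; exact hb true

theorem five_of_sparse (hs : Sparse fun s => lett g s) : Five g := by
  obtain ⟨f, hf, hm⟩ := (@Finset.all_card_le_biUnion_card_iff_exists_injective _ _
    (fun a b => Classical.propDecidable (a = b)) (nb g)).1 (hall g hs)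
  exact five_of_inj g f hf hm

end hall

theorem head_of_mul (i : Fin 2) (w : FreeGroup (Fin 2)) (h : w.toWord.head? ≠ some (i, false)) :
    (FreeGroup.of i * w).toWord.head? = some (i, true) := by
  rw [FreeGroup.toWord_mul, FreeGroup.toWord_of, List.singleton_append, FreeGroup.reduce.cons,
    FreeGroup.reduce_toWord]
  generalize w.toWord = L at h
  rcases L with _ | ⟨⟨j, b⟩, L⟩
  · rfl
  · dsimp only
    rw [if_neg]
    · rfl
    · rintro ⟨rfl, h2⟩
      cases b
      · exact h rfl
      · exact absurd h2 (by decide)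

theorem five_of_free {X : Type} (σ : FreeGroup (Fin 2) →* Equiv.Perm X)
    (hσ : ∀ w, w ≠ 1 → ∀ x, σ w x ≠ x) :
    Five ![σ (FreeGroup.of 0), σ (FreeGroup.of 1), σ (FreeGroup.of 1)] := by
  classical
  let rep : X → X := fun x => @Classical.epsilon X ⟨x⟩ fun y => ∃ w, σ w y = x
  have hrep : ∀ x, ∃ w, σ w (rep x) = x := fun x =>
    Classical.epsilon_spec (p := fun y => ∃ w, σ w y = x) ⟨x, 1, by simp⟩
  have hrep2 : ∀ u x, rep (σ u x) = rep x := by
    intro u x
    have : (fun y => ∃ w, σ w y = σ u x) = fun y => ∃ w, σ w y = x := by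
      ext y
      exact ⟨fun ⟨w, h⟩ => ⟨u⁻¹ * w, by simp [h]⟩, fun ⟨w, h⟩ => ⟨u * w, by simp [h]⟩⟩
    simp only [rep, this]
  choose w hw using hrep
  have hw2 : ∀ u x, w (σ u x) = u * w x := by
    intro u x
    by_contra h
    refine hσ ((u * w x)⁻¹ * w (σ u x)) (fun e => h (inv_mul_eq_one.1 e).symm) (rep x) ?_
    have := hw (σ u x)
    rw [hrep2] at this
    rw [map_mul, Equiv.Perm.mul_apply, this, map_inv, Equiv.Perm.inv_eq_iff_eq, map_mul,
      Equiv.Perm.mul_apply, hw]
  let ix : Bool → Fin 2 := fun b => cond b 1 0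
  have hix : Function.Injective ix := by decide
  let f : X × Bool → X := fun i =>
    if (w i.1).toWord.head? = some (ix i.2, false) then i.1 else σ (FreeGroup.of (ix i.2)) i.1
  refine five_of_inj _ f ?_ ?_
  · rintro ⟨x, b⟩ ⟨y, c⟩ h
    simp only [f] at h
    split_ifs at h with h1 h2 h2
    · rw [h, h2] at h1
      rw [h, hix (congrArg Prod.fst (Option.some.inj h1))]
    · rw [h, hw2, head_of_mul _ _ h2] at h1
      exact Bool.noConfusion (congrArg Prod.snd (Option.some.inj h1))
    · rw [← h, hw2, head_of_mul _ _ h1] at h2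
      exact Bool.noConfusion (congrArg Prod.snd (Option.some.inj h2))
    · have h3 := head_of_mul _ _ h1
      rw [← hw2, h, hw2, head_of_mul _ _ h2] at h3
      obtain rfl := hix (congrArg Prod.fst (Option.some.inj h3))
      rw [(σ _).injective h]
  · rintro ⟨x, b⟩
    simp only [f]
    split_ifs <;> cases b <;> simp [nb, ix]

end Pool.Agent.Lib.MP_0bf891_al
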