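import Pool.Agent.Lib.MP_0bf891_al.Five1

open Matrix Filter Topology

namespace Pool.Agent.Lib.MP_0bf891_al

section alg

variable {K : Type} [Field K]

/-- the determinant of two plane vectors -/
def om (x y : Fin 2 → K) : K := x 0 * y 1 - x 1 * y 0

theorem om_mulVec (A : Matrix (Fin 2) (Fin 2) K) (x y : Fin 2 → K) :
    om (A *ᵥ x) (A *ᵥ y) = A.det * om x y := by
  simp only [om, mulVec, dotProduct, Fin.sum_univ_two, det_fin_two]; ring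

theorem om_smul_left (c : K) (x y : Fin 2 → K) : om (c • x) y = c * om x y := by
  simp only [om, Pi.smul_apply, smul_eq_mul]; ring

theorem om_smul_right (c : K) (x y : Fin 2 → K) : om x (c • y) = c * om x y := by
  simp only [om, Pi.smul_apply, smul_eq_mul]; ring

theorem om_swap (x y : Fin 2 → K) : om x y = - om y x := by
  simp only [om]; ring

theorem om_self (x : Fin 2 → K) : om x x = 0 := by
  simp only [om]; ring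

theorem om_decomp (w p q : Fin 2 → K) : om p q • w = om w q • p - om w p • q := by
  ext i; fin_cases i <;> simp [om] <;> ring

/-- cross ratio -/
def CR (w₁ w₂ w₃ w₄ : Fin 2 → K) : K := om w₁ w₂ * om w₃ w₄ / (om w₁ w₃ * om w₂ w₄)

theorem CR_mulVec {A : Matrix (Fin 2) (Fin 2) K} (hA : A.det ≠ 0) (w₁ w₂ w₃ w₄ : Fin 2 → K) :
    CR (A *ᵥ w₁) (A *ᵥ w₂) (A *ᵥ w₃) (A *ᵥ w₄) = CR w₁ w₂ w₃ w₄ := by
  simp only [CR, om_mulVec]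
  rw [mul_mul_mul_comm, mul_mul_mul_comm A.det (om w₁ w₃),
    mul_div_mul_left _ _ (mul_ne_zero hA hA)]

/-- rescaled cross ratio across one long step -/
def HH (p q x₁ x₂ x₃ x₄ : Fin 2 → K) (ν : K) : K :=
  om x₁ x₂ * om x₃ x₄ * om p q ^ 2 / ((ν * (om x₁ p * om x₃ q) - om x₁ q * om x₃ p) *
    (ν * (om x₂ p * om x₄ q) - om x₂ q * om x₄ p))

theorem HH_smul (p q x₁ x₂ x₃ x₄ : Fin 2 → K) (ν : K) {c₁ c₂ c₃ c₄ : K} (h₁ : c₁ ≠ 0)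
    (h₂ : c₂ ≠ 0) (h₃ : c₃ ≠ 0) (h₄ : c₄ ≠ 0) :
    HH p q (c₁ • x₁) (c₂ • x₂) (c₃ • x₃) (c₄ • x₄) ν = HH p q x₁ x₂ x₃ x₄ ν := by
  simp only [HH, om_smul_left, om_smul_right]
  rw [← mul_div_mul_left (om x₁ x₂ * om x₃ x₄ * om p q ^ 2) _
    (mul_ne_zero (mul_ne_zero h₁ h₂) (mul_ne_zero h₃ h₄))]
  congr 1 <;> ring

theorem CR_eq_HH {B : Matrix (Fin 2) (Fin 2) K} (hB : B.det = 1) {μ : K} (hμ : μ ≠ 0)
    {p q : Fin 2 → K} (hp : B *ᵥ p = μ • p) (hq : B *ᵥ q = μ⁻¹ • q) (hpq : om p q ≠ 0)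
    (w₁ w₂ w₃ w₄ : Fin 2 → K) :
    μ ^ 2 * CR w₁ w₂ w₃ w₄ = HH p q w₁ w₂ (B *ᵥ w₃) (B *ᵥ w₄) (μ⁻¹ ^ 2) := by
  have a : ∀ w, om w p = μ * om (B *ᵥ w) p := fun w => by
    rw [← om_smul_right, ← hp, om_mulVec, hB, one_mul]
  have b : ∀ w, om w q = μ⁻¹ * om (B *ᵥ w) q := fun w => by
    rw [← om_smul_right, ← hq, om_mulVec, hB, one_mul]
  have c : ∀ x w, μ⁻¹ ^ 2 * (om x p * om (B *ᵥ w) q) - om x q * om (B *ᵥ w) p =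
      μ⁻¹ * om p q * om x w := fun x w => by
    have h1 : om p q * om x w = om x p * om w q - om x q * om w p := by
      simp only [om]; ring
    rw [mul_assoc, h1, a w, b w]
    field_simp
  rw [HH, c, c, om_mulVec, hB, one_mul, CR, ← mul_div_assoc,
    ← mul_div_mul_left (μ ^ 2 * _) _ (pow_ne_zero 2 (mul_ne_zero (inv_ne_zero hμ) hpq))]
  congr 1
  · field_simp
  · ring

/-- admissible label patterns -/
def Adm (p t t' r r' : Let6) : Prop := t ≠ t' ∧ t ≠ bar p ∧ t' ≠ bar p ∧ r ≠ r' ∧ r ≠ p ∧ r' ≠ p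

theorem ne_bar (s : Let6) : s ≠ bar s := by
  rcases s with ⟨i, b⟩; simp [bar]

theorem kap_ne {e : Let6 → Fin 2 → K} (he : ∀ s t, s ≠ t → om (e s) (e t) ≠ 0)
    {p t t' r r' : Let6} (h : Adm p t t' r r') :
    HH (e p) (e (bar p)) (e t) (e t') (e r) (e r') 0 ≠ 0 := by
  obtain ⟨h1, h2, h3, h4, h5, h6⟩ := h
  simp [HH, he _ _ h1, he _ _ h2, he _ _ h3, he _ _ h4, he _ _ h5, he _ _ h6, he _ _ (ne_bar p)]

end alg

theorem ev_small {E : Type} [PseudoMetricSpace E] {a : E} {Q : E → Prop} (h : ∀ᶠ x in 𝓝 a, Q x) :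
    ∀ᶠ δ in 𝓝[>] (0 : ℝ), ∀ x, dist x a < δ → Q x := by
  obtain ⟨ε, hε, h⟩ := Metric.eventually_nhds_iff.1 h
  exact ((eventually_lt_nhds hε).filter_mono nhdsWithin_le_nhds).mono
    fun δ hδ x hx => h (hx.trans hδ)

section normed

variable {K : Type} [NormedField K]

theorem norm_om_le (x y : Fin 2 → K) : ‖om x y‖ ≤ 2 * ‖y‖ * ‖x‖ := by
  have h1 := norm_sub_le (x 0 * y 1) (x 1 * y 0)
  rw [norm_mul, norm_mul] at h1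
  have h2 := mul_le_mul (norm_le_pi_norm x 0) (norm_le_pi_norm y 1) (norm_nonneg _) (norm_nonneg _)
  have h3 := mul_le_mul (norm_le_pi_norm x 1) (norm_le_pi_norm y 0) (norm_nonneg _) (norm_nonneg _)
  unfold om
  linarith

theorem exists_mulVec_le (A : Matrix (Fin 2) (Fin 2) K) :
    ∃ C : ℝ, 0 < C ∧ ∀ w, ‖A *ᵥ w‖ ≤ C * ‖w‖ := by
  refine ⟨1 + ‖A 0 0‖ + ‖A 0 1‖ + ‖A 1 0‖ + ‖A 1 1‖, by positivity, fun w => ?_⟩
  rw [pi_norm_le_iff_of_nonneg (by positivity)]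
  intro i
  have h1 := norm_add_le (A i 0 * w 0) (A i 1 * w 1)
  rw [norm_mul, norm_mul] at h1
  have h2 := mul_le_mul_of_nonneg_left (norm_le_pi_norm w 0) (norm_nonneg (A i 0))
  have h3 := mul_le_mul_of_nonneg_left (norm_le_pi_norm w 1) (norm_nonneg (A i 1))
  have e : (A *ᵥ w) i = A i 0 * w 0 + A i 1 * w 1 := by
    simp only [mulVec, dotProduct, Fin.sum_univ_two]
  rw [e]
  have n0 := norm_nonneg w
  have a0 := mul_nonneg (norm_nonneg (A 0 0)) n0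
  have a1 := mul_nonneg (norm_nonneg (A 0 1)) n0
  have a2 := mul_nonneg (norm_nonneg (A 1 0)) n0
  have a3 := mul_nonneg (norm_nonneg (A 1 1)) n0
  fin_cases i <;> simp only [Fin.zero_eta, Fin.mk_one, Fin.isValue] at h1 h2 h3 ⊢ <;> linarith

theorem exists_const {e : Let6 → Fin 2 → K} (he : ∀ s t, s ≠ t → om (e s) (e t) ≠ 0) :
    ∃ C : ℝ, 1 ≤ C ∧ (∀ s w, ‖om w (e s)‖ ≤ C * ‖w‖) ∧
      ∀ s t, s ≠ t → ∀ w, ‖w‖ ≤ C * (‖om w (e s)‖ + ‖om w (e t)‖) := by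
  have h1 : ∀ᶠ C : ℝ in atTop, ∀ s, 2 * ‖e s‖ ≤ C := eventually_all.2 fun s => eventually_ge_atTop _
  have h2 : ∀ᶠ C : ℝ in atTop, ∀ s t, (‖e s‖ + ‖e t‖) / ‖om (e s) (e t)‖ ≤ C :=
    eventually_all.2 fun s => eventually_all.2 fun t => eventually_ge_atTop _
  obtain ⟨C, a, b, c⟩ := ((eventually_ge_atTop 1).and (h1.and h2)).exists
  refine ⟨C, a, fun s w => (norm_om_le _ _).trans
    (mul_le_mul_of_nonneg_right (b s) (norm_nonneg _)), fun s t hst w => ?_⟩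
  have h0 := norm_pos_iff.2 (he s t hst)
  have h3 := c s t
  rw [div_le_iff₀ h0] at h3
  have h4 := norm_sub_le (om w (e t) • e s) (om w (e s) • e t)
  rw [← om_decomp, norm_smul, norm_smul, norm_smul] at h4
  apply le_of_mul_le_mul_left _ h0
  have n1 := norm_nonneg (om w (e s))
  have n2 := norm_nonneg (om w (e t))
  nlinarith [mul_le_mul_of_nonneg_left h3 (add_nonneg n1 n2), mul_nonneg n1 (norm_nonneg (e s)),
    mul_nonneg n2 (norm_nonneg (e t))]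

theorem pow_eq_one_of_near {Φ : Type} [Finite Φ] (θ : K) (κ : Φ → K) (hκ : ∀ φ, κ φ ≠ 0)
    (h : ∀ δ : ℝ, 0 < δ → ∀ᶠ n : ℕ in atTop, ∃ φ, ‖θ ^ n - κ φ‖ < δ) :
    ∃ d : ℕ, 0 < d ∧ θ ^ d = 1 := by
  by_contra hcon
  push Not at hcon
  have := Fintype.ofFinite Φ
  have h1 : ∀ᶠ δ in 𝓝[>] (0 : ℝ), ∀ φ, ∀ i j : Fin (Fintype.card Φ + 1), i < j →
      ∀ x, dist x (κ φ) < δ → δ ≤ ‖θ ^ (j.1 - i.1) * x - κ φ‖ := by
    refine eventually_all.2 fun φ => eventually_all.2 fun i => eventually_all.2 fun j =>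
      eventually_all.2 fun hij => ?_
    have h2 : 0 < ‖θ ^ (j.1 - i.1) * κ φ - κ φ‖ := by
      rw [norm_pos_iff, ← sub_one_mul]
      exact mul_ne_zero (sub_ne_zero.2 (hcon _ (Nat.sub_pos_of_lt hij))) (hκ φ)
    have h3 : ContinuousAt (fun x : K => ‖θ ^ (j.1 - i.1) * x - κ φ‖) (κ φ) := by fun_prop
    have h4 := ev_small (h3.eventually (lt_mem_nhds (half_lt_self h2)))
    filter_upwards [h4, (eventually_lt_nhds (half_pos h2)).filter_mono nhdsWithin_le_nhds]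
      with δ a b x hx
    exact (b.trans (a x hx)).le
  obtain ⟨δ, h2, hδ⟩ := (h1.and self_mem_nhdsWithin).exists
  obtain ⟨N, hN⟩ := eventually_atTop.1 (h δ hδ)
  choose f hf using fun i : Fin (Fintype.card Φ + 1) => hN (N + i) (Nat.le_add_right _ _)
  obtain ⟨i, j, hij, e⟩ := Fintype.exists_ne_map_eq_of_card_lt f (by simp)
  wlog hlt : i < j generalizing i j
  · exact this j i hij.symm e.symm (lt_of_le_of_ne (not_lt.1 hlt) hij.symm)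
  have h3 := h2 (f i) i j hlt (θ ^ (N + i)) (by rw [dist_eq_norm]; exact hf i)
  rw [← pow_add, show j.1 - i.1 + (N + i.1) = N + j.1 by have : i.1 < j.1 := hlt; omega, e] at h3
  exact absurd (hf j) (not_lt.2 h3)

theorem factor {e : Let6 → Fin 2 → K} (he : ∀ s t, s ≠ t → om (e s) (e t) ≠ 0) {l : K}
    (hl : 1 < ‖l‖) {δ : ℝ} (hδ : 0 < δ) :
    ∃ D : Let6 → (Fin 2 → K) → Prop, (∀ s t w, s ≠ t → D s w → D t w → w = 0) ∧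
      (∀ s, D s (e s)) ∧ ∀ᶠ n : ℕ in atTop, ∀ A : Let6 → Matrix (Fin 2) (Fin 2) K,
        (∀ s, (A s).det = 1) → (∀ s, A (bar s) * A s = 1) → (∀ s, A s *ᵥ e s = l ^ n • e s) →
        (∀ s w, ¬ D (bar s) w → D s (A s *ᵥ w) ∧ 2 * ‖w‖ ≤ ‖A s *ᵥ w‖) ∧
        ∀ p t t' r r', Adm p t t' r r' → ∀ w₁ w₂ w₃ w₄, w₁ ≠ 0 → w₂ ≠ 0 → A p *ᵥ w₃ ≠ 0 →
          A p *ᵥ w₄ ≠ 0 → D t w₁ → D t' w₂ → D r (A p *ᵥ w₃) → D r' (A p *ᵥ w₄) →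
          ‖(l ^ n) ^ 2 * CR w₁ w₂ w₃ w₄ -
            HH (e p) (e (bar p)) (e t) (e t') (e r) (e r') 0‖ < δ := by
  obtain ⟨C, hC, c1, c2⟩ := exists_const he
  have hC0 : 0 < C := by linarith
  have hl0 : l ≠ 0 := norm_pos_iff.1 (by linarith)
  have h1 : ∀ᶠ η in 𝓝[>] (0 : ℝ), ∀ p t t' r r', Adm p t t' r r' →
      ∀ x : (Fin 2 → K) × (Fin 2 → K) × (Fin 2 → K) × (Fin 2 → K) × K,
        dist x (e t, e t', e r, e r', 0) < η →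
        dist (HH (e p) (e (bar p)) x.1 x.2.1 x.2.2.1 x.2.2.2.1 x.2.2.2.2)
          (HH (e p) (e (bar p)) (e t) (e t') (e r) (e r') 0) < δ := by
    refine eventually_all.2 fun p => eventually_all.2 fun t => eventually_all.2 fun t' =>
      eventually_all.2 fun r => eventually_all.2 fun r' => eventually_all.2 fun h => ev_small ?_
    obtain ⟨-, h2, h3, -, h5, h6⟩ := h
    have h7 : ContinuousAt
        (fun x : (Fin 2 → K) × (Fin 2 → K) × (Fin 2 → K) × (Fin 2 → K) × K =>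
          HH (e p) (e (bar p)) x.1 x.2.1 x.2.2.1 x.2.2.2.1 x.2.2.2.2) (e t, e t', e r, e r', 0) := by
      refine ContinuousAt.div ?_ ?_ ?_
      · unfold om; fun_prop
      · unfold om; fun_prop
      · simp [he _ _ h2, he _ _ h3, he _ _ h5, he _ _ h6]
    exact h7.eventually (Metric.ball_mem_nhds _ hδ)
  obtain ⟨η, h2, hη⟩ := (h1.and self_mem_nhdsWithin).exists
  have hη : 0 < η := hη
  have h3 : ∀ᶠ ε in 𝓝[>] (0 : ℝ), 2 * C * ε < 1 ∧ ∀ s, 2 * C * ε * ‖e s‖ < η := by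
    refine Eventually.filter_mono nhdsWithin_le_nhds (Eventually.and ?_ (eventually_all.2 fun s => ?_))
    · have : ContinuousAt (fun ε : ℝ => 2 * C * ε) 0 := by fun_prop
      exact this.eventually (gt_mem_nhds (by simp))
    · have : ContinuousAt (fun ε : ℝ => 2 * C * ε * ‖e s‖) 0 := by fun_prop
      exact this.eventually (gt_mem_nhds (by simpa using hη))
  obtain ⟨ε, ⟨ε1, ε2⟩, hε⟩ := (h3.and self_mem_nhdsWithin).exists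
  have hε : 0 < ε := hε
  have happ : ∀ s w, w ≠ 0 → ‖om w (e s)‖ ≤ ε * ‖w‖ → ∃ c : K, c ≠ 0 ∧ dist (c • w) (e s) < η := by
    intro s w hw h
    have w0 := norm_pos_iff.2 hw
    have a1 := c2 s (bar s) (ne_bar s) w
    have a2 : ‖w‖ ≤ 2 * C * ‖om w (e (bar s))‖ := by
      nlinarith [mul_le_mul_of_nonneg_left h hC0.le]
    have a3 : om w (e (bar s)) ≠ 0 := fun h0 => by rw [h0, norm_zero] at a2; linarith
    refine ⟨(om w (e (bar s)))⁻¹ * om (e s) (e (bar s)),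
      mul_ne_zero (inv_ne_zero a3) (he _ _ (ne_bar s)), ?_⟩
    rw [dist_eq_norm, mul_smul, om_decomp, smul_sub, inv_smul_smul₀ a3, sub_sub_cancel_left,
      norm_neg, norm_smul, norm_smul, norm_inv, ← mul_assoc]
    refine lt_of_le_of_lt (mul_le_mul_of_nonneg_right ?_ (norm_nonneg _)) (ε2 (bar s))
    rw [inv_mul_le_iff₀ (norm_pos_iff.2 a3)]
    nlinarith [mul_le_mul_of_nonneg_left a2 hε.le]
  refine ⟨fun s w => ‖om w (e s)‖ ≤ ε * ‖w‖, fun s t w hst a b => ?_, fun s => ?_, ?_⟩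
  · have a1 := c2 s t hst w
    rw [← norm_le_zero_iff]
    nlinarith [mul_le_mul_of_nonneg_left (add_le_add a b) hC0.le, norm_nonneg w]
  · beta_reduce; rw [om_self, norm_zero]; positivity
  have t1 := tendsto_pow_atTop_atTop_of_one_lt hl
  filter_upwards [t1.eventually_ge_atTop (2 * C / ε), t1.eventually_gt_atTop (1 + η⁻¹)]
    with n n1 n2 A hd hi hv
  rw [← norm_pow] at n1 n2
  have μ0 : l ^ n ≠ 0 := pow_ne_zero n hl0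
  generalize l ^ n = μ at n1 n2 hv μ0
  have Z0 : 0 < ‖μ‖ := norm_pos_iff.2 μ0
  rw [div_le_iff₀ hε] at n1
  have hv' : ∀ s, A s *ᵥ e (bar s) = μ⁻¹ • e (bar s) := by
    intro s
    have a1 := hi (bar s)
    rw [bar_bar] at a1
    rw [eq_inv_smul_iff₀ μ0, ← mulVec_smul, ← hv, mulVec_mulVec, a1, one_mulVec]
  refine ⟨fun s w hw => ?_, fun p t t' r r' h w₁ w₂ w₃ w₄ z₁ z₂ z₃ z₄ d₁ d₂ d₃ d₄ => ?_⟩
  · push Not at hw
    have a1 : ‖om w (e s)‖ = ‖μ‖ * ‖om (A s *ᵥ w) (e s)‖ := by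
      rw [← norm_mul, ← om_smul_right, ← hv, om_mulVec, hd, one_mul]
    have a2 : ‖om (A s *ᵥ w) (e (bar s))‖ = ‖μ‖ * ‖om w (e (bar s))‖ := by
      rw [← norm_mul, ← one_mul (om w _), ← hd s, ← om_mulVec, hv', om_smul_right,
        mul_inv_cancel_left₀ μ0]
    have a3 := c1 (bar s) (A s *ᵥ w)
    have a4 := c1 s w
    have w0 := norm_nonneg w
    have a5 : 2 * ‖w‖ ≤ ‖A s *ᵥ w‖ := by
      apply le_of_mul_le_mul_left _ hC0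
      nlinarith [mul_le_mul_of_nonneg_left hw.le Z0.le, mul_le_mul_of_nonneg_right n1 w0]
    refine ⟨?_, a5⟩
    apply le_of_mul_le_mul_left _ Z0
    nlinarith [mul_le_mul_of_nonneg_right n1 (norm_nonneg (A s *ᵥ w)),
      mul_le_mul_of_nonneg_left a5 hC0.le, mul_nonneg hC0.le w0]
  · obtain ⟨k₁, b₁, a₁⟩ := happ _ _ z₁ d₁
    obtain ⟨k₂, b₂, a₂⟩ := happ _ _ z₂ d₂
    obtain ⟨k₃, b₃, a₃⟩ := happ _ _ z₃ d₃
    obtain ⟨k₄, b₄, a₄⟩ := happ _ _ z₄ d₄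
    rw [CR_eq_HH (hd p) μ0 (hv p) (hv' p) (he _ _ (ne_bar p)), ← HH_smul _ _ _ _ _ _ _ b₁ b₂ b₃ b₄,
      ← dist_eq_norm]
    refine h2 p t t' r r' h (_, _, _, _, _) ?_
    simp only [Prod.dist_eq, max_lt_iff]
    refine ⟨a₁, a₂, a₃, a₄, ?_⟩
    have a5 : 0 < η⁻¹ := inv_pos.2 hη
    rw [dist_zero_right, norm_pow, norm_inv, inv_pow, inv_lt_comm₀ (by positivity) hη]
    nlinarith

theorem half_edge {X : Type} (m : X → Matrix (Fin 2) (Fin 2) K) (hm : ∀ x, (m x).det ≠ 0)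
    (g : Let6 → X → X) (A₁ A₂ : Let6 → Matrix (Fin 2) (Fin 2) K)
    (hg : ∀ s x, m (g s x) * A₂ s = A₁ s * m x) (i₁ : ∀ s, A₁ (bar s) * A₁ s = 1)
    (i₂ : ∀ s, A₂ (bar s) * A₂ s = 1) (D₁ D₂ : Let6 → (Fin 2 → K) → Prop)
    (d₁ : ∀ s t w, s ≠ t → D₁ s w → D₁ t w → w = 0)
    (d₂ : ∀ s t w, s ≠ t → D₂ s w → D₂ t w → w = 0) (ex : ∀ s, ∃ w, w ≠ 0 ∧ D₂ s w)
    (p₁ : ∀ s w, ¬ D₁ (bar s) w → D₁ s (A₁ s *ᵥ w) ∧ 2 * ‖w‖ ≤ ‖A₁ s *ᵥ w‖)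
    (p₂ : ∀ s w, ¬ D₂ (bar s) w → D₂ s (A₂ s *ᵥ w) ∧ 2 * ‖w‖ ≤ ‖A₂ s *ᵥ w‖)
    (P : Set (X × Let6)) (hP : P.Finite) (c₁ : ∀ u s, (u, s) ∈ P → (g (bar s) u, bar s) ∈ P)
    (c₂ : ∀ u s, (u, s) ∈ P → ∃ t, t ≠ s ∧ (u, t) ∈ P) (u : X) (s : Let6) (hu : (u, s) ∈ P) :
    ∃ w, w ≠ 0 ∧ D₂ s w ∧ D₁ s (m u *ᵥ w) := by
  have hne : ∀ x w, w ≠ 0 → m x *ᵥ w ≠ 0 := fun x w hw h => hw (eq_zero_of_mulVec_eq_zero (hm x) h)
  by_contra hcon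
  obtain ⟨c, hc, h0⟩ := exists_mulVec_le (m u)⁻¹
  have step : ∀ k : ℕ, ∃ u s, (u, s) ∈ P ∧ (¬ ∃ w, w ≠ 0 ∧ D₂ s w ∧ D₁ s (m u *ᵥ w)) ∧
      ∀ w, D₂ s w → 4 ^ k * ‖w‖ ≤ c * ‖m u *ᵥ w‖ := by
    intro k
    induction k with
    | zero =>
      refine ⟨u, s, hu, hcon, fun w _ => ?_⟩
      have := h0 (m u *ᵥ w)
      rwa [mulVec_mulVec, nonsing_inv_mul _ (Ne.isUnit (hm u)), one_mulVec, ← one_mul ‖w‖,
        ← pow_zero (4 : ℝ)] at this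
    | succ k ih =>
      obtain ⟨u, s, hu, bad, hR⟩ := ih
      obtain ⟨t, ht, hu'⟩ := c₂ _ _ (c₁ u s hu)
      have j₁ : A₁ s * A₁ (bar s) = 1 := by simpa only [bar_bar] using i₁ (bar s)
      have e1 : m (g (bar s) u) = A₁ (bar s) * m u * A₂ s := by
        rw [← hg, mul_assoc, i₂, mul_one]
      have e2 : A₁ s * m (g (bar s) u) = m u * A₂ s := by
        rw [e1, ← mul_assoc, ← mul_assoc, j₁, one_mul]
      have key : ∀ w, w ≠ 0 → D₂ t w → D₂ s (A₂ s *ᵥ w) ∧ 2 * ‖w‖ ≤ ‖A₂ s *ᵥ w‖ ∧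
          ¬ D₁ s (m u *ᵥ A₂ s *ᵥ w) := by
        intro w hw h
        obtain ⟨a, b⟩ := p₂ s w fun h' => hw (d₂ _ _ w ht h h')
        refine ⟨a, b, fun h' => bad ⟨_, fun h0 => ?_, a, h'⟩⟩
        rw [h0, norm_zero] at b
        linarith [norm_pos_iff.2 hw]
      refine ⟨_, t, hu', ?_, fun w h => ?_⟩
      · rintro ⟨w, hw, a, b⟩
        apply (key w hw a).2.2
        rw [mulVec_mulVec, ← e2, ← mulVec_mulVec]
        exact (p₁ s _ fun h' => hne _ _ hw (d₁ _ _ _ ht b h')).1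
      · by_cases hw : w = 0
        · simp [hw]
        obtain ⟨a1, a2, a3⟩ := key w hw h
        have a4 := (p₁ (bar s) _ (by rwa [bar_bar])).2
        have a5 := hR _ a1
        rw [e1, ← mulVec_mulVec, ← mulVec_mulVec, pow_succ]
        have a6 : (0 : ℝ) < 4 ^ k := by positivity
        nlinarith [mul_le_mul_of_nonneg_left a4 hc.le, mul_le_mul_of_nonneg_left a2 a6.le]
  choose w hw hD using ex
  obtain ⟨M, hM⟩ := (hP.image fun q => c * ‖m q.1 *ᵥ w q.2‖ / ‖w q.2‖).bddAbove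
  obtain ⟨k, hk⟩ := pow_unbounded_of_one_lt M (by norm_num : (1 : ℝ) < 4)
  obtain ⟨u, s, hu, -, hR⟩ := step k
  have h1 := hM ⟨_, hu, rfl⟩
  have h2 := (le_div_iff₀ (norm_pos_iff.2 (hw s))).2 (hR _ (hD s))
  exact absurd (h2.trans h1) (not_le.2 hk)

theorem sparse_normed {X : Type} (m : X → Matrix (Fin 2) (Fin 2) K) (hm : ∀ x, (m x).det ≠ 0)
    {e₁ e₂ : Let6 → Fin 2 → K} (he₁ : ∀ s t, s ≠ t → om (e₁ s) (e₁ t) ≠ 0)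
    (he₂ : ∀ s t, s ≠ t → om (e₂ s) (e₂ t) ≠ 0) {l₁ l₂ : K} (h₁ : 1 < ‖l₁‖) (h₂ : 1 < ‖l₂‖)
    (hθ : ∀ d : ℕ, 0 < d → (l₁ / l₂) ^ d ≠ 1) (g : ℕ → Let6 → X → X)
    (A₁ A₂ : ℕ → Let6 → Matrix (Fin 2) (Fin 2) K) (hd₁ : ∀ n s, (A₁ n s).det = 1)
    (hd₂ : ∀ n s, (A₂ n s).det = 1) (i₁ : ∀ n s, A₁ n (bar s) * A₁ n s = 1)
    (i₂ : ∀ n s, A₂ n (bar s) * A₂ n s = 1) (v₁ : ∀ n s, A₁ n s *ᵥ e₁ s = l₁ ^ n • e₁ s)
    (v₂ : ∀ n s, A₂ n s *ᵥ e₂ s = l₂ ^ n • e₂ s)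
    (hg : ∀ n s x, m (g n s x) * A₂ n s = A₁ n s * m x) : ∃ n, Sparse (g n) := by
  by_contra hcon
  push Not at hcon
  let Φ := {φ : Let6 × Let6 × Let6 × Let6 × Let6 // Adm φ.1 φ.2.1 φ.2.2.1 φ.2.2.2.1 φ.2.2.2.2}
  let κ : (Let6 → Fin 2 → K) → Φ → K := fun e φ =>
    HH (e φ.1.1) (e (bar φ.1.1)) (e φ.1.2.1) (e φ.1.2.2.1) (e φ.1.2.2.2.1) (e φ.1.2.2.2.2) 0
  have k₁ : ∀ φ, κ e₁ φ ≠ 0 := fun φ => kap_ne he₁ φ.2
  have k₂ : ∀ φ, κ e₂ φ ≠ 0 := fun φ => kap_ne he₂ φ.2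
  suffices H : ∀ δ : ℝ, 0 < δ → ∀ᶠ n : ℕ in atTop, ∃ φ,
      ‖((l₁ / l₂) ^ 2) ^ n - κ e₁ φ / κ e₂ φ‖ < δ by
    obtain ⟨d, hd, h⟩ := pow_eq_one_of_near ((l₁ / l₂) ^ 2) (fun φ => κ e₁ φ / κ e₂ φ)
      (fun φ => div_ne_zero (k₁ φ) (k₂ φ)) H
    exact hθ (2 * d) (by omega) (by rw [pow_mul, h])
  intro δ hδ
  have h1 : ∀ᶠ η in 𝓝[>] (0 : ℝ), ∀ φ, ∀ x : K × K, dist x (κ e₁ φ, κ e₂ φ) < η →
      x.2 ≠ 0 ∧ dist (x.1 / x.2) (κ e₁ φ / κ e₂ φ) < δ := by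
    refine eventually_all.2 fun φ => ev_small (Eventually.and ?_ ?_)
    · exact continuousAt_snd.eventually_ne (k₂ φ)
    · exact (continuousAt_fst.div continuousAt_snd (k₂ φ)).eventually (Metric.ball_mem_nhds _ hδ)
  obtain ⟨η, h2, hη⟩ := (h1.and self_mem_nhdsWithin).exists
  obtain ⟨D₁, d₁, -, f₁⟩ := factor he₁ h₁ (δ := η) hη
  obtain ⟨D₂, d₂, x₂, f₂⟩ := factor he₂ h₂ (δ := η) hη
  filter_upwards [f₁, f₂] with n f₁ f₂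
  obtain ⟨p₁, q₁⟩ := f₁ _ (hd₁ n) (i₁ n) (v₁ n)
  obtain ⟨p₂, q₂⟩ := f₂ _ (hd₂ n) (i₂ n) (v₂ n)
  have h3 := hcon n
  unfold Sparse at h3
  push Not at h3
  obtain ⟨P, hP, c₁, c₂, y, p, t, t', r, r', a₁, a₂, a₃, a₄, a₅, a₆, b₁, b₂, b₃, b₄, -⟩ := h3
  have he := half_edge m hm (g n) (A₁ n) (A₂ n) (hg n) (i₁ n) (i₂ n) D₁ D₂ d₁ d₂
    (fun s => ⟨e₂ s, fun h0 => he₂ s _ (ne_bar s) (by simp [h0, om]), x₂ s⟩) p₁ p₂ P hP c₁ c₂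
  obtain ⟨w₁, z₁, s₁, u₁⟩ := he _ _ b₁
  obtain ⟨w₂, z₂, s₂, u₂⟩ := he _ _ b₂
  obtain ⟨w₃, z₃, s₃, u₃⟩ := he _ _ b₃
  obtain ⟨w₄, z₄, s₄, u₄⟩ := he _ _ b₄
  have hne : ∀ x w, w ≠ 0 → m x *ᵥ w ≠ 0 := fun x w hw h => hw (eq_zero_of_mulVec_eq_zero (hm x) h)
  have j₂ : ∀ w, A₂ n p *ᵥ A₂ n (bar p) *ᵥ w = w := fun w => by
    have := i₂ n (bar p)
    rw [bar_bar] at this
    rw [mulVec_mulVec, this, one_mulVec]
  have j₁ : ∀ w, A₁ n p *ᵥ m y *ᵥ A₂ n (bar p) *ᵥ w = m (g n p y) *ᵥ w := fun w => by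
    rw [mulVec_mulVec, ← hg, ← mulVec_mulVec, j₂]
  have adm : Adm p t t' r r' := ⟨a₁, a₂, a₃, a₄, a₅, a₆⟩
  have r₁ := q₁ p t t' r r' adm (m y *ᵥ w₁) (m y *ᵥ w₂) (m y *ᵥ A₂ n (bar p) *ᵥ w₃)
    (m y *ᵥ A₂ n (bar p) *ᵥ w₄) (hne _ _ z₁) (hne _ _ z₂) (by rw [j₁]; exact hne _ _ z₃)
    (by rw [j₁]; exact hne _ _ z₄) u₁ u₂ (by rwa [j₁]) (by rwa [j₁])
  have r₂ := q₂ p t t' r r' adm w₁ w₂ (A₂ n (bar p) *ᵥ w₃) (A₂ n (bar p) *ᵥ w₄) z₁ z₂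
    (by rwa [j₂]) (by rwa [j₂]) s₁ s₂ (by rwa [j₂]) (by rwa [j₂])
  rw [CR_mulVec (hm y)] at r₁
  generalize CR w₁ w₂ (A₂ n (bar p) *ᵥ w₃) (A₂ n (bar p) *ᵥ w₄) = c at r₁ r₂
  obtain ⟨h4, h5⟩ := h2 ⟨(p, t, t', r, r'), adm⟩ ((l₁ ^ n) ^ 2 * c, (l₂ ^ n) ^ 2 * c) (by
    rw [Prod.dist_eq, max_lt_iff, dist_eq_norm, dist_eq_norm]; exact ⟨r₁, r₂⟩)
  refine ⟨⟨(p, t, t', r, r'), adm⟩, ?_⟩
  rw [dist_eq_norm, mul_div_mul_right _ _ (right_ne_zero_of_mul h4), ← div_pow, ← div_pow,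
    pow_right_comm] at h5
  exact h5

end normed

theorem sparse_abs {K : Type} [Field K] (v : AbsoluteValue K ℝ) {X : Type}
    (m : X → Matrix (Fin 2) (Fin 2) K) (hm : ∀ x, (m x).det ≠ 0)
    {e₁ e₂ : Let6 → Fin 2 → K} (he₁ : ∀ s t, s ≠ t → om (e₁ s) (e₁ t) ≠ 0)
    (he₂ : ∀ s t, s ≠ t → om (e₂ s) (e₂ t) ≠ 0) {l₁ l₂ : K} (h₁ : 1 < v l₁) (h₂ : 1 < v l₂)
    (hθ : ∀ d : ℕ, 0 < d → (l₁ / l₂) ^ d ≠ 1) (g : ℕ → Let6 → X → X)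
    (A₁ A₂ : ℕ → Let6 → Matrix (Fin 2) (Fin 2) K) (hd₁ : ∀ n s, (A₁ n s).det = 1)
    (hd₂ : ∀ n s, (A₂ n s).det = 1) (i₁ : ∀ n s, A₁ n (bar s) * A₁ n s = 1)
    (i₂ : ∀ n s, A₂ n (bar s) * A₂ n s = 1) (v₁ : ∀ n s, A₁ n s *ᵥ e₁ s = l₁ ^ n • e₁ s)
    (v₂ : ∀ n s, A₂ n s *ᵥ e₂ s = l₂ ^ n • e₂ s)
    (hg : ∀ n s x, m (g n s x) * A₂ n s = A₁ n s * m x) : ∃ n, Sparse (g n) :=
  @sparse_normed K v.toNormedField X m hm e₁ e₂ he₁ he₂ l₁ l₂ h₁ h₂ hθ g A₁ A₂ hd₁ hd₂ i₁ i₂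
    v₁ v₂ hg

end Pool.Agent.Lib.MP_0bf891_al
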