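import Pool.Agent.Lib.MP_0bf891_al.Five2
import Pool.Agent.Lib.MP_0bf891_al.Dense

open Quaternion ComplexConjugate Matrix

namespace Pool.Agent.Lib.MP_0bf891_al

section roots

open Polynomial IntermediateField

theorem finite_roots_of_unity (D : ℕ) :
    {ζ : ℂ | (∃ m : ℕ, 0 < m ∧ ζ ^ m = 1) ∧ (minpoly ℚ ζ).natDegree ≤ D}.Finite := by
  classical
  let C := Nat.ceil (max (1 : ℝ) 1 ^ D * D.choose (D / 2))
  refine (bUnion_roots_finite (algebraMap ℤ ℂ) D (Set.finite_Icc (-C : ℤ) C)).subset ?_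
  rintro ζ ⟨⟨m, hm, h1⟩, hD⟩
  simp_rw [Set.mem_iUnion]
  have hi : IsIntegral ℤ ζ := IsIntegral.of_pow hm (h1 ▸ isIntegral_one)
  have e := minpoly.isIntegrallyClosed_eq_field_fractions' ℚ hi
  have hd : (minpoly ℤ ζ).natDegree ≤ D := by
    rwa [← (minpoly.monic hi).natDegree_map (algebraMap ℤ ℚ), ← e]
  refine ⟨_, ⟨hd, fun i => ?_⟩, mem_rootSet.2 ⟨minpoly.ne_zero hi, minpoly.aeval ℤ ζ⟩⟩
  rw [Set.mem_Icc, ← abs_le, ← @Int.cast_le ℝ]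
  refine (Eq.trans_le ?_ (coeff_bdd_of_roots_le (B := 1) (algebraMap ℤ ℂ) (minpoly.monic hi)
    (IsAlgClosed.splits _) hd (fun z hz => ?_) i)).trans (Nat.le_ceil _)
  · rw [coeff_map, eq_intCast, Complex.norm_intCast, Int.cast_abs]
  · have h2 : minpoly ℤ ζ ∣ X ^ m - 1 := minpoly.isIntegrallyClosed_dvd hi (by simp [h1])
    have h3 : aeval z (minpoly ℤ ζ) = 0 := by
      rw [aeval_def, ← eval_map]; exact (mem_roots'.1 hz).2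
    have h4 := aeval_eq_zero_of_dvd_aeval_eq_zero h2 h3
    rw [map_sub, map_pow, aeval_X, map_one, sub_eq_zero] at h4
    exact (Complex.norm_eq_one_of_pow_eq_one h4 hm.ne').le

theorem natDegree_le_of_quartic (K : IntermediateField ℚ ℂ) [FiniteDimensional ℚ K] {s p ζ : ℂ}
    (hs : s ∈ K) (hp : p ∈ K) (h : ζ ^ 4 - s * ζ ^ 3 + p * ζ ^ 2 - s * ζ + 1 = 0) :
    (minpoly ℚ ζ).natDegree ≤ Module.finrank ℚ K * 4 := by
  let P : K[X] := X ^ 4 - C ⟨s, hs⟩ * X ^ 3 + C ⟨p, hp⟩ * X ^ 2 - C ⟨s, hs⟩ * X + 1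
  have hm : P.Monic := by simp only [P]; monicity!
  have hd : P.natDegree ≤ 4 := by simp only [P]; compute_degree
  have ha : aeval ζ P = 0 := by simpa [P] using h
  have hi : IsIntegral K ζ := ⟨P, hm, ha⟩
  have := adjoin.finiteDimensional hi
  have : FiniteDimensional ℚ K⟮ζ⟯ := Module.Finite.trans K _
  have h1 := minpoly.natDegree_le (A := ℚ) (AdjoinSimple.gen K ζ)
  rw [← minpoly.algebraMap_eq (algebraMap K⟮ζ⟯ ℂ).injective, AdjoinSimple.algebraMap_gen,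
    ← Module.finrank_mul_finrank ℚ K K⟮ζ⟯, adjoin.finrank hi] at h1
  exact h1.trans (Nat.mul_le_mul_left _ ((natDegree_le_natDegree (minpoly.min K ζ hm ha)).trans hd))

theorem exists_not_root {l a₁ b₁ a₂ b₂ : ℂ} (hl : l ≠ 0) (hinj : Function.Injective fun n : ℕ => l ^ n)
    (hn : Complex.normSq a₁ ≠ Complex.normSq a₂) (h0 : IsIntegral ℚ (l + l⁻¹))
    (h₁ : ∀ n : ℕ, IsIntegral ℚ (l ^ n * a₁ + (l ^ n)⁻¹ * b₁))
    (h₂ : ∀ n : ℕ, IsIntegral ℚ (l ^ n * a₂ + (l ^ n)⁻¹ * b₂)) :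
    ∃ n : ℕ, ∀ y₁ y₂ : ℂ, y₁ ≠ 0 → y₂ ≠ 0 → y₁ + y₁⁻¹ = l ^ n * a₁ + (l ^ n)⁻¹ * b₁ →
      y₂ + y₂⁻¹ = l ^ n * a₂ + (l ^ n)⁻¹ * b₂ → ∀ d : ℕ, 0 < d → (y₁ / y₂) ^ d ≠ 1 := by
  by_contra hcon
  push Not at hcon
  choose y₁ y₂ n₁ n₂ e₁ e₂ hd using hcon
  let T : ℂ → ℂ → ℕ → ℂ := fun a b n => l ^ n * a + (l ^ n)⁻¹ * b
  let S : Set ℂ := {l + l⁻¹, T a₁ b₁ 0, T a₁ b₁ 1, T a₂ b₂ 0, T a₂ b₂ 1}
  let K := adjoin ℚ S
  have : FiniteDimensional ℚ K := finiteDimensional_adjoin (by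
    rintro x (rfl | rfl | rfl | rfl | rfl)
    exacts [h0, h₁ 0, h₁ 1, h₂ 0, h₂ 1])
  have hK : ∀ a b, T a b 0 ∈ S → T a b 1 ∈ S → ∀ n, T a b n ∈ K := by
    intro a b c0 c1 n
    induction n using Nat.twoStepInduction with
    | zero => exact subset_adjoin _ _ c0
    | one => exact subset_adjoin _ _ c1
    | more n i1 i2 =>
      have e : T a b (n + 2) = (l + l⁻¹) * T a b (n + 1) - T a b n := by
        simp only [T]; field_simp; ring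
      rw [e]
      exact sub_mem (mul_mem (subset_adjoin _ _ (by simp [S])) i2) i1
  have hq : ∀ n, (y₁ n / y₂ n) ^ 4 - T a₁ b₁ n * T a₂ b₂ n * (y₁ n / y₂ n) ^ 3 +
      (T a₁ b₁ n ^ 2 + T a₂ b₂ n ^ 2 - 2) * (y₁ n / y₂ n) ^ 2 -
      T a₁ b₁ n * T a₂ b₂ n * (y₁ n / y₂ n) + 1 = 0 := by
    intro n
    have := n₁ n
    have := n₂ n
    simp only [T, ← e₁, ← e₂]
    field_simp
    ring
  have k₁ := hK a₁ b₁ (by simp [S]) (by simp [S])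
  have k₂ := hK a₂ b₂ (by simp [S]) (by simp [S])
  have hfin := (finite_roots_of_unity (Module.finrank ℚ K * 4)).to_subtype
  obtain ⟨⟨ζ, ⟨m, hm, hζ⟩, hD⟩, hinf⟩ := Finite.exists_infinite_fiber
    (fun n : ℕ => (⟨y₁ n / y₂ n, hd n, natDegree_le_of_quartic K (mul_mem (k₁ n) (k₂ n))
      (sub_mem (add_mem (pow_mem (k₁ n) 2) (pow_mem (k₂ n) 2)) (ofNat_mem K 2)) (hq n)⟩ :
      {ζ : ℂ | (∃ m : ℕ, 0 < m ∧ ζ ^ m = 1) ∧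
        (minpoly ℚ ζ).natDegree ≤ Module.finrank ℚ K * 4}))
  let Q : ℂ[X] := C (-ζ * (a₁ * ζ - a₂) * (a₂ * ζ - a₁)) * X ^ 4 +
    C (ζ ^ 4 - (a₁ * b₂ + a₂ * b₁) * (ζ ^ 3 + ζ) + (2 * a₁ * b₁ + 2 * a₂ * b₂ - 2) * ζ ^ 2 + 1) *
      X ^ 2 + C (-ζ * (b₁ * ζ - b₂) * (b₂ * ζ - b₁))
  have hQ : Q = 0 := by
    refine eq_zero_of_infinite_isRoot Q
      (((Set.infinite_coe_iff.1 hinf).image hinj.injOn).mono ?_)
    rintro _ ⟨n, h, rfl⟩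
    have e : y₁ n / y₂ n = ζ := congrArg Subtype.val h
    have h3 := hq n
    rw [e] at h3
    simp only [T] at h3
    have h4 : l ^ n ≠ 0 := pow_ne_zero n hl
    simp only [Set.mem_ofPred_eq, IsRoot.def, Q, eval_add, eval_mul, eval_C, eval_pow, eval_X]
    generalize l ^ n = x at h3 h4
    have h5 : x * x⁻¹ = 1 := mul_inv_cancel₀ h4
    generalize x⁻¹ = u at h3 h5
    linear_combination x ^ 2 * h3 + ((a₁ * b₂ + a₂ * b₁) * (ζ ^ 3 + ζ) * x ^ 2 -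
      (2 * a₁ * b₁ + 2 * a₂ * b₂) * ζ ^ 2 * x ^ 2 +
      (x * u + 1) * ζ * (b₁ * ζ - b₂) * (b₂ * ζ - b₁)) * h5
  have h6 := congrArg (fun q => coeff q 4) hQ
  simp only [Q, coeff_add, coeff_C_mul, coeff_X_pow, coeff_C, coeff_zero] at h6
  have h7 : ‖ζ‖ = 1 := Complex.norm_eq_one_of_pow_eq_one hζ hm.ne'
  have h8 : Complex.normSq ζ = 1 := by rw [Complex.normSq_eq_norm_sq, h7, one_pow]
  have h9 : ζ ≠ 0 := fun h => by simp [h] at h7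
  simp only [if_true, mul_one, show (4 : ℕ) ≠ 2 by decide, show (4 : ℕ) ≠ 0 by decide, if_false,
    mul_zero, add_zero, mul_eq_zero, neg_eq_zero, h9, false_or, sub_eq_zero] at h6
  rcases h6 with h | h
  · exact hn (by rw [← h, map_mul, h8, mul_one])
  · exact hn (by rw [← h, map_mul, h8, mul_one])

end roots

theorem continuous_pp : Continuous pp :=
  Complex.equivRealProdCLM.symm.continuous.comp (continuous_re.prodMk continuous_imI)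

theorem continuous_qq : Continuous qq :=
  Complex.equivRealProdCLM.symm.continuous.comp (continuous_imJ.prodMk continuous_imK)

/-- both complex coordinates are nonzero -/
def Gen (x : ℍ) : Prop := pp x ≠ 0 ∧ qq x ≠ 0

theorem isOpen_gen : IsOpen {x | Gen x} :=
  (isOpen_ne_fun continuous_pp continuous_const).inter (isOpen_ne_fun continuous_qq continuous_const)

theorem exists_gen {a : ℍ} (ha : normSq a = 1) : ∃ u, normSq u = 1 ∧ Gen u ∧ Gen (a * u) := by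
  by_contra hcon
  push Not at hcon
  have key : ∀ c s : ℝ, c ≠ 0 → s ≠ 0 → c ^ 2 + s ^ 2 = 1 →
      pp a * c - qq a * s = 0 ∨ pp a * s + qq a * c = 0 := by
    intro c s hc hs h
    let u : ℍ := ⟨c, 0, s, 0⟩
    have e1 : pp u = c := rfl
    have e2 : qq u = s := rfl
    have := hcon u (by rw [normSq_def']; simp [u, h])
      ⟨by rw [e1]; exact_mod_cast hc, by rw [e2]; exact_mod_cast hs⟩
    rw [Gen, pp_mul, qq_mul, e1, e2, Complex.conj_ofReal, Complex.conj_ofReal] at this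
    tauto
  have h1 := key (3 / 5) (4 / 5) (by norm_num) (by norm_num) (by norm_num)
  have h2 := key (4 / 5) (3 / 5) (by norm_num) (by norm_num) (by norm_num)
  push_cast at h1 h2
  have h3 : pp a = 0 ∧ qq a = 0 := by
    rcases h1 with h1 | h1 <;> rcases h2 with h2 | h2
    · exact ⟨by linear_combination (-15 / 7) * h1 + (20 / 7) * h2,
        by linear_combination (-20 / 7) * h1 + (15 / 7) * h2⟩
    · exact ⟨by linear_combination (5 / 6) * h1 + (5 / 6) * h2,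
        by linear_combination (-5 / 8) * h1 + (5 / 8) * h2⟩
    · exact ⟨by linear_combination (5 / 8) * h1 + (5 / 8) * h2,
        by linear_combination (5 / 6) * h1 - (5 / 6) * h2⟩
    · exact ⟨by linear_combination (20 / 7) * h1 - (15 / 7) * h2,
        by linear_combination (-15 / 7) * h1 + (20 / 7) * h2⟩
  exact pp_ne ha h3.2 h3.1

theorem Gen.inv {x : ℍ} (hu : normSq x = 1) (h : Gen x) : Gen x⁻¹ := by
  rw [inv_eq_star hu, Gen, pp_star, qq_star]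
  exact ⟨by simpa using h.1, by simpa using h.2⟩

theorem det_iot (x : ℍ) : (iot x).det = (normSq x : ℝ) := by
  rw [iot_apply, det_fin_two_of, normSq_pq, Complex.ofReal_add, ← Complex.mul_conj,
    ← Complex.mul_conj]
  ring

theorem det_iot_ne {x : ℍ} (hx : x ≠ 0) : (iot x).det ≠ 0 := by
  rw [det_iot]; simpa using hx

variable {Γ : Type} [Group Γ]

/-- density in the product of two unit spheres -/
def Full (ρ₁ ρ₂ : Γ →* ℍ) : Prop := ∀ a b, normSq a = 1 → normSq b = 1 → (a, b) ∈ Cl ρ₁ ρ₂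

theorem Full.cj {ρ₁ ρ₂ : Γ →* ℍ} (h : Full ρ₁ ρ₂) {q₁ q₂ : ℍ} (h₁ : q₁ ≠ 0) (h₂ : q₂ ≠ 0) :
    Full (cj ρ₁ q₁ h₁) (cj ρ₂ q₂ h₂) := by
  intro a b ha hb
  have h3 := map_mem_closure (f := fun s : ℍ × ℍ => (q₁⁻¹ * s.1 * q₁, q₂⁻¹ * s.2 * q₂))
    (by fun_prop) (h (q₁⁻¹⁻¹ * a * q₁⁻¹) (q₂⁻¹⁻¹ * b * q₂⁻¹)
      ((normSq_conj a (inv_ne_zero h₁)).trans ha) ((normSq_conj b (inv_ne_zero h₂)).trans hb))
    (t := Set.range fun γ => (MP_0bf891_al.cj ρ₁ q₁ h₁ γ, MP_0bf891_al.cj ρ₂ q₂ h₂ γ))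
    (by rintro _ ⟨γ, rfl⟩; exact ⟨γ, rfl⟩)
  simpa [Cl, mul_assoc, h₁, h₂] using h3

theorem Full.pick {ρ₁ ρ₂ : Γ →* ℍ} (h : Full ρ₁ ρ₂) {U : Set (ℍ × ℍ)} (hU : IsOpen U) {a b : ℍ}
    (ha : normSq a = 1) (hb : normSq b = 1) (hab : (a, b) ∈ U) : ∃ γ, (ρ₁ γ, ρ₂ γ) ∈ U := by
  obtain ⟨_, h1, γ, rfl⟩ := mem_closure_iff.1 (h a b ha hb) U hU hab
  exact ⟨γ, h1⟩

theorem exists_good {ρ₁ ρ₂ : Γ →* ℍ} (hu₁ : IsU ρ₁) (hu₂ : IsU ρ₂) (hf : Full ρ₁ ρ₂)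
    (i₁ : ∀ γ, IsIntegral ℚ ((2 * (ρ₁ γ).re : ℝ) : ℂ))
    (i₂ : ∀ γ, IsIntegral ℚ ((2 * (ρ₂ γ).re : ℝ) : ℂ)) (hv : ¬ VA ρ₁) :
    ∃ h, ∀ y₁ y₂, Ev (ρ₁ h) y₁ → Ev (ρ₂ h) y₂ → ∀ d : ℕ, 0 < d → (y₁ / y₂) ^ d ≠ 1 := by
  obtain ⟨g₀, z, hz, v, hzv⟩ : ∃ g₀ z, Ev (ρ₁ g₀) z ∧ ∃ v : AbsoluteValue ℂ ℝ, v z ≠ 1 := by
    by_contra hcon
    push Not at hcon
    exact hv (va_of_tors hu₁ ⊤ (fun _ _ => trivial) fun k _ z hz v => hcon k z hz v)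
  by_cases h0 : ∀ y₁ y₂, Ev (ρ₁ g₀) y₁ → Ev (ρ₂ g₀) y₂ → ∀ d : ℕ, 0 < d → (y₁ / y₂) ^ d ≠ 1
  · exact ⟨g₀, h0⟩
  push Not at h0
  obtain ⟨z₁, z₂, e₁, e₂, m, hm, h1⟩ := h0
  have hv1 : v z₁ ≠ 1 := by
    rcases hz.eq_or e₁ with rfl | rfl
    · exact hzv
    · rwa [map_inv₀, Ne, inv_eq_one]
  rw [div_pow, div_eq_one_iff_eq (pow_ne_zero _ e₂.1)] at h1
  obtain ⟨q₁, h₁, a₁, b₁⟩ := exists_diag (hu₁ g₀) e₁
  obtain ⟨q₂, h₂, a₂, b₂⟩ := exists_diag (hu₂ g₀) e₂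
  have u₁ := hu₁.cj q₁ h₁
  have u₂ := hu₂.cj q₂ h₂
  have c₁ : qq (cj ρ₁ q₁ h₁ (g₀ ^ m)) = 0 := by rw [map_pow]; exact (pq_pow a₁ m).1
  have c₂ : qq (cj ρ₂ q₂ h₂ (g₀ ^ m)) = 0 := by rw [map_pow]; exact (pq_pow a₂ m).1
  have d₁ : pp (cj ρ₁ q₁ h₁ (g₀ ^ m)) = z₁ ^ m := by
    rw [map_pow, ← b₁]; exact (pq_pow a₁ m).2
  have d₂ : pp (cj ρ₂ q₂ h₂ (g₀ ^ m)) = z₁ ^ m := by
    rw [map_pow, h1, ← b₂]; exact (pq_pow a₂ m).2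
  let j : ℍ := ⟨0, 0, 1, 0⟩
  obtain ⟨k, hk⟩ := (hf.cj h₁ h₂).pick
    (U := {s | Complex.normSq (pp s.1) ≠ Complex.normSq (pp s.2)})
    (isOpen_ne_fun (Complex.continuous_normSq.comp (continuous_pp.comp continuous_fst))
      (Complex.continuous_normSq.comp (continuous_pp.comp continuous_snd)))
    (a := 1) (b := j) (by simp) (by rw [normSq_def']; simp [j]) (by simp [j, pp])
  have tr : ∀ (ρ : Γ →* ℍ) (q : ℍ) (hq : q ≠ 0), IsU (cj ρ q hq) → qq (cj ρ q hq (g₀ ^ m)) = 0 →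
      pp (cj ρ q hq (g₀ ^ m)) = z₁ ^ m → ∀ n : ℕ, ((2 * (ρ ((g₀ ^ m) ^ n * k)).re : ℝ) : ℂ) =
        (z₁ ^ m) ^ n * pp (cj ρ q hq k) + ((z₁ ^ m) ^ n)⁻¹ * conj (pp (cj ρ q hq k)) := by
    intro ρ q hq u c d n
    have hc := conj_pp (u _) c
    rw [d] at hc
    rw [← re_conj _ hq, ← cj_apply ρ q hq, two_re, map_mul, map_pow, pp_mul, (pq_pow c n).1,
      (pq_pow c n).2, d, zero_mul, sub_zero, map_mul, map_pow, hc, inv_pow]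
  have hinj : Function.Injective fun n : ℕ => (z₁ ^ m) ^ n := by
    intro a b h
    have h2 := congrArg v h
    simp only [map_pow, ← pow_mul] at h2
    exact Nat.eq_of_mul_eq_mul_left hm (pow_right_injective₀ (v.pos e₁.1) hv1 h2)
  have h3 : IsIntegral ℚ (z₁ ^ m + (z₁ ^ m)⁻¹) := by
    have := i₁ (g₀ ^ m)
    rwa [← re_conj _ h₁, ← cj_apply ρ₁ q₁ h₁, two_re, conj_pp (u₁ _) c₁, d₁] at this
  obtain ⟨n, hn⟩ := exists_not_root (pow_ne_zero m e₁.1) hinj hk h3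
    (fun n => tr ρ₁ q₁ h₁ u₁ c₁ d₁ n ▸ i₁ _) (fun n => tr ρ₂ q₂ h₂ u₂ c₂ d₂ n ▸ i₂ _)
  exact ⟨(g₀ ^ m) ^ n * k, fun y₁ y₂ f₁ f₂ => hn y₁ y₂ f₁.1 f₂.1
    (f₁.2.trans (tr ρ₁ q₁ h₁ u₁ c₁ d₁ n)) (f₂.2.trans (tr ρ₂ q₂ h₂ u₂ c₂ d₂ n))⟩

theorem exists_lox {ρ₁ ρ₂ : Γ →* ℍ} (hu₁ : IsU ρ₁) (hu₂ : IsU ρ₂) (hb : Bal ρ₁ ρ₂) {h : Γ}
    (hh : ∀ y₁ y₂, Ev (ρ₁ h) y₁ → Ev (ρ₂ h) y₂ → ∀ d : ℕ, 0 < d → (y₁ / y₂) ^ d ≠ 1) :
    ∃ (v : AbsoluteValue ℂ ℝ) (y₁ y₂ : ℂ), Ev (ρ₁ h) y₁ ∧ Ev (ρ₂ h) y₂ ∧ 1 < v y₁ ∧ 1 < v y₂ := by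
  obtain ⟨z₁, e₁⟩ := exists_ev (hu₁ h)
  obtain ⟨z₂, e₂⟩ := exists_ev (hu₂ h)
  obtain ⟨v, hv⟩ : ∃ v : AbsoluteValue ℂ ℝ, v (z₁ / z₂) ≠ 1 := by
    by_contra hcon
    push Not at hcon
    obtain ⟨n, hn, h1⟩ := pow_eq_one_of_abs hcon
    exact hh _ _ e₁ e₂ n hn h1
  obtain ⟨y₁, y₂, f₁, f₂, hy⟩ := hb h v
  have h1 : v y₁ ≠ 1 := by
    intro h1
    have a₁ : v z₁ = 1 := by
      rcases f₁.eq_or e₁ with rfl | rfl
      · exact h1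
      · rw [map_inv₀, h1, inv_one]
    have a₂ : v z₂ = 1 := by
      rcases f₂.eq_or e₂ with rfl | rfl
      · exact hy ▸ h1
      · rw [map_inv₀, ← hy, h1, inv_one]
    exact hv (by rw [map_div₀, a₁, a₂, div_one])
  rcases lt_or_gt_of_ne h1 with h2 | h2
  · have h3 : 1 < v y₁⁻¹ := by rw [map_inv₀]; exact (one_lt_inv₀ (v.pos f₁.1)).2 h2
    exact ⟨v, _, _, f₁.inv, f₂.inv, h3, by rwa [map_inv₀, ← hy, ← map_inv₀]⟩
  · exact ⟨v, _, _, f₁, f₂, h2, hy ▸ h2⟩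

/-- basis vectors -/
def bv (b : Bool) : Fin 2 → ℂ := cond b ![1, 0] ![0, 1]

theorem frame {ρ : Γ →* ℍ} (hu : IsU ρ) {h : Γ} {q : ℍ} (hq : q ≠ 0) {y : ℂ}
    (a : qq (cj ρ q hq h) = 0) (b : pp (cj ρ q hq h) = y) (p : Fin 3 → Γ)
    (hp : ∀ i j, i ≠ j → Gen (cj ρ q hq ((p i)⁻¹ * p j))) :
    ∃ e : Let6 → Fin 2 → ℂ, (∀ s t, s ≠ t → om (e s) (e t) ≠ 0) ∧ ∀ (n : ℕ) (s : Let6),
      iot (ρ (cond s.2 (p s.1 * h ^ n * (p s.1)⁻¹) (p s.1 * h ^ n * (p s.1)⁻¹)⁻¹)) *ᵥ e s =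
        y ^ n • e s := by
  have u := hu.cj q hq
  have hy : y ≠ 0 := b ▸ pp_ne (u h) a
  have hc : ∀ γ δ, ρ (γ * δ) * q = ρ γ * q * cj ρ q hq δ := fun γ δ => by
    rw [cj_apply, map_mul]; simp only [mul_assoc, mul_inv_cancel_left₀ hq]
  refine ⟨fun s => iot (ρ (p s.1) * q) *ᵥ bv s.2, ?_, ?_⟩
  · rintro ⟨i, c⟩ ⟨j, d⟩ hst
    have e : ρ (p j) * q = ρ (p i) * q * cj ρ q hq ((p i)⁻¹ * p j) := by
      rw [← hc, mul_inv_cancel_left]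
    dsimp only
    rw [e, map_mul iot (ρ (p i) * q), ← mulVec_mulVec, om_mulVec]
    refine mul_ne_zero (det_iot_ne (mul_ne_zero (ne_zero_of_unit (hu _)) hq)) ?_
    by_cases hij : i = j
    · subst hij
      rw [inv_mul_cancel, map_one, map_one, one_mulVec]
      cases c <;> cases d <;> simp [om, bv] at hst ⊢
    · obtain ⟨h1, h2⟩ := hp i j hij
      generalize cj ρ q hq ((p i)⁻¹ * p j) = x at h1 h2
      rw [iot_apply]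
      cases c <;> cases d <;> simp [om, bv, h1, h2]
  · rintro n ⟨i, c⟩
    have hd : (iot.comp (cj ρ q hq)) (h ^ n) = Matrix.diagonal ![y ^ n, (y ^ n)⁻¹] := by
      rw [map_pow, MonoidHom.comp_apply, iot_diag (u h) a, b, diag_pow]
    have hd' := map_inv_diag _ (pow_ne_zero n hy) hd
    rw [MonoidHom.comp_apply] at hd hd'
    dsimp only
    rw [mulVec_mulVec, ← map_mul, ← mul_assoc, ← map_mul]
    cases c
    · rw [cond_false, show (p i * h ^ n * (p i)⁻¹)⁻¹ * p i = p i * (h ^ n)⁻¹ by group, hc,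
        map_mul iot, ← mulVec_mulVec, hd', ← mulVec_smul]
      congr 1
      ext j; fin_cases j <;> simp [bv, mulVec_diagonal]
    · rw [cond_true, inv_mul_cancel_right, hc, map_mul iot, ← mulVec_mulVec, hd, ← mulVec_smul]
      congr 1
      ext j; fin_cases j <;> simp [bv, mulVec_diagonal]

theorem five_of_bal {ρ₁ ρ₂ : Γ →* ℍ} (hu₁ : IsU ρ₁) (hu₂ : IsU ρ₂) (hf : Full ρ₁ ρ₂)
    (i₁ : ∀ γ, IsIntegral ℚ ((2 * (ρ₁ γ).re : ℝ) : ℂ))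
    (i₂ : ∀ γ, IsIntegral ℚ ((2 * (ρ₂ γ).re : ℝ) : ℂ)) (hv : ¬ VA ρ₁) (hb : Bal ρ₁ ρ₂)
    {X : Type} (σ : Γ →* Equiv.Perm X) (m : X → ℍ) (hm : ∀ x, m x ≠ 0)
    (hσ : ∀ γ x, m (σ γ x) * ρ₂ γ = ρ₁ γ * m x) : ∃ a : Fin 3 → Γ, Five fun i => σ (a i) := by
  obtain ⟨h, hh⟩ := exists_good hu₁ hu₂ hf i₁ i₂ hv
  obtain ⟨v, y₁, y₂, e₁, e₂, l₁, l₂⟩ := exists_lox hu₁ hu₂ hb hh
  obtain ⟨q₁, h₁, a₁, b₁⟩ := exists_diag (hu₁ h) e₁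
  obtain ⟨q₂, h₂, a₂, b₂⟩ := exists_diag (hu₂ h) e₂
  have u₁ := hu₁.cj q₁ h₁
  have u₂ := hu₂.cj q₂ h₂
  have hf' := hf.cj h₁ h₂
  obtain ⟨w, w1, w2, -⟩ := exists_gen (a := 1) (by simp)
  obtain ⟨k, k₁, k₂⟩ := hf'.pick (isOpen_gen.prod isOpen_gen) w1 w1 ⟨w2, w2⟩
  obtain ⟨x₁, x1, x2, x3⟩ := exists_gen (u₁ k)
  obtain ⟨x₂, x4, x5, x6⟩ := exists_gen (u₂ k)
  obtain ⟨r, ⟨r₁, r₂⟩, r₃, r₄⟩ := hf'.pick
    ((isOpen_gen.inter (isOpen_gen.preimage (continuous_const_mul (cj ρ₁ q₁ h₁ k)))).prod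
      (isOpen_gen.inter (isOpen_gen.preimage (continuous_const_mul (cj ρ₂ q₂ h₂ k)))))
    x1 x4 ⟨⟨x2, x3⟩, x5, x6⟩
  let p : Fin 3 → Γ := ![1, k, k * r]
  have hp : ∀ ρ : Γ →* ℍ, IsU ρ → Gen (ρ k) → Gen (ρ r) → Gen (ρ k * ρ r) →
      ∀ i j, i ≠ j → Gen (ρ ((p i)⁻¹ * p j)) := by
    intro ρ u g1 g2 g3 i j hij
    rw [← map_mul] at g3
    have hi : ∀ γ, Gen (ρ γ) → Gen (ρ γ⁻¹) := fun γ g => by
      rw [u.map_inv, ← inv_eq_star (u γ)]; exact g.inv (u γ)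
    have g4 : Gen (ρ ((p 0)⁻¹ * p 1)) := by rwa [show (p 0)⁻¹ * p 1 = k by simp [p]]
    have g5 : Gen (ρ ((p 0)⁻¹ * p 2)) := by rwa [show (p 0)⁻¹ * p 2 = k * r by simp [p]]
    have g6 : Gen (ρ ((p 1)⁻¹ * p 2)) := by rwa [show (p 1)⁻¹ * p 2 = r by simp [p]]
    have g7 : ∀ i j, Gen (ρ ((p i)⁻¹ * p j)) → Gen (ρ ((p j)⁻¹ * p i)) := fun i j g => by
      have := hi _ g
      rwa [_root_.mul_inv_rev, inv_inv] at this
    fin_cases i <;> fin_cases j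
    exacts [absurd rfl hij, g4, g5, g7 _ _ g4, absurd rfl hij, g6, g7 _ _ g5, g7 _ _ g6,
      absurd rfl hij]
  obtain ⟨E₁, o₁, t₁⟩ := frame hu₁ h₁ a₁ b₁ p (hp _ u₁ k₁ r₁ r₂)
  obtain ⟨E₂, o₂, t₂⟩ := frame hu₂ h₂ a₂ b₂ p (hp _ u₂ k₂ r₃ r₄)
  let γ : ℕ → Let6 → Γ := fun n s =>
    cond s.2 (p s.1 * h ^ n * (p s.1)⁻¹) (p s.1 * h ^ n * (p s.1)⁻¹)⁻¹
  have hγ : ∀ n s, γ n (bar s) * γ n s = 1 := by
    rintro n ⟨i, c⟩
    cases c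
    · exact mul_inv_cancel _
    · exact inv_mul_cancel _
  obtain ⟨n, hn⟩ := sparse_abs v (fun x => iot (m x)) (fun x => det_iot_ne (hm x)) o₁ o₂ l₁ l₂
    (hh _ _ e₁ e₂) (fun n s => σ (γ n s)) (fun n s => iot (ρ₁ (γ n s)))
    (fun n s => iot (ρ₂ (γ n s))) (fun n s => by rw [det_iot, hu₁]; rfl)
    (fun n s => by rw [det_iot, hu₂]; rfl)
    (fun n s => by rw [← map_mul, ← map_mul, hγ, map_one, map_one])
    (fun n s => by rw [← map_mul, ← map_mul, hγ, map_one, map_one]) t₁ t₂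
    (fun n s x => by rw [← map_mul, ← map_mul, hσ])
  refine ⟨fun i => p i * h ^ n * (p i)⁻¹, five_of_sparse _ ?_⟩
  have e : (fun s => (lett (fun i => σ (p i * h ^ n * (p i)⁻¹)) s : X → X)) =
      fun s => (σ (γ n s) : X → X) := by
    ext ⟨i, c⟩ : 1
    cases c
    · simp only [lett, γ, cond_false, map_inv]
    · rfl
  rw [e]
  exact hn

end Pool.Agent.Lib.MP_0bf891_al
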