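import Mathlib

open Filter Topology

namespace Pool.Agent.Lib.MP_0bf891_al

variable {Q : Type*} [Group Q]

/-- finitely additive probability measures on all subsets -/
def Means (Q : Type*) : Set (Set Q → ℝ) :=
  {μ | (∀ A, 0 ≤ μ A) ∧ μ Set.univ = 1 ∧ ∀ A B, Disjoint A B → μ (A ∪ B) = μ A + μ B}

omit [Group Q] in
theorem mean_le_one {μ : Set Q → ℝ} (h : μ ∈ Means Q) (A : Set Q) : μ A ≤ 1 := by
  have h1 := h.2.2 A Aᶜ disjoint_compl_right
  rw [Set.union_compl_self, h.2.1] at h1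
  linarith [h.1 Aᶜ]

omit [Group Q] in
theorem isClosed_means : IsClosed (Means Q) := by
  have e : Means Q = (⋂ A, {μ : Set Q → ℝ | 0 ≤ μ A}) ∩ ({μ : Set Q → ℝ | μ Set.univ = 1} ∩
      ⋂ A, ⋂ B, ⋂ (_ : Disjoint A B), {μ : Set Q → ℝ | μ (A ∪ B) = μ A + μ B}) := by
    ext μ; simp [Means]
  rw [e]
  refine (isClosed_iInter fun A => isClosed_le continuous_const (continuous_apply A)).inter
    ((isClosed_eq (continuous_apply _) continuous_const).inter ?_)
  exact isClosed_iInter fun A => isClosed_iInter fun B => isClosed_iInter fun _ =>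
    isClosed_eq (continuous_apply _) ((continuous_apply A).add (continuous_apply B))

omit [Group Q] in
theorem isCompact_means : IsCompact (Means Q) := by
  refine (isCompact_univ_pi fun _ : Set Q => isCompact_Icc (a := (0 : ℝ)) (b := 1)).of_isClosed_subset
    isClosed_means ?_
  intro μ h A _
  exact ⟨h.1 A, mean_le_one h A⟩

/-- left translate of a set -/
def tr (q : Q) (A : Set Q) : Set Q := (fun y => q * y) '' A

theorem tr_tr (a b : Q) (A : Set Q) : tr a (tr b A) = tr (a * b) A := by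
  simp only [tr, Set.image_image, mul_assoc]

theorem tr_one (A : Set Q) : tr 1 A = A := by simp [tr]

theorem tr_univ (a : Q) : tr a Set.univ = Set.univ :=
  Set.image_univ_of_surjective (mul_left_surjective a)

theorem tr_union (a : Q) (A B : Set Q) : tr a (A ∪ B) = tr a A ∪ tr a B := Set.image_union _ _ _

theorem tr_disj (a : Q) {A B : Set Q} (h : Disjoint A B) : Disjoint (tr a A) (tr a B) :=
  (Set.disjoint_image_iff (mul_right_injective a)).2 h

theorem avg_mem {ι : Type*} (s : Finset ι) (hs : s.Nonempty) (f : ι → Q) {μ : Set Q → ℝ}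
    (h : μ ∈ Means Q) : (fun A => (∑ i ∈ s, μ (tr (f i) A)) / s.card) ∈ Means Q := by
  have hc : (0 : ℝ) < s.card := by exact_mod_cast hs.card_pos
  refine ⟨fun A => div_nonneg (Finset.sum_nonneg fun i _ => h.1 _) hc.le, ?_, fun A B hAB => ?_⟩
  · simp only [tr_univ, h.2.1, Finset.sum_const, nsmul_eq_mul, mul_one]
    exact div_self hc.ne'
  · simp only [tr_union, h.2.2 _ _ (tr_disj _ hAB), Finset.sum_add_distrib, add_div]

theorem isClosed_fix (q : Q) : IsClosed {μ : Set Q → ℝ | ∀ A, μ (tr q A) = μ A} := by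
  rw [Set.setOf_forall]
  exact isClosed_iInter fun A => isClosed_eq (continuous_apply _) (continuous_apply _)

theorem exists_fix_finset (N : Subgroup Q) (hN : ∀ a ∈ N, ∀ b ∈ N, a * b = b * a)
    (u : Finset N) :
    (Means Q ∩ ⋂ q ∈ u, {μ : Set Q → ℝ | ∀ A, μ (tr (q : Q) A) = μ A}).Nonempty := by
  classical
  induction u using Finset.induction_on with
  | empty =>
    refine ⟨fun A => if (1 : Q) ∈ A then 1 else 0, ⟨fun A => ?_, by simp, fun A B h => ?_⟩, by simp⟩
    · dsimp only; split_ifs <;> norm_num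
    · by_cases h1 : (1 : Q) ∈ A
      · have h2 : (1 : Q) ∉ B := Set.disjoint_left.1 h h1
        simp [h1, h2]
      · simp [h1]
  | insert a u _ ih =>
    obtain ⟨μ, hμ, hfix⟩ := ih
    simp only [Set.mem_iInter, Set.mem_setOf_eq] at hfix
    have hK : IsCompact (Means Q ∩ ⋂ q ∈ u, {μ : Set Q → ℝ | ∀ A, μ (tr (q : Q) A) = μ A}) :=
      isCompact_means.inter_right (isClosed_biInter fun q _ => isClosed_fix _)
    let m : ℕ → Set Q → ℝ := fun n A =>
      (∑ i ∈ Finset.range (n + 1), μ (tr ((a : Q) ^ i) A)) / (Finset.range (n + 1)).card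
    have hm : ∀ n, m n ∈ Means Q ∩ ⋂ q ∈ u, {μ : Set Q → ℝ | ∀ A, μ (tr (q : Q) A) = μ A} := by
      intro n
      refine ⟨avg_mem _ (by simp) _ hμ, ?_⟩
      simp only [Set.mem_iInter, Set.mem_setOf_eq]
      intro q hq A
      simp only [m]
      congr 1
      refine Finset.sum_congr rfl fun i _ => ?_
      rw [tr_tr, hN _ (pow_mem a.2 i) _ q.2, ← tr_tr, hfix q hq]
    obtain ⟨ν, hν, hlim⟩ := hK.ultrafilter_le_nhds (Ultrafilter.map m (hyperfilter ℕ))
      (by
        rw [Ultrafilter.coe_map, le_principal_iff, mem_map]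
        exact Eventually.of_forall hm)
    have hlim' : Tendsto m (hyperfilter ℕ) (𝓝 ν) := hlim
    refine ⟨ν, hν.1, ?_⟩
    have h2 := hν.2
    simp only [Set.mem_iInter, Set.mem_setOf_eq, Finset.mem_insert] at h2 ⊢
    rintro q (rfl | hq) A
    · have l1 : Tendsto (fun n => m n (tr (q : Q) A) - m n A) (hyperfilter ℕ)
          (𝓝 (ν (tr (q : Q) A) - ν A)) :=
        (((continuous_apply _).tendsto ν).comp hlim').sub
          (((continuous_apply _).tendsto ν).comp hlim')
      have l2 : Tendsto (fun n => m n (tr (q : Q) A) - m n A) atTop (𝓝 0) := by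
        have e : ∀ n, m n (tr (q : Q) A) - m n A =
            (μ (tr ((q : Q) ^ (n + 1)) A) - μ A) * (1 / ((n : ℝ) + 1)) := by
          intro n
          simp only [m, tr_tr, ← pow_succ, Finset.card_range]
          rw [← sub_div, ← Finset.sum_sub_distrib,
            Finset.sum_range_sub (fun i => μ (tr ((q : Q) ^ i) A)), pow_zero, tr_one]
          push_cast
          ring
        simp only [e]
        refine squeeze_zero_norm (fun n => ?_) tendsto_one_div_add_atTop_nhds_zero_nat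
        rw [norm_mul, Real.norm_eq_abs, Real.norm_eq_abs,
          abs_of_nonneg (a := 1 / ((n : ℝ) + 1)) (by positivity)]
        refine mul_le_of_le_one_left (by positivity) (abs_le.2 ⟨?_, ?_⟩)
        · linarith [hμ.1 (tr ((q : Q) ^ (n + 1)) A), mean_le_one hμ A]
        · linarith [mean_le_one hμ (tr ((q : Q) ^ (n + 1)) A), hμ.1 A]
      have l3 := l2.mono_left (hyperfilter_le_cofinite.trans Nat.cofinite_eq_atTop.le)
      linarith [tendsto_nhds_unique l1 l3]
    · exact h2 q hq A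

theorem exists_inv_mean (N : Subgroup Q) [N.FiniteIndex]
    (hN : ∀ a ∈ N, ∀ b ∈ N, a * b = b * a) :
    ∃ μ : Set Q → ℝ, (∀ A, 0 ≤ μ A) ∧ μ Set.univ = 1 ∧
      (∀ A B, Disjoint A B → μ (A ∪ B) = μ A + μ B) ∧
      (∀ q : Q, ∀ A, μ ((fun y => q * y) '' A) = μ A) := by
  classical
  obtain ⟨μ, hμ, hfix⟩ := isCompact_means.inter_iInter_nonempty
    (fun q : N => {μ : Set Q → ℝ | ∀ A, μ (tr (q : Q) A) = μ A}) (fun q => isClosed_fix _)
    (exists_fix_finset N hN)
  simp only [Set.mem_iInter, Set.mem_setOf_eq] at hfix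
  have : Fintype (Q ⧸ N) := Fintype.ofFinite _
  have h := avg_mem (Finset.univ : Finset (Q ⧸ N)) Finset.univ_nonempty (fun c => c.out⁻¹) hμ
  refine ⟨_, h.1, h.2.1, h.2.2, fun q A => ?_⟩
  change (∑ c : Q ⧸ N, μ (tr c.out⁻¹ (tr q A))) / _ = (∑ c : Q ⧸ N, μ (tr c.out⁻¹ A)) / _
  congr 1
  refine Fintype.sum_equiv (MulAction.toPerm (q⁻¹ : Q)) _ _ fun c => ?_
  have h1 : ((q⁻¹ * c.out : Q) : Q ⧸ N) = q⁻¹ • c := by
    rw [← smul_eq_mul, ← MulAction.Quotient.smul_coe, QuotientGroup.out_eq']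
  obtain ⟨n, hn⟩ := QuotientGroup.mk_out_eq_mul N (q⁻¹ * c.out)
  have h2 := hfix n⁻¹ (tr (q⁻¹ * c.out)⁻¹ A)
  rw [Subgroup.coe_inv, tr_tr] at h2
  rw [MulAction.toPerm_apply, ← h1, hn, tr_tr, mul_inv_rev, h2]
  simp

end Pool.Agent.Lib.MP_0bf891_al
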