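import Pool.Agent.Lib.MP_0bf891_al.Dense
import Pool.Agent.Lib.MP_0bf891_al.Mean

open Quaternion ComplexConjugate Matrix

namespace Pool.Agent.Lib.MP_0bf891_al

/-- coordinates of a quaternion -/
def vec (x : ℍ) : Fin 4 → ℝ := ![x.re, x.imI, x.imJ, x.imK]

/-- quaternion with given coordinates -/
def unvec (y : Fin 4 → ℝ) : ℍ := ⟨y 0, y 1, y 2, y 3⟩

theorem vec_unvec (y : Fin 4 → ℝ) : vec (unvec y) = y := by
  ext i; fin_cases i <;> rfl

theorem unvec_vec (x : ℍ) : unvec (vec x) = x := rfl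

theorem vec_dot (x : ℍ) : vec x ⬝ᵥ vec x = normSq x := by
  simp [vec, dotProduct, Fin.sum_univ_four, normSq_def']; ring

/-- action of a matrix on quaternions -/
def act (A : Matrix (Fin 4) (Fin 4) ℝ) (x : ℍ) : ℍ := unvec (A *ᵥ vec x)

theorem act_mul (A B : Matrix (Fin 4) (Fin 4) ℝ) (x : ℍ) : act (A * B) x = act A (act B x) := by
  simp only [act, vec_unvec, mulVec_mulVec]

theorem act_one (x : ℍ) : act 1 x = x := by
  simp only [act, one_mulVec, unvec_vec]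

theorem act_ext {A B : Matrix (Fin 4) (Fin 4) ℝ} (h : ∀ x, act A x = act B x) : A = B := by
  apply Matrix.toLin'.injective
  apply LinearMap.ext
  intro y
  have := congrArg vec (h (unvec y))
  simpa only [act, vec_unvec, toLin'_apply] using this

/-- the matrix of `x ↦ a x b` -/
def mq (a b : ℍ) : Matrix (Fin 4) (Fin 4) ℝ :=
  !![a.re * b.re - a.imI * b.imI - a.imJ * b.imJ - a.imK * b.imK,
      - a.imI * b.re - a.re * b.imI - a.imK * b.imJ + a.imJ * b.imK,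
      - a.imJ * b.re + a.imK * b.imI - a.re * b.imJ - a.imI * b.imK,
      - a.imK * b.re - a.imJ * b.imI + a.imI * b.imJ - a.re * b.imK;
    a.re * b.imI + a.imI * b.re + a.imJ * b.imK - a.imK * b.imJ,
      - a.imI * b.imI + a.re * b.re + a.imK * b.imK + a.imJ * b.imJ,
      - a.imJ * b.imI - a.imK * b.re + a.re * b.imK - a.imI * b.imJ,
      - a.imK * b.imI + a.imJ * b.re - a.imI * b.imK - a.re * b.imJ;
    a.re * b.imJ - a.imI * b.imK + a.imJ * b.re + a.imK * b.imI,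
      - a.imI * b.imJ - a.re * b.imK + a.imK * b.re - a.imJ * b.imI,
      - a.imJ * b.imJ + a.imK * b.imK + a.re * b.re + a.imI * b.imI,
      - a.imK * b.imJ - a.imJ * b.imK - a.imI * b.re + a.re * b.imI;
    a.re * b.imK + a.imI * b.imJ - a.imJ * b.imI + a.imK * b.re,
      - a.imI * b.imK + a.re * b.imJ - a.imK * b.imI - a.imJ * b.re,
      - a.imJ * b.imK - a.imK * b.imJ - a.re * b.imI + a.imI * b.re,
      - a.imK * b.imK + a.imJ * b.imJ + a.imI * b.imI + a.re * b.re]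

theorem act_mq (a b x : ℍ) : act (mq a b) x = a * x * b := by
  ext <;> simp [act, unvec, vec, mq, mulVec, dotProduct, Fin.sum_univ_four] <;> ring

theorem continuous_mq : Continuous fun s : ℍ × ℍ => mq s.1 (star s.2) := by
  have h1 : Continuous fun q : ℍ => q.re := continuous_re
  have h2 : Continuous fun q : ℍ => q.imI := continuous_imI
  have h3 : Continuous fun q : ℍ => q.imJ := continuous_imJ
  have h4 : Continuous fun q : ℍ => q.imK := continuous_imK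
  refine continuous_pi fun i => continuous_pi fun j => ?_
  fin_cases i <;> fin_cases j <;> simp [mq] <;> fun_prop

theorem det4 {R : Type*} [CommRing R] (A : Matrix (Fin 4) (Fin 4) R) : A.det =
    A 0 0 * (A 1 1 * (A 2 2 * A 3 3 - A 2 3 * A 3 2) - A 1 2 * (A 2 1 * A 3 3 - A 2 3 * A 3 1) +
      A 1 3 * (A 2 1 * A 3 2 - A 2 2 * A 3 1)) -
    A 0 1 * (A 1 0 * (A 2 2 * A 3 3 - A 2 3 * A 3 2) - A 1 2 * (A 2 0 * A 3 3 - A 2 3 * A 3 0) +
      A 1 3 * (A 2 0 * A 3 2 - A 2 2 * A 3 0)) +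
    A 0 2 * (A 1 0 * (A 2 1 * A 3 3 - A 2 3 * A 3 1) - A 1 1 * (A 2 0 * A 3 3 - A 2 3 * A 3 0) +
      A 1 3 * (A 2 0 * A 3 1 - A 2 1 * A 3 0)) -
    A 0 3 * (A 1 0 * (A 2 1 * A 3 2 - A 2 2 * A 3 1) - A 1 1 * (A 2 0 * A 3 2 - A 2 2 * A 3 0) +
      A 1 2 * (A 2 0 * A 3 1 - A 2 1 * A 3 0)) := by
  simp [Matrix.det_succ_row_zero, Fin.sum_univ_succ, Fin.succAbove]
  ring

theorem aeval_charpoly_mq {a b : ℍ} (ha : normSq a = 1) (hb : normSq b = 1) (z : ℂ) :
    Polynomial.aeval z (mq a b).charpoly = z ^ 4 - 4 * a.re * b.re * z ^ 3 +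
      (4 * a.re ^ 2 + 4 * b.re ^ 2 - 2) * z ^ 2 - 4 * a.re * b.re * z + 1 := by
  rw [normSq_def'] at ha hb
  have ha' : (a.re : ℂ) ^ 2 + a.imI ^ 2 + a.imJ ^ 2 + a.imK ^ 2 = 1 := by exact_mod_cast ha
  have hb' : (b.re : ℂ) ^ 2 + b.imI ^ 2 + b.imJ ^ 2 + b.imK ^ 2 = 1 := by exact_mod_cast hb
  have e : Polynomial.aeval z (mq a b).charpoly = z ^ 4 - 4 * a.re * b.re * z ^ 3 +
      (4 * a.re ^ 2 * (b.re ^ 2 + b.imI ^ 2 + b.imJ ^ 2 + b.imK ^ 2) +
        4 * b.re ^ 2 * (a.re ^ 2 + a.imI ^ 2 + a.imJ ^ 2 + a.imK ^ 2) -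
        2 * (a.re ^ 2 + a.imI ^ 2 + a.imJ ^ 2 + a.imK ^ 2) *
          (b.re ^ 2 + b.imI ^ 2 + b.imJ ^ 2 + b.imK ^ 2)) * z ^ 2 -
      4 * a.re * b.re * (a.re ^ 2 + a.imI ^ 2 + a.imJ ^ 2 + a.imK ^ 2) *
          (b.re ^ 2 + b.imI ^ 2 + b.imJ ^ 2 + b.imK ^ 2) * z +
      (a.re ^ 2 + a.imI ^ 2 + a.imJ ^ 2 + a.imK ^ 2) ^ 2 *
          (b.re ^ 2 + b.imI ^ 2 + b.imJ ^ 2 + b.imK ^ 2) ^ 2 := by
    rw [Polynomial.aeval_def, ← Polynomial.eval_map, ← charpoly_map, eval_charpoly, det4]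
    simp [mq]
    ring
  rw [e, ha', hb']
  ring

theorem det_mq {a b : ℍ} (ha : normSq a = 1) (hb : normSq b = 1) : (mq a b).det = 1 := by
  have h := aeval_charpoly_mq ha hb 0
  rw [Polynomial.aeval_def, ← Polynomial.eval_map, ← charpoly_map, eval_charpoly] at h
  simp only [map_zero, zero_sub, det_neg, Fintype.card_fin] at h
  have h2 := (algebraMap ℝ ℂ).map_det (mq a b)
  rw [RingHom.mapMatrix_apply] at h2
  rw [← h2] at h
  norm_num at h
  exact_mod_cast h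

theorem charpoly_factor {a b : ℍ} (ha : normSq a = 1) (hb : normSq b = 1) {z₁ z₂ : ℂ}
    (e₁ : Ev a z₁) (e₂ : Ev b z₂) (z : ℂ) :
    Polynomial.aeval z (mq a b).charpoly =
      (z - z₁ * z₂) * (z - z₁ * z₂⁻¹) * (z - z₁⁻¹ * z₂) * (z - z₁⁻¹ * z₂⁻¹) := by
  rw [aeval_charpoly_mq ha hb]
  have h1 : (a.re : ℂ) = (z₁ + z₁⁻¹) / 2 := by rw [e₁.2]; push_cast; ring
  have h2 : (b.re : ℂ) = (z₂ + z₂⁻¹) / 2 := by rw [e₂.2]; push_cast; ring
  have n₁ := e₁.1
  have n₂ := e₂.1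
  rw [h1, h2]
  field_simp
  ring

theorem reflection_form (u : ℍ) : (∀ x, ((ℝ ∙ u)ᗮ).reflection x = x) ∨
    ∃ c : ℍ, normSq c = 1 ∧ ∀ x, ((ℝ ∙ u)ᗮ).reflection x = - c * star x * c := by
  by_cases hu : u = 0
  · left
    intro x
    rw [Submodule.reflection_orthogonal_apply, Submodule.reflection_singleton_apply, hu]
    simp
  · right
    have h0 : ‖u‖ ≠ 0 := by simpa using hu
    refine ⟨‖u‖⁻¹ • u, ?_, fun x => ?_⟩
    · rw [normSq_eq_norm_mul_self, norm_smul, norm_inv, norm_norm]; field_simp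
    · rw [Submodule.reflection_orthogonal_apply, Submodule.reflection_singleton_apply]
      have h1 : ‖u‖ ^ 2 = u.re ^ 2 + u.imI ^ 2 + u.imJ ^ 2 + u.imK ^ 2 := by
        rw [← normSq_def', normSq_eq_norm_mul_self, sq]
      have h2 : u * star x * u = (2 * inner ℝ u x : ℝ) • u - (‖u‖ ^ 2) • x := by
        rw [h1, inner_def]
        ext <;> simp <;> ring
      have h3 : - (‖u‖⁻¹ • u) * star x * (‖u‖⁻¹ • u) = - ((‖u‖⁻¹ * ‖u‖⁻¹) • (u * star x * u)) := by
        simp only [neg_mul, smul_mul_assoc, mul_smul_comm, smul_smul, smul_neg]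
      rw [h3, h2, smul_sub, smul_smul, smul_smul, two_smul, ← add_smul,
        show ‖u‖⁻¹ * ‖u‖⁻¹ * ‖u‖ ^ 2 = 1 by field_simp, one_smul]
      congr 3
      simp only [RCLike.ofReal_real_eq_id, id]
      field_simp
      ring

theorem isometry_form (φ : ℍ ≃ₗᵢ[ℝ] ℍ) : ∃ a b : ℍ, normSq a = 1 ∧ normSq b = 1 ∧
    ((∀ x, φ x = a * x * b) ∨ ∀ x, φ x = a * star x * b) := by
  obtain ⟨l, -, rfl⟩ := φ.reflections_generate_dim
  induction l with
  | nil => exact ⟨1, 1, by simp, by simp, Or.inl fun x => by simp⟩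
  | cons u l ih =>
    obtain ⟨a, b, ha, hb, h⟩ := ih
    simp only [List.map_cons, List.prod_cons, LinearIsometryEquiv.coe_mul, Function.comp_apply]
    rcases reflection_form u with h1 | ⟨c, hc, h1⟩
    · exact ⟨a, b, ha, hb, by simpa only [h1] using h⟩
    · refine ⟨- c * star b, star a * c, by simp [hc, hb], by simp [hc, ha], ?_⟩
      rcases h with h | h
      · right; intro x; rw [h1, h]; simp [mul_assoc]
      · left; intro x; rw [h1, h]; simp [mul_assoc]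

theorem so4_form (g : specialOrthogonalGroup (Fin 4) ℝ) : ∃ a b : ℍ, normSq a = 1 ∧
    normSq b = 1 ∧ (g : Matrix (Fin 4) (Fin 4) ℝ) = mq a b := by
  obtain ⟨h1, h2⟩ := mem_specialOrthogonalGroup_iff.1 g.2
  rw [mem_orthogonalGroup_iff'] at h1
  let f : ℍ →ₗᵢ[ℝ] ℍ :=
    { toFun := act g
      map_add' := fun x y => by
        ext <;> simp [act, unvec, vec, mulVec, dotProduct, Fin.sum_univ_four] <;> ring
      map_smul' := fun c x => by
        ext <;> simp [act, unvec, vec, mulVec, dotProduct, Fin.sum_univ_four] <;> ring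
      norm_map' := fun x => by
        have h3 : normSq (act g x) = normSq x := by
          rw [← vec_dot, ← vec_dot, act, vec_unvec, dotProduct_mulVec, vecMul_mulVec, h1,
            vecMul_one]
        rw [normSq_eq_norm_mul_self, normSq_eq_norm_mul_self] at h3
        exact (mul_self_inj_of_nonneg (norm_nonneg _) (norm_nonneg _)).1 h3 }
  obtain ⟨a, b, ha, hb, h⟩ := isometry_form (f.toLinearIsometryEquiv rfl)
  refine ⟨a, b, ha, hb, ?_⟩
  rcases h with h | h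
  · exact act_ext fun x => by rw [act_mq]; exact h x
  · exfalso
    have h3 : (g : Matrix (Fin 4) (Fin 4) ℝ) = mq a b * diagonal ![1, -1, -1, -1] := by
      refine act_ext fun x => ?_
      have h4 : act (diagonal ![1, -1, -1, -1]) x = star x := by
        ext <;> simp [act, unvec, vec, mulVec_diagonal]
      rw [act_mul, act_mq, h4]; exact h x
    rw [h3, det_mul, det_mq ha hb, det_diagonal] at h2
    simp [Fin.prod_univ_four] at h2
    norm_num at h2

/-- the double cover of a subgroup of `SO(4)` -/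
def cover (G : Subgroup (specialOrthogonalGroup (Fin 4) ℝ)) : Subgroup (G × ℍˣ × ℍˣ) where
  carrier := {t | normSq (t.2.1 : ℍ) = 1 ∧ normSq (t.2.2 : ℍ) = 1 ∧ ∀ x,
    act (((t.1 : G) : specialOrthogonalGroup (Fin 4) ℝ) : Matrix (Fin 4) (Fin 4) ℝ) x * t.2.2 =
      t.2.1 * x}
  mul_mem' := by
    rintro ⟨g, a, b⟩ ⟨h, c, d⟩ ⟨h1, h2, h3⟩ ⟨k1, k2, k3⟩
    dsimp only at *
    refine ⟨by simp [h1, k1], by simp [h2, k2], fun x => ?_⟩
    simp only [Prod.fst_mul, Prod.snd_mul, Subgroup.coe_mul, Submonoid.coe_mul, Units.val_mul,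
      act_mul]
    rw [← mul_assoc, h3, mul_assoc, k3, mul_assoc]
  one_mem' := ⟨by simp, by simp, fun x => by simp [act_one]⟩
  inv_mem' := by
    rintro ⟨g, a, b⟩ ⟨h1, h2, h3⟩
    dsimp only at *
    refine ⟨by simp [h1], by simp [h2], fun x => ?_⟩
    simp only [Prod.fst_inv, Prod.snd_inv]
    have h4 := h3 ((a⁻¹ : ℍˣ) * x * b)
    rw [← mul_assoc, ← mul_assoc, Units.mul_inv, one_mul, Units.mul_left_inj] at h4
    nth_rewrite 1 [← h4]
    rw [← act_mul, ← Submonoid.coe_mul, ← Subgroup.coe_mul, inv_mul_cancel]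
    simp [act_one]

variable (G : Subgroup (specialOrthogonalGroup (Fin 4) ℝ))

/-- projection to `G` -/
noncomputable def covP : cover G →* G := (MonoidHom.fst _ _).comp (cover G).subtype

/-- left factor -/
noncomputable def cov₁ : cover G →* ℍ := (Units.coeHom ℍ).comp ((MonoidHom.fst _ _).comp
  ((MonoidHom.snd _ _).comp (cover G).subtype))

/-- right factor -/
noncomputable def cov₂ : cover G →* ℍ := (Units.coeHom ℍ).comp ((MonoidHom.snd _ _).comp
  ((MonoidHom.snd _ _).comp (cover G).subtype))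

/-- condition (2) of the problem -/
def Cond2 : Prop :=
  ∀ H : Subgroup ↥G, ∀ [H.Normal],
    (∃ μ : Set (↥G ⧸ H) → ℝ,
        (∀ A, 0 ≤ μ A) ∧ μ Set.univ = 1 ∧
        (∀ A B, Disjoint A B → μ (A ∪ B) = μ A + μ B) ∧
        (∀ q : ↥G ⧸ H, ∀ A, μ ((fun y => q * y) '' A) = μ A)) →
    ¬ ∃ x : Fin 4 → ℝ, x ⬝ᵥ x = 1 ∧
        ∀ h ∈ H,
          (((h : ↥G) : specialOrthogonalGroup (Fin 4) ℝ) :
              Matrix (Fin 4) (Fin 4) ℝ) *ᵥ x = x

variable {G}

theorem cov_u₁ : IsU (cov₁ G) := fun t => t.2.1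

theorem cov_u₂ : IsU (cov₂ G) := fun t => t.2.2.1

theorem cov_act (t : cover G) (x : ℍ) :
    act ((covP G t : specialOrthogonalGroup (Fin 4) ℝ) : Matrix (Fin 4) (Fin 4) ℝ) x *
      cov₂ G t = cov₁ G t * x := t.2.2.2 x

theorem cov_mq (t : cover G) :
    ((covP G t : specialOrthogonalGroup (Fin 4) ℝ) : Matrix (Fin 4) (Fin 4) ℝ) =
      mq (cov₁ G t) (star (cov₂ G t)) := act_ext fun x => by
  rw [act_mq, ← cov_act, mul_assoc, self_mul_star, cov_u₂ t]; simp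

theorem covP_surj : Function.Surjective (covP G) := by
  intro g
  obtain ⟨a, b, ha, hb, hg⟩ := so4_form g
  have hb' : normSq (star b) = 1 := by simpa using hb
  refine ⟨⟨(g, Units.mk0 a (ne_zero_of_unit ha), Units.mk0 (star b) (ne_zero_of_unit hb')),
    ha, hb', fun x => ?_⟩, rfl⟩
  simp only [Units.val_mk0]
  rw [hg, act_mq, mul_assoc, self_mul_star, hb]; simp

theorem ev_star (a : ℍ) (z : ℂ) : Ev (star a) z ↔ Ev a z := by simp [Ev]

theorem cov_fix (t : cover G) (x : Fin 4 → ℝ) :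
    ((covP G t : specialOrthogonalGroup (Fin 4) ℝ) : Matrix (Fin 4) (Fin 4) ℝ) *ᵥ x = x ↔
      cov₁ G t * unvec x = unvec x * cov₂ G t := by
  rw [← cov_act, mul_left_inj' (ne_zero_of_unit (cov_u₂ t)), act, vec_unvec]
  exact ⟨fun h => by rw [h], fun h => by rw [← vec_unvec (_ *ᵥ x), h, vec_unvec]⟩

theorem not_va (h2 : Cond2 G) : ¬ (VA (cov₁ G) ∧ VA (cov₂ G)) := by
  rintro ⟨⟨N₁, hN₁, c₁⟩, ⟨N₂, hN₂, c₂⟩⟩
  let p : cover G →* G ⧸ (⊥ : Subgroup G) := (QuotientGroup.mk' ⊥).comp (covP G)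
  have hp : Function.Surjective p := (QuotientGroup.mk'_surjective _).comp covP_surj
  have : ((N₁ ⊓ N₂).map p).FiniteIndex := ⟨fun h0 => by
    have := Subgroup.index_map_dvd (N₁ ⊓ N₂) hp
    rw [h0, zero_dvd_iff] at this
    exact Subgroup.FiniteIndex.index_ne_zero this⟩
  refine h2 ⊥ (exists_inv_mean ((N₁ ⊓ N₂).map p) ?_) ⟨vec 1, by rw [vec_dot]; simp, ?_⟩
  · rintro _ ⟨a, ha, rfl⟩ _ ⟨b, hb, rfl⟩
    rw [← map_mul, ← map_mul]
    apply congrArg (QuotientGroup.mk' ⊥)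
    apply Subtype.ext
    apply Subtype.ext
    rw [cov_mq, cov_mq, map_mul, map_mul, map_mul, map_mul, c₁ a ha.1 b hb.1, c₂ a ha.2 b hb.2]
  · intro h hh
    rw [Subgroup.mem_bot.1 hh]; simp

theorem not_line (h2 : Cond2 G) : ¬ Line (cov₁ G) (cov₂ G) := by
  rintro ⟨x, hx, hl⟩
  have h0 : ‖x‖ ≠ 0 := by simpa using hx
  let y : Fin 4 → ℝ := vec (‖x‖⁻¹ • x)
  have hy : y ⬝ᵥ y = 1 := by
    rw [vec_dot, normSq_eq_norm_mul_self, norm_smul, norm_inv, norm_norm]; field_simp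
  have hpm : ∀ g : G, ((g : specialOrthogonalGroup (Fin 4) ℝ) : Matrix (Fin 4) (Fin 4) ℝ) *ᵥ y = y
      ∨ ((g : specialOrthogonalGroup (Fin 4) ℝ) : Matrix (Fin 4) (Fin 4) ℝ) *ᵥ y = -y := by
    intro g
    obtain ⟨t, rfl⟩ := covP_surj g
    rcases hl t with h1 | h1
    · left
      rw [cov_fix, unvec_vec, mul_smul_comm, smul_mul_assoc, h1]
    · right
      have h3 := cov_act t (‖x‖⁻¹ • x)
      rw [mul_smul_comm, h1, smul_neg, ← smul_mul_assoc, ← neg_mul,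
        mul_left_inj' (ne_zero_of_unit (cov_u₂ t))] at h3
      have h4 := congrArg vec h3
      rw [act, vec_unvec] at h4
      rw [h4]
      ext i; fin_cases i <;> simp [y, vec]
  let H : Subgroup G :=
    { carrier := {g | ((g : specialOrthogonalGroup (Fin 4) ℝ) :
        Matrix (Fin 4) (Fin 4) ℝ) *ᵥ y = y}
      mul_mem' := fun {a b} ha hb => by
        simp only [Set.mem_ofPred_eq, Subgroup.coe_mul, Submonoid.coe_mul] at ha hb ⊢
        rw [← mulVec_mulVec, hb, ha]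
      one_mem' := by simp
      inv_mem' := fun {a} ha => by
        simp only [Set.mem_ofPred_eq] at ha ⊢
        nth_rewrite 1 [← ha]
        rw [mulVec_mulVec, ← Submonoid.coe_mul, ← Subgroup.coe_mul, inv_mul_cancel]
        simp }
  have hidx : H.index ∣ 2 := by
    rw [Subgroup.index_dvd_two_iff]
    by_cases hall : ∀ a, a ∈ H
    · exact ⟨1, fun b => Or.inr (hall b)⟩
    · push Not at hall
      obtain ⟨a, ha⟩ := hall
      refine ⟨a, fun b => ?_⟩
      by_cases hb : b ∈ H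
      · exact Or.inr hb
      · left
        show (((b * a : G) : specialOrthogonalGroup (Fin 4) ℝ) :
          Matrix (Fin 4) (Fin 4) ℝ) *ᵥ y = y
        rw [Subgroup.coe_mul, Submonoid.coe_mul, ← mulVec_mulVec, (hpm a).resolve_left ha,
          mulVec_neg, (hpm b).resolve_left hb, neg_neg]
  have hn : H.Normal := by
    rcases (Nat.dvd_prime Nat.prime_two).1 hidx with h1 | h1
    · exact Subgroup.normal_of_index_eq_one h1
    · exact Subgroup.normal_of_index_eq_two h1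
  have : H.FiniteIndex := ⟨fun h1 => by rw [h1] at hidx; norm_num at hidx⟩
  exact h2 H (exists_inv_mean (⊥ : Subgroup (G ⧸ H)) (by simp)) ⟨y, hy, fun h hh => hh⟩

theorem freeAct_of (h2 : Cond2 G)
    (h : ¬ Dense (G : Set (specialOrthogonalGroup (Fin 4) ℝ)) ∨ ∃ g ∈ G,
      (∃ z : ℂ, Polynomial.aeval z (g : Matrix (Fin 4) (Fin 4) ℝ).charpoly = 0 ∧
        Transcendental ℚ z) ∨
      (∃ v : AbsoluteValue ℂ ℝ, ∀ z : ℂ,
        Polynomial.aeval z (g : Matrix (Fin 4) (Fin 4) ℝ).charpoly = 0 → v z ≠ 1)) :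
    FreeAct (cov₁ G) (cov₂ G) := by
  suffices htri : FreeAct (cov₁ G) (cov₂ G) ∨ (VA (cov₁ G) ∧ VA (cov₂ G)) ∨
      Line (cov₁ G) (cov₂ G) from
    htri.resolve_right fun h => h.elim (not_va h2) (not_line h2)
  rcases h with h | ⟨g, hg, h⟩
  · refine trichotomy' cov_u₁ cov_u₂ ⟨⟨(1, -1, -1), by simp, by simp, fun x => by simp [act_one]⟩,
      by simp [cov₁], by simp [cov₂]⟩ fun hall => h fun g => ?_
    obtain ⟨a, b, ha, hb, hg⟩ := so4_form g
    rw [Topology.IsEmbedding.subtypeVal.closure_eq_preimage_closure_image, Set.mem_preimage, hg]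
    have h3 := map_mem_closure continuous_mq (hall a (star b) ha (by simpa using hb))
      (t := Subtype.val '' (G : Set (specialOrthogonalGroup (Fin 4) ℝ))) (by
        rintro _ ⟨t, rfl⟩
        exact ⟨(covP G) t, ((covP G) t).2, cov_mq t⟩)
    simpa using h3
  obtain ⟨t, ht⟩ := covP_surj ⟨g, hg⟩
  have hgt : (g : Matrix (Fin 4) (Fin 4) ℝ) = mq ((cov₁ G) t) (star ((cov₂ G) t)) := by
    rw [← cov_mq, ht]
  have us : normSq (star ((cov₂ G) t)) = 1 := by simpa using cov_u₂ t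
  refine trichotomy cov_u₁ cov_u₂ t ?_
  rcases h with ⟨z, hz, hz'⟩ | ⟨v, hv⟩
  · left
    obtain ⟨z₁, e₁⟩ := exists_ev (cov_u₁ t)
    obtain ⟨z₂, e₂⟩ := exists_ev (cov_u₂ t)
    rw [hgt, charpoly_factor (cov_u₁ t) us e₁ ((ev_star _ _).2 e₂)] at hz
    simp only [mul_eq_zero, sub_eq_zero] at hz
    rcases hz with ((rfl | rfl) | rfl) | rfl
    · exact ⟨_, _, e₁, e₂, hz'⟩
    · exact ⟨_, _, e₁, e₂.inv, hz'⟩
    · exact ⟨_, _, e₁.inv, e₂, hz'⟩
    · exact ⟨_, _, e₁.inv, e₂.inv, hz'⟩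
  · right
    refine ⟨v, fun z₁ z₂ e₁ e₂ he => hv (z₁ * z₂⁻¹) ?_ ?_⟩
    · rw [hgt, charpoly_factor (cov_u₁ t) us e₁ ((ev_star _ _).2 e₂)]; simp
    · rw [map_mul, map_inv₀, he, mul_inv_cancel₀ (v.pos e₂.1).ne']

end Pool.Agent.Lib.MP_0bf891_al
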