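import Pool.Agent.Lib.MP_0bf891_al.Five3
import Pool.Agent.Lib.MP_0bf891_al.SO4

open Quaternion ComplexConjugate Matrix

namespace Pool.Agent.Lib.MP_0bf891_al

theorem integral_traces {Γ : Type} [Group Γ] {ρ₁ ρ₂ : Γ →* ℍ} (hu₁ : IsU ρ₁) (hu₂ : IsU ρ₂)
    (h : ∀ γ z₁ z₂, Ev (ρ₁ γ) z₁ → Ev (ρ₂ γ) z₂ → IsAlgebraic ℚ (z₁ * z₂)) (γ : Γ) :
    IsIntegral ℚ ((2 * (ρ₁ γ).re : ℝ) : ℂ) := by
  obtain ⟨z₁, e₁⟩ := exists_ev (hu₁ γ)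
  obtain ⟨z₂, e₂⟩ := exists_ev (hu₂ γ)
  have h1 := (h γ _ _ e₁ e₂).mul (h γ _ _ e₁ e₂.inv)
  rw [mul_mul_mul_comm, mul_inv_cancel₀ e₂.1, mul_one, ← sq] at h1
  have h2 := h1.of_pow two_pos
  rw [← e₁.2]
  exact (h2.add h2.inv).isIntegral

theorem five_of_not {Γ : Type} [Group Γ] {ρ₁ ρ₂ : Γ →* ℍ} (hu₁ : IsU ρ₁) (hu₂ : IsU ρ₂)
    (hneg : ∃ γ, ρ₁ γ = -1 ∧ ρ₂ γ = -1) (h1 : ¬ (VA ρ₁ ∧ VA ρ₂)) (h2 : ¬ Line ρ₁ ρ₂)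
    {X : Type} (σ : Γ →* Equiv.Perm X) (m : X → ℍ) (hm : ∀ x, m x ≠ 0)
    (hσ : ∀ γ x, m (σ γ x) * ρ₂ γ = ρ₁ γ * m x) : ∃ a : Fin 3 → Γ, Five fun i => σ (a i) := by
  by_cases hfree : FreeAct ρ₁ ρ₂
  · obtain ⟨φ, hφ⟩ := hfree
    refine ⟨![φ (FreeGroup.of 0), φ (FreeGroup.of 1), φ (FreeGroup.of 1)], ?_⟩
    have e : (fun i => σ (![φ (FreeGroup.of 0), φ (FreeGroup.of 1), φ (FreeGroup.of 1)] i)) =
        ![σ.comp φ (FreeGroup.of 0), σ.comp φ (FreeGroup.of 1), σ.comp φ (FreeGroup.of 1)] := by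
      ext i : 1; fin_cases i <;> rfl
    rw [e]
    refine five_of_free _ fun w hw x hx => hφ w hw (m x) (hm x) ?_
    rw [← hσ, ← MonoidHom.comp_apply σ φ, hx]
  have no : ¬ (FreeAct ρ₁ ρ₂ ∨ (VA ρ₁ ∧ VA ρ₂) ∨ Line ρ₁ ρ₂) := fun h =>
    h.elim hfree fun h => h.elim h1 h2
  have hf : Full ρ₁ ρ₂ := by
    by_contra h
    exact no (trichotomy' hu₁ hu₂ hneg h)
  have ha : ∀ γ z₁ z₂, Ev (ρ₁ γ) z₁ → Ev (ρ₂ γ) z₂ → IsAlgebraic ℚ (z₁ * z₂) := by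
    intro γ z₁ z₂ e₁ e₂
    by_contra h
    exact no (trichotomy hu₁ hu₂ γ (Or.inl ⟨z₁, z₂, e₁, e₂, h⟩))
  have hb : Bal ρ₁ ρ₂ := by
    intro γ v
    by_contra h
    push Not at h
    exact no (trichotomy hu₁ hu₂ γ (Or.inr ⟨v, h⟩))
  have hv : ¬ VA ρ₁ := fun h =>
    (free_or_va_of_va hu₁ hu₂ h).elim hfree fun h' => h1 ⟨h, h'⟩
  exact five_of_bal hu₁ hu₂ hf (integral_traces hu₁ hu₂ ha)
    (integral_traces hu₂ hu₁ fun γ z₂ z₁ e₂ e₁ => mul_comm z₁ z₂ ▸ ha γ z₁ z₂ e₁ e₂) hv hb σ m hm hσ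

theorem so4_dot (g : specialOrthogonalGroup (Fin 4) ℝ) (x : Fin 4 → ℝ) :
    ((g : Matrix (Fin 4) (Fin 4) ℝ) *ᵥ x) ⬝ᵥ ((g : Matrix (Fin 4) (Fin 4) ℝ) *ᵥ x) = x ⬝ᵥ x := by
  have h1 := (mem_specialOrthogonalGroup_iff.1 g.2).1
  rw [mem_orthogonalGroup_iff'] at h1
  rw [dotProduct_mulVec, vecMul_mulVec, h1, vecMul_one]

/-- the action of rotations on the unit sphere -/
def sph : specialOrthogonalGroup (Fin 4) ℝ →* Equiv.Perm {x : Fin 4 → ℝ // x ⬝ᵥ x = 1} :=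
  MonoidHom.toHomPerm
    { toFun := fun g x => ⟨(g : Matrix (Fin 4) (Fin 4) ℝ) *ᵥ x.1, (so4_dot g x.1).trans x.2⟩
      map_one' := funext fun x => Subtype.ext (one_mulVec x.1)
      map_mul' := fun a b => funext fun x => Subtype.ext
        (mulVec_mulVec x.1 (a : Matrix (Fin 4) (Fin 4) ℝ) (b : Matrix (Fin 4) (Fin 4) ℝ)).symm }

theorem sph_apply (g : specialOrthogonalGroup (Fin 4) ℝ) (x : {x : Fin 4 → ℝ // x ⬝ᵥ x = 1}) :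
    (sph g x).1 = (g : Matrix (Fin 4) (Fin 4) ℝ) *ᵥ x.1 := rfl

theorem five_main {G : Subgroup (specialOrthogonalGroup (Fin 4) ℝ)} (h2 : Cond2 G) :
    ∃ (g : Fin 5 → specialOrthogonalGroup (Fin 4) ℝ) (c : (Fin 4 → ℝ) → Fin 5),
      (∀ i, g i ∈ G) ∧
      Set.BijOn (fun x => (g (c x) : Matrix (Fin 4) (Fin 4) ℝ) *ᵥ x)
        {x | x ⬝ᵥ x = 1 ∧ c x < 2} {x | x ⬝ᵥ x = 1} ∧
      Set.BijOn (fun x => (g (c x) : Matrix (Fin 4) (Fin 4) ℝ) *ᵥ x)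
        {x | x ⬝ᵥ x = 1 ∧ 2 ≤ c x} {x | x ⬝ᵥ x = 1} := by
  classical
  obtain ⟨a, c, b₁, b₂⟩ := five_of_not cov_u₁ cov_u₂
    ⟨⟨(1, -1, -1), by simp, by simp, fun x => by simp [act_one]⟩, by simp [cov₁], by simp [cov₂]⟩
    (not_va h2) (not_line h2) (sph.comp (G.subtype.comp (covP G))) (fun x => unvec x.1)
    (fun x => ne_zero_of_unit (by rw [← vec_dot, vec_unvec]; exact x.2))
    (fun t x => by rw [← cov_act, act, vec_unvec]; rfl)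
  let g : Fin 5 → G := ![1, (covP G (a 0))⁻¹, 1, (covP G (a 1))⁻¹, (covP G (a 2))⁻¹]
  have hg : ∀ k, (![1, ((sph.comp (G.subtype.comp (covP G))) (a 0))⁻¹, 1,
      ((sph.comp (G.subtype.comp (covP G))) (a 1))⁻¹,
      ((sph.comp (G.subtype.comp (covP G))) (a 2))⁻¹] :
        Fin 5 → Equiv.Perm {x : Fin 4 → ℝ // x ⬝ᵥ x = 1}) k = sph (g k) := by
    intro k; fin_cases k <;> simp [g]
  simp only [hg] at b₁ b₂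
  let c' : (Fin 4 → ℝ) → Fin 5 := fun x => if h : x ⬝ᵥ x = 1 then c ⟨x, h⟩ else 0
  have hc : ∀ x h, c' x = c ⟨x, h⟩ := fun x h => dif_pos h
  have key : ∀ Q : Fin 5 → Prop, Set.BijOn (fun x => sph (g (c x)) x) {x | Q (c x)} Set.univ →
      Set.BijOn (fun x => ((g (c' x) : specialOrthogonalGroup (Fin 4) ℝ) :
        Matrix (Fin 4) (Fin 4) ℝ) *ᵥ x) {x | x ⬝ᵥ x = 1 ∧ Q (c' x)} {x | x ⬝ᵥ x = 1} := by
    intro Q hQ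
    refine ⟨fun x hx => (so4_dot _ x).trans hx.1, ?_, fun y hy => ?_⟩
    · rintro x ⟨hx, hx'⟩ y ⟨hy, hy'⟩ h
      rw [hc x hx] at hx'
      rw [hc y hy] at hy'
      dsimp only at h
      rw [hc x hx, hc y hy] at h
      have h4 := hQ.injOn
      exact congrArg Subtype.val (@h4 ⟨x, hx⟩ hx' ⟨y, hy⟩ hy' (Subtype.ext h))
    · obtain ⟨⟨x, hx⟩, h1, h3⟩ := hQ.2.2 (Set.mem_univ ⟨y, hy⟩)
      refine ⟨x, ⟨hx, by rwa [hc x hx]⟩, ?_⟩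
      dsimp only
      rw [hc x hx]
      exact congrArg Subtype.val h3
  exact ⟨fun i => g i, c', fun i => (g i).2, key (· < 2) b₁, key (2 ≤ ·) b₂⟩

end Pool.Agent.Lib.MP_0bf891_al
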