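import Mathlib

open Filter Topology

namespace Pool.Agent.Lib.MP_0bf891_al

abbrev M2 := Matrix (Fin 2) (Fin 2) ℂ

/-- sum of the absolute values of the entries -/
noncomputable def nrm (v : AbsoluteValue ℂ ℝ) (A : M2) : ℝ :=
  v (A 0 0) + v (A 0 1) + v (A 1 0) + v (A 1 1)

variable (v : AbsoluteValue ℂ ℝ)

theorem nrm_nonneg (A : M2) : 0 ≤ nrm v A := by
  unfold nrm; positivity

theorem entry_le_nrm (A : M2) (a b : Fin 2) : v (A a b) ≤ nrm v A := by
  have := v.nonneg (A 0 0); have := v.nonneg (A 0 1)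
  have := v.nonneg (A 1 0); have := v.nonneg (A 1 1)
  unfold nrm
  fin_cases a <;> fin_cases b <;> simp <;> linarith

theorem mul_entry_le (A B : M2) (a b : Fin 2) :
    v ((A * B) a b) ≤ v (A a 0) * v (B 0 b) + v (A a 1) * v (B 1 b) := by
  rw [Matrix.mul_apply, Fin.sum_univ_two, ← map_mul, ← map_mul]
  exact v.add_le _ _

theorem nrm_mul (A B : M2) : nrm v (A * B) ≤ nrm v A * nrm v B := by
  have h1 := mul_entry_le v A B 0 0
  have h2 := mul_entry_le v A B 0 1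
  have h3 := mul_entry_le v A B 1 0
  have h4 := mul_entry_le v A B 1 1
  have a0 := v.nonneg (A 0 0); have a1 := v.nonneg (A 0 1)
  have a2 := v.nonneg (A 1 0); have a3 := v.nonneg (A 1 1)
  have b0 := v.nonneg (B 0 0); have b1 := v.nonneg (B 0 1)
  have b2 := v.nonneg (B 1 0); have b3 := v.nonneg (B 1 1)
  unfold nrm
  nlinarith [mul_nonneg a0 b2, mul_nonneg a0 b3, mul_nonneg a1 b0, mul_nonneg a1 b1,
    mul_nonneg a2 b2, mul_nonneg a2 b3, mul_nonneg a3 b0, mul_nonneg a3 b1]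

theorem nrm_mul3 (A B C : M2) : nrm v (A * B * C) ≤ nrm v A * nrm v B * nrm v C :=
  (nrm_mul v _ _).trans (mul_le_mul_of_nonneg_right (nrm_mul v _ _) (nrm_nonneg v _))

theorem nrm_diagonal (e : Fin 2 → ℂ) : nrm v (Matrix.diagonal e) = v (e 0) + v (e 1) := by
  simp [nrm]

/-- the dominant coordinate -/
def mi (b : Bool) : Fin 2 := cond b 0 1

theorem mul_apply_mi (A B : M2) (a c : Fin 2) (b : Bool) :
    (A * B) a c = A a (mi b) * B (mi b) c + A a (mi (!b)) * B (mi (!b)) c := by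
  rw [Matrix.mul_apply, Fin.sum_univ_two]
  cases b <;> simp [mi, add_comm]

section core

variable {Γ : Type*} [Group Γ] (f : Γ →* M2) (p : Fin 2 → Γ) (d : Bool → Γ)
  (e : Bool → Fin 2 → ℂ) {Z δ L : ℝ}

theorem growth (hd : ∀ b, f (d b) = Matrix.diagonal (e b))
    (he1 : ∀ b, v (e b (mi b)) = Z) (he2 : ∀ b, v (e b (mi (!b))) = Z⁻¹)
    (hδ : 0 < δ) (hδ1 : δ ≤ 1) (hL : 1 ≤ L) (hZ1 : 1 ≤ Z) (hZ : 8 * L ^ 2 ≤ (δ * Z) ^ 2)
    (hQ : ∀ i j, i ≠ j → ∀ a b, δ ≤ v (f ((p i)⁻¹ * p j) a b) ∧ v (f ((p i)⁻¹ * p j) a b) ≤ L)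
    (x : Fin 2 × Bool) (l : List (Fin 2 × Bool)) (hl : FreeGroup.IsReduced (x :: l)) :
    ∃ (j c : Fin 2),
      v (f ((p x.1)⁻¹ * ((x :: l).map fun y => p y.1 * d y.2 * (p y.1)⁻¹).prod * p j)
          (mi (!x.2)) c) ≤ δ / (2 * L) *
        v (f ((p x.1)⁻¹ * ((x :: l).map fun y => p y.1 * d y.2 * (p y.1)⁻¹).prod * p j)
          (mi x.2) c) ∧
      (δ * Z / 2) ^ (l.length + 1) ≤
        v (f ((p x.1)⁻¹ * ((x :: l).map fun y => p y.1 * d y.2 * (p y.1)⁻¹).prod * p j)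
          (mi x.2) c) := by
  have hL0 : 0 < L := by linarith
  have hZ0 : 0 < Z := by linarith
  have hM : δ * Z / 2 ≤ Z := by nlinarith
  have hM0 : 0 ≤ δ * Z / 2 := by positivity
  have hη : 0 ≤ δ / (2 * L) := by positivity
  induction l generalizing x with
  | nil =>
    refine ⟨x.1, mi x.2, ?_⟩
    have e1 : (p x.1)⁻¹ * ([x].map fun y => p y.1 * d y.2 * (p y.1)⁻¹).prod * p x.1 = d x.2 := by
      simp; group
    rw [e1, hd]
    have hne : mi (!x.2) ≠ mi x.2 := by cases x.2 <;> simp [mi]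
    rw [Matrix.diagonal_apply_ne _ hne, Matrix.diagonal_apply_eq, map_zero, he1]
    exact ⟨by positivity, by simpa using hM⟩
  | cons y l ih =>
    obtain ⟨hxy, hl'⟩ := FreeGroup.isReduced_cons_cons.1 hl
    obtain ⟨j, c, h1, h2⟩ := ih y hl'
    refine ⟨j, c, ?_⟩
    set T := f ((p y.1)⁻¹ * ((y :: l).map fun y => p y.1 * d y.2 * (p y.1)⁻¹).prod * p j) with hT
    have e1 : f ((p x.1)⁻¹ * ((x :: y :: l).map fun y => p y.1 * d y.2 * (p y.1)⁻¹).prod * p j) =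
        Matrix.diagonal (e x.2) * (f ((p x.1)⁻¹ * p y.1) * T) := by
      rw [← hd, hT, ← map_mul, ← map_mul]
      congr 1
      rw [List.map_cons, List.prod_cons]
      group
    rw [e1, Matrix.diagonal_mul, Matrix.diagonal_mul, map_mul v, map_mul v, he1, he2,
      List.length_cons, pow_succ]
    set s := v (T (mi y.2) c) with hs
    set o := v (T (mi (!y.2)) c) with ho
    have hs0 : 0 ≤ s := v.nonneg _
    have ho0 : 0 ≤ o := v.nonneg _
    have hp0 : 0 ≤ (δ * Z / 2) ^ (l.length + 1) := by positivity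
    by_cases hij : x.1 = y.1
    · have hb := hxy hij
      rw [hij, inv_mul_cancel, map_one, one_mul, hb, ← hs, ← ho]
      constructor
      · have h3 : Z⁻¹ ≤ 1 := inv_le_one_of_one_le₀ hZ1
        calc Z⁻¹ * o ≤ o := mul_le_of_le_one_left ho0 h3
          _ ≤ δ / (2 * L) * s := h1
          _ ≤ δ / (2 * L) * (Z * s) :=
            mul_le_mul_of_nonneg_left (le_mul_of_one_le_left hs0 hZ1) hη
      · rw [mul_comm Z s]
        exact mul_le_mul h2 hM hM0 hs0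
    · set Q := f ((p x.1)⁻¹ * p y.1) with hQd
      have hLo : L * o ≤ δ / 2 * s := by
        calc L * o ≤ L * (δ / (2 * L) * s) := mul_le_mul_of_nonneg_left h1 hL0.le
          _ = δ / 2 * s := by field_simp
      have hlow : ∀ a, δ / 2 * s ≤ v ((Q * T) a c) := by
        intro a
        rw [mul_apply_mi Q T a c y.2]
        have h3 := v.le_add (Q a (mi y.2) * T (mi y.2) c) (Q a (mi (!y.2)) * T (mi (!y.2)) c)
        rw [map_mul v, map_mul v, ← hs, ← ho] at h3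
        have h4 := (hQ _ _ hij a (mi y.2)).1
        have h5 := (hQ _ _ hij a (mi (!y.2))).2
        rw [← hQd] at h4 h5
        nlinarith [mul_le_mul_of_nonneg_right h4 hs0, mul_le_mul_of_nonneg_right h5 ho0]
      have hup : ∀ a, v ((Q * T) a c) ≤ 2 * L * s := by
        intro a
        rw [mul_apply_mi Q T a c y.2]
        have h3 := v.add_le (Q a (mi y.2) * T (mi y.2) c) (Q a (mi (!y.2)) * T (mi (!y.2)) c)
        rw [map_mul v, map_mul v, ← hs, ← ho] at h3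
        have h4 := (hQ _ _ hij a (mi y.2)).2
        have h5 := (hQ _ _ hij a (mi (!y.2))).2
        rw [← hQd] at h4 h5
        nlinarith [mul_le_mul_of_nonneg_right h4 hs0, mul_le_mul_of_nonneg_right h5 ho0,
          mul_le_mul_of_nonneg_right (hδ1.trans hL) hs0, mul_nonneg hδ.le hs0]
      constructor
      · calc Z⁻¹ * v ((Q * T) (mi (!x.2)) c) ≤ Z⁻¹ * (2 * L * s) :=
              mul_le_mul_of_nonneg_left (hup _) (by positivity)
          _ = (8 * L ^ 2) * (s / (4 * L * Z)) := by field_simp; ring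
          _ ≤ (δ * Z) ^ 2 * (s / (4 * L * Z)) := mul_le_mul_of_nonneg_right hZ (by positivity)
          _ = δ / (2 * L) * (Z * (δ / 2 * s)) := by field_simp; ring
          _ ≤ _ := mul_le_mul_of_nonneg_left (mul_le_mul_of_nonneg_left (hlow _) hZ0.le) hη
      · calc (δ * Z / 2) ^ (l.length + 1) * (δ * Z / 2) ≤ s * (δ * Z / 2) :=
              mul_le_mul_of_nonneg_right h2 hM0
          _ = Z * (δ / 2 * s) := by ring
          _ ≤ _ := mul_le_mul_of_nonneg_left (hlow _) hZ0.le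

theorem nrm_prod_le {ι : Type*} (a : ι → Γ) {K : ℝ} (hK : ∀ y, nrm v (f (a y)) ≤ K) (hK0 : 0 ≤ K)
    (l : List ι) : nrm v (f (l.map a).prod) ≤ 2 * K ^ l.length := by
  induction l with
  | nil => simp [nrm]; norm_num
  | cons y l ih =>
    rw [List.map_cons, List.prod_cons, map_mul, List.length_cons, pow_succ]
    calc _ ≤ _ := nrm_mul v _ _
      _ ≤ K * (2 * K ^ l.length) := mul_le_mul (hK y) ih (nrm_nonneg v _) hK0
      _ = _ := by ring

end core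

theorem exists_long_pow {w : FreeGroup (Fin 2)} (hw : w ≠ 1) (n : ℕ) :
    ∃ k : ℕ, n < (w ^ k).toWord.length := by
  by_contra h
  push Not at h
  have hinj : Function.Injective fun k : ℕ => (w ^ k).toWord :=
    FreeGroup.toWord_injective.comp
      (injective_pow_iff_not_isOfFinOrder.2 (not_isOfFinOrder_of_isMulTorsionFree hw))
  exact Set.infinite_of_injective_forall_mem hinj (s := {l : List (Fin 2 × Bool) | l.length ≤ n}) h
    (List.finite_length_le _ n)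

theorem diag_pow (z : ℂ) (n : ℕ) :
    (Matrix.diagonal ![z, z⁻¹] : M2) ^ n = Matrix.diagonal ![z ^ n, (z ^ n)⁻¹] := by
  rw [Matrix.diagonal_pow]
  congr 1
  ext i; fin_cases i <;> simp

theorem map_inv_diag {Γ : Type*} [Group Γ] (f : Γ →* M2) {g : Γ} {z : ℂ} (hz : z ≠ 0)
    (hg : f g = Matrix.diagonal ![z, z⁻¹]) : f g⁻¹ = Matrix.diagonal ![z⁻¹, z] := by
  have h1 : f g * Matrix.diagonal ![z⁻¹, z] = 1 := by
    rw [hg, Matrix.diagonal_mul_diagonal, ← Matrix.diagonal_one]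
    congr 1
    ext i; fin_cases i <;> simp [hz]
  calc f g⁻¹ = f g⁻¹ * (f g * Matrix.diagonal ![z⁻¹, z]) := by rw [h1, mul_one]
    _ = _ := by rw [← mul_assoc, ← map_mul, inv_mul_cancel, map_one, one_mul]

theorem pingpong {Γ : Type*} [Group Γ] (f₁ f₂ : Γ →* M2) (g h : Γ) {z₁ z₂ : ℂ}
    (hz₂ : z₂ ≠ 0) (hg₁ : f₁ g = Matrix.diagonal ![z₁, z₁⁻¹])
    (hg₂ : f₂ g = Matrix.diagonal ![z₂, z₂⁻¹]) (hv : v z₂ < v z₁) (hv' : (v z₂)⁻¹ < v z₁)
    (hh : ∀ a b, f₁ h a b ≠ 0) (hh' : ∀ a b, f₁ h⁻¹ a b ≠ 0) :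
    ∃ φ : FreeGroup (Fin 2) →* Γ, ∀ w, w ≠ 1 → ∀ X Y : M2, X * Y = 1 →
      f₁ (φ w) * X ≠ X * f₂ (φ w) := by
  have hv2 : 0 < v z₂ := v.pos hz₂
  have hv1 : 0 < v z₁ := hv2.trans hv
  have hz₁ : z₁ ≠ 0 := fun h0 => by simp [h0] at hv1
  set r := max (v z₂) (v z₂)⁻¹ with hr
  have hr1 : 1 ≤ r := by
    rcases le_total 1 (v z₂) with h1 | h1
    · exact h1.trans (le_max_left _ _)
    · exact (one_le_inv₀ hv2 |>.2 h1).trans (le_max_right _ _)
  have hr0 : 0 < r := by linarith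
  have hrz : r < v z₁ := max_lt hv hv'
  let p : Fin 2 → Γ := ![1, h]
  obtain ⟨δ, hδ, hδ1, hδQ⟩ : ∃ δ : ℝ, 0 < δ ∧ δ ≤ 1 ∧ ∀ a b, δ ≤ v (f₁ h a b) ∧
      δ ≤ v (f₁ h⁻¹ a b) := by
    have e1 : ∀ᶠ δ : ℝ in 𝓝[>] 0, ∀ a b, δ ≤ v (f₁ h a b) ∧ δ ≤ v (f₁ h⁻¹ a b) := by
      simp only [eventually_all, eventually_and]
      intro a b
      exact ⟨(eventually_le_nhds (v.pos (hh a b))).filter_mono nhdsWithin_le_nhds,
        (eventually_le_nhds (v.pos (hh' a b))).filter_mono nhdsWithin_le_nhds⟩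
    have e2 : ∀ᶠ δ : ℝ in 𝓝[>] 0, δ ≤ 1 :=
      (eventually_le_nhds one_pos).filter_mono nhdsWithin_le_nhds
    obtain ⟨δ, h1, h2, h3⟩ := (e1.and (e2.and self_mem_nhdsWithin)).exists
    exact ⟨δ, h3, h2, h1⟩
  set L := 2 + nrm v (f₁ h) + nrm v (f₁ h⁻¹) + nrm v (f₂ h) + nrm v (f₂ h⁻¹) with hLd
  have n1 := nrm_nonneg v (f₁ h)
  have n2 := nrm_nonneg v (f₁ h⁻¹)
  have n3 := nrm_nonneg v (f₂ h)
  have n4 := nrm_nonneg v (f₂ h⁻¹)
  have hL : 1 ≤ L := by linarith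
  have hn1 : nrm v 1 = 2 := by simp [nrm]; norm_num
  have hP : ∀ i, nrm v (f₁ (p i)) ≤ L ∧ nrm v (f₁ (p i)⁻¹) ≤ L ∧ nrm v (f₂ (p i)) ≤ L ∧
      nrm v (f₂ (p i)⁻¹) ≤ L := by
    intro i
    fin_cases i
    · simp [p, hn1]; linarith
    · simp only [p, Fin.mk_one, Matrix.cons_val_one, Matrix.cons_val_zero]
      refine ⟨?_, ?_, ?_, ?_⟩ <;> linarith
  have hQ : ∀ i j, i ≠ j → ∀ a b, δ ≤ v (f₁ ((p i)⁻¹ * p j) a b) ∧
      v (f₁ ((p i)⁻¹ * p j) a b) ≤ L := by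
    intro i j hij a b
    have b1 := entry_le_nrm v (f₁ h) a b
    have b2 := entry_le_nrm v (f₁ h⁻¹) a b
    fin_cases i <;> fin_cases j <;> simp [p] at hij ⊢
    · exact ⟨(hδQ a b).1, by linarith⟩
    · exact ⟨(hδQ a b).2, by linarith⟩
  obtain ⟨N, hN⟩ : ∃ N : ℕ, 8 * L ^ 2 / δ < (v z₁ / r) ^ N :=
    pow_unbounded_of_one_lt _ ((one_lt_div hr0).2 hrz)
  set Z := v z₁ ^ N with hZd
  have hrN : 1 ≤ r ^ N := one_le_pow₀ hr1
  have hN' : 8 * L ^ 2 * r ^ N < δ * Z := by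
    rw [div_pow, div_lt_div_iff₀ hδ (by positivity)] at hN
    linarith
  have hL2 : 1 ≤ L ^ 2 := one_le_pow₀ hL
  have hZ1 : 1 ≤ Z := one_le_pow₀ (hr1.trans hrz.le)
  have h8 : 8 * L ^ 2 ≤ δ * Z := by nlinarith
  have hZ : 8 * L ^ 2 ≤ (δ * Z) ^ 2 := by nlinarith
  let d : Bool → Γ := fun b => cond b (g ^ N) (g ^ N)⁻¹
  let e : Bool → Fin 2 → ℂ := fun b => cond b ![z₁ ^ N, (z₁ ^ N)⁻¹] ![(z₁ ^ N)⁻¹, z₁ ^ N]
  have hgN₁ : f₁ (g ^ N) = Matrix.diagonal ![z₁ ^ N, (z₁ ^ N)⁻¹] := by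
    rw [map_pow, hg₁, diag_pow]
  have hgN₂ : f₂ (g ^ N) = Matrix.diagonal ![z₂ ^ N, (z₂ ^ N)⁻¹] := by
    rw [map_pow, hg₂, diag_pow]
  have hd : ∀ b, f₁ (d b) = Matrix.diagonal (e b) := by
    intro b
    cases b
    · exact map_inv_diag f₁ (pow_ne_zero _ hz₁) hgN₁
    · exact hgN₁
  have he1 : ∀ b, v (e b (mi b)) = Z := by
    intro b; cases b <;> simp [e, mi, hZd]
  have he2 : ∀ b, v (e b (mi (!b))) = Z⁻¹ := by
    intro b; cases b <;> simp [e, mi, hZd]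
  have hd2 : ∀ b, nrm v (f₂ (d b)) ≤ 2 * r ^ N := by
    have b1 : v z₂ ^ N ≤ r ^ N := pow_le_pow_left₀ hv2.le (le_max_left _ _) N
    have b2 : (v z₂ ^ N)⁻¹ ≤ r ^ N := by
      rw [← inv_pow]; exact pow_le_pow_left₀ (by positivity) (le_max_right _ _) N
    intro b
    cases b
    · have := map_inv_diag f₂ (pow_ne_zero _ hz₂) hgN₂
      simp only [d, cond_false, this, nrm_diagonal]
      simp; linarith
    · simp only [d, cond_true, hgN₂, nrm_diagonal]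
      simp; linarith
  set K := 2 * L ^ 2 * r ^ N with hK
  have hK0 : 0 < K := by positivity
  have hKa : ∀ y : Fin 2 × Bool, nrm v (f₂ (p y.1 * d y.2 * (p y.1)⁻¹)) ≤ K := by
    intro y
    rw [map_mul, map_mul]
    refine (nrm_mul3 v _ _ _).trans ?_
    calc _ ≤ L * (2 * r ^ N) * L :=
          mul_le_mul (mul_le_mul (hP _).2.2.1 (hd2 _) (nrm_nonneg v _) (by linarith))
            (hP _).2.2.2 (nrm_nonneg v _) (by positivity)
      _ = K := by rw [hK]; ring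
  have hKM : K < δ * Z / 2 := by rw [hK]; nlinarith
  let φ : FreeGroup (Fin 2) →* Γ := FreeGroup.lift fun i => p i * g ^ N * (p i)⁻¹
  have hφ : ∀ w, φ w = (w.toWord.map fun y => p y.1 * d y.2 * (p y.1)⁻¹).prod := by
    intro w
    conv_lhs => rw [← FreeGroup.mk_toWord (x := w)]
    simp only [φ, FreeGroup.lift_mk]
    congr 2
    ext y
    rcases y with ⟨i, b⟩
    cases b <;> simp [d, mul_assoc]
  refine ⟨φ, fun w hw X Y hXY heq => ?_⟩
  have hpow : ∀ k : ℕ, f₁ (φ (w ^ k)) = X * f₂ (φ (w ^ k)) * Y := by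
    have h1 : ∀ k : ℕ, f₁ (φ (w ^ k)) * X = X * f₂ (φ (w ^ k)) := by
      intro k
      induction k with
      | zero => simp
      | succ k ih =>
        rw [pow_succ, map_mul, map_mul, map_mul, mul_assoc, heq, ← mul_assoc, ih, mul_assoc]
    intro k
    rw [← h1, mul_assoc, hXY, mul_one]
  set c := L * (nrm v X * 2 * nrm v Y) * L with hc
  obtain ⟨n, hn⟩ : ∃ n : ℕ, c < (δ * Z / 2 / K) ^ n :=
    pow_unbounded_of_one_lt _ ((one_lt_div hK0).2 hKM)
  obtain ⟨k, hk⟩ := exists_long_pow hw n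
  have hred : FreeGroup.IsReduced (w ^ k).toWord := FreeGroup.isReduced_toWord
  have hb := nrm_prod_le v f₂ _ hKa hK0.le (w ^ k).toWord
  have hpk := hpow k
  rw [hφ] at hpk
  obtain ⟨x, l, hxl⟩ : ∃ x l, (w ^ k).toWord = x :: l := by
    cases hh : (w ^ k).toWord with
    | nil => rw [hh] at hk; simp at hk
    | cons x l => exact ⟨x, l, rfl⟩
  rw [hxl] at hred hb hpk hk
  obtain ⟨j, c', -, hlow⟩ := growth v f₁ p d e hd he1 he2 hδ hδ1 hL hZ1 hZ hQ x l hred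
  have hup := entry_le_nrm v
    (f₁ ((p x.1)⁻¹ * ((x :: l).map fun y => p y.1 * d y.2 * (p y.1)⁻¹).prod * p j)) (mi x.2) c'
  rw [map_mul, map_mul, hpk] at hup hlow
  have nX := nrm_nonneg v X
  have nY := nrm_nonneg v Y
  rw [List.length_cons] at hb hk
  have h3 : (δ * Z / 2) ^ (l.length + 1) ≤ c * K ^ (l.length + 1) := by
    refine hlow.trans (hup.trans ((nrm_mul3 v _ _ _).trans ?_))
    calc _ ≤ L * (nrm v X * (2 * K ^ (l.length + 1)) * nrm v Y) * L := by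
          refine mul_le_mul (mul_le_mul (hP _).2.1 ((nrm_mul3 v _ _ _).trans ?_)
            (nrm_nonneg v _) (by linarith)) (hP _).1 (nrm_nonneg v _) (by positivity)
          exact mul_le_mul_of_nonneg_right (mul_le_mul_of_nonneg_left hb nX) nY
      _ = _ := by rw [hc]; ring
  have h4 : (δ * Z / 2 / K) ^ n ≤ (δ * Z / 2 / K) ^ (l.length + 1) :=
    pow_le_pow_right₀ ((one_le_div hK0).2 hKM.le) hk.le
  rw [div_pow _ K (l.length + 1), le_div_iff₀ (by positivity)] at h4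
  have h5 : 0 < K ^ (l.length + 1) := by positivity
  nlinarith

end Pool.Agent.Lib.MP_0bf891_al
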