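import Pool.Agent.Lib.MP_0bf891_al.Abs
import Pool.Agent.Lib.MP_0bf891_al.PingPong

open Quaternion ComplexConjugate

namespace Pool.Agent.Lib.MP_0bf891_al

/-- complex part -/
def pp (x : ℍ) : ℂ := ⟨x.re, x.imI⟩
/-- coefficient of `j` -/
def qq (x : ℍ) : ℂ := ⟨x.imJ, x.imK⟩

theorem pq_ext {x y : ℍ} (h1 : pp x = pp y) (h2 : qq x = qq y) : x = y := by
  simp only [pp, qq, Complex.mk.injEq] at h1 h2
  ext <;> tauto

theorem pp_mul (x y : ℍ) : pp (x * y) = pp x * pp y - qq x * conj (qq y) := by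
  apply Complex.ext <;> simp [pp, qq] <;> ring

theorem qq_mul (x y : ℍ) : qq (x * y) = pp x * qq y + qq x * conj (pp y) := by
  apply Complex.ext <;> simp [pp, qq] <;> ring

theorem pp_star (x : ℍ) : pp (star x) = conj (pp x) := by
  apply Complex.ext <;> simp [pp]

theorem qq_star (x : ℍ) : qq (star x) = - qq x := by
  apply Complex.ext <;> simp [qq]

theorem pp_neg (x : ℍ) : pp (- x) = - pp x := by
  apply Complex.ext <;> simp [pp]

theorem qq_neg (x : ℍ) : qq (- x) = - qq x := by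
  apply Complex.ext <;> simp [qq]

theorem pp_one : pp 1 = 1 := by
  apply Complex.ext <;> simp [pp]

theorem qq_one : qq 1 = 0 := by
  apply Complex.ext <;> simp [qq]

theorem pp_re (x : ℍ) : (pp x).re = x.re := rfl

theorem normSq_pq (x : ℍ) : normSq x = Complex.normSq (pp x) + Complex.normSq (qq x) := by
  simp [normSq_def', pp, qq, Complex.normSq_apply]; ring

theorem two_re (x : ℍ) : ((2 * x.re : ℝ) : ℂ) = pp x + conj (pp x) := by
  rw [Complex.add_conj]; rfl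

theorem ne_zero_of_unit {x : ℍ} (h : normSq x = 1) : x ≠ 0 := by
  intro h0; rw [h0] at h; simp at h

theorem inv_eq_star {x : ℍ} (h : normSq x = 1) : x⁻¹ = star x := by
  apply inv_eq_of_mul_eq_one_right
  rw [self_mul_star, h]; rfl

theorem pp_unit {x : ℍ} (h : normSq x = 1) (hq : qq x = 0) : pp x * conj (pp x) = 1 := by
  rw [normSq_pq, hq, map_zero, add_zero] at h
  rw [Complex.mul_conj, h]; rfl

theorem conj_pp {x : ℍ} (h : normSq x = 1) (hq : qq x = 0) : conj (pp x) = (pp x)⁻¹ :=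
  (inv_eq_of_mul_eq_one_right (pp_unit h hq)).symm

theorem pp_ne {x : ℍ} (h : normSq x = 1) (hq : qq x = 0) : pp x ≠ 0 :=
  left_ne_zero_of_mul_eq_one (pp_unit h hq)

theorem qq_ne {x : ℍ} (h : normSq x = 1) (hp : pp x = 0) : qq x ≠ 0 :=
  fun hq => pp_ne h hq hp

theorem pq_pow {x : ℍ} (hq : qq x = 0) (n : ℕ) : qq (x ^ n) = 0 ∧ pp (x ^ n) = pp x ^ n := by
  induction n with
  | zero => simp [pp_one, qq_one]
  | succ n ih => rw [pow_succ, pp_mul, qq_mul, ih.1, ih.2, hq, pow_succ]; simp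

/-- the standard embedding of the quaternions in complex matrices -/
noncomputable def iot : ℍ →* M2 where
  toFun x := !![pp x, qq x; - conj (qq x), conj (pp x)]
  map_one' := by
    ext i j; fin_cases i <;> fin_cases j <;> simp [pp_one, qq_one]
  map_mul' x y := by
    ext i j; fin_cases i <;> fin_cases j <;>
      simp [pp_mul, qq_mul, Matrix.mul_apply, Fin.sum_univ_two] <;> ring

theorem iot_apply (x : ℍ) : iot x = !![pp x, qq x; - conj (qq x), conj (pp x)] := rfl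

theorem iot_diag {x : ℍ} (h : normSq x = 1) (hq : qq x = 0) :
    iot x = Matrix.diagonal ![pp x, (pp x)⁻¹] := by
  rw [iot_apply, conj_pp h hq, hq]
  ext i j; fin_cases i <;> fin_cases j <;> simp

theorem iot_ne {x : ℍ} (hp : pp x ≠ 0) (hq : qq x ≠ 0) (a b : Fin 2) : iot x a b ≠ 0 := by
  rw [iot_apply]
  fin_cases a <;> fin_cases b <;> simp [hp, hq]

/-- eigenvalue of a unit quaternion -/
def Ev (a : ℍ) (z : ℂ) : Prop := z ≠ 0 ∧ z + z⁻¹ = ((2 * a.re : ℝ) : ℂ)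

theorem Ev.inv {a : ℍ} {z : ℂ} (h : Ev a z) : Ev a z⁻¹ :=
  ⟨inv_ne_zero h.1, by rw [inv_inv, add_comm]; exact h.2⟩

theorem Ev.eq_or {a : ℍ} {z w : ℂ} (h : Ev a z) (h' : Ev a w) : w = z ∨ w = z⁻¹ := by
  have h1 : w + w⁻¹ = z + z⁻¹ := by rw [h.2, h'.2]
  have hz := h.1
  have hw := h'.1
  have h2 : (w - z) * (w - z⁻¹) = 0 := by
    have e : (w - z) * (w - z⁻¹) = w * ((w + w⁻¹) - (z + z⁻¹)) := by field_simp; ring
    rw [e, h1, sub_self, mul_zero]
  rcases mul_eq_zero.1 h2 with h3 | h3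
  · exact Or.inl (sub_eq_zero.1 h3)
  · exact Or.inr (sub_eq_zero.1 h3)

theorem ev_pp {x : ℍ} (h : normSq x = 1) (hq : qq x = 0) : Ev x (pp x) :=
  ⟨pp_ne h hq, by rw [two_re, conj_pp h hq]⟩

theorem re_conj (a : ℍ) {q : ℍ} (hq : q ≠ 0) : (q⁻¹ * a * q).re = a.re := by
  have h : ∀ x y : ℍ, (x * y).re = (y * x).re := fun x y => by simp; ring
  rw [h, ← mul_assoc, mul_inv_cancel₀ hq, one_mul]

theorem normSq_conj (a : ℍ) {q : ℍ} (hq : q ≠ 0) : normSq (q⁻¹ * a * q) = normSq a := by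
  have : normSq q ≠ 0 := by simpa using hq
  rw [map_mul, map_mul, normSq_inv]; field_simp

theorem ev_conj {a : ℍ} {q : ℍ} (hq : q ≠ 0) {z : ℂ} : Ev (q⁻¹ * a * q) z ↔ Ev a z := by
  unfold Ev; rw [re_conj a hq]

theorem exists_diag0 (a : ℍ) : ∃ q : ℍ, q ≠ 0 ∧ qq (q⁻¹ * a * q) = 0 := by
  obtain ⟨r, hr⟩ : ∃ r : ℝ, r ^ 2 = a.imI ^ 2 + a.imJ ^ 2 + a.imK ^ 2 :=
    ⟨Real.sqrt _, Real.sq_sqrt (by positivity)⟩
  let s : ℍ := ⟨0, r + a.imI, a.imJ, a.imK⟩
  let t : ℍ := ⟨a.re, r, 0, 0⟩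
  by_cases hs : s = 0
  · refine ⟨1, one_ne_zero, ?_⟩
    have h1 := congrArg QuaternionAlgebra.imJ hs
    have h2 := congrArg QuaternionAlgebra.imK hs
    apply Complex.ext <;> simpa [qq]
  · refine ⟨_, hs, ?_⟩
    have e : a * s = s * t := by
      ext <;> simp only [re_mul, imI_mul, imJ_mul, imK_mul, s, t] <;> nlinarith
    rw [mul_assoc, e, ← mul_assoc, inv_mul_cancel₀ hs, one_mul]
    rfl

theorem exists_ev {a : ℍ} (h : normSq a = 1) : ∃ z, Ev a z := by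
  obtain ⟨q, hq, h1⟩ := exists_diag0 a
  exact ⟨_, (ev_conj hq).1 (ev_pp ((normSq_conj a hq).trans h) h1)⟩

theorem exists_diag {a : ℍ} (h : normSq a = 1) {z : ℂ} (hz : Ev a z) :
    ∃ q : ℍ, q ≠ 0 ∧ qq (q⁻¹ * a * q) = 0 ∧ pp (q⁻¹ * a * q) = z := by
  obtain ⟨q, hq, h1⟩ := exists_diag0 a
  have hu := (normSq_conj a hq).trans h
  have h2 := (ev_conj hq).1 (ev_pp hu h1)
  rcases h2.eq_or hz with h3 | h3
  · exact ⟨q, hq, h1, h3.symm⟩
  · let j : ℍ := ⟨0, 0, 1, 0⟩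
    have hj : normSq j = 1 := by simp [j, normSq_def']
    have pj : pp j = 0 := rfl
    have qj : qq j = 1 := rfl
    have e : (q * j)⁻¹ * a * (q * j) = star j * (q⁻¹ * a * q) * j := by
      rw [mul_inv_rev, inv_eq_star hj]; simp only [mul_assoc]
    refine ⟨q * j, mul_ne_zero hq (ne_zero_of_unit hj), ?_, ?_⟩
    · rw [e]; simp [pp_mul (star j), qq_mul (star j), qq_mul _ j, pp_star, qq_star, pj, qj, h1]
    · rw [e, h3, ← conj_pp hu h1]
      simp [pp_mul (star j), qq_mul (star j), pp_mul _ j, pp_star, qq_star, pj, qj, h1]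

end Pool.Agent.Lib.MP_0bf891_al
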