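import Pool.Agent.Lib.MP_0bf891_al.SO4

open Quaternion Matrix Polynomial

namespace Pool.Agent.Lib.MP_0bf891_al

abbrev M4 := Matrix (Fin 4) (Fin 4) ℝ

theorem idem_mem (A : Subalgebra ℚ M4) {X Y : M4} (hX : X * X = X) (hY : Y * Y = Y)
    (hXY : X * Y = 0) (hYX : Y * X = 0) {α : ℚ} (hα : α ≠ 0) {s : ℝ} (hs : IsAlgebraic ℚ s)
    (hne : s ≠ α) (hN : (α : ℝ) • X + s • Y ∈ A) : X ∈ A := by
  set N := (α : ℝ) • X + s • Y with hNd
  have hpow : ∀ k : ℕ, N * N ^ k = ((α : ℝ) * α ^ k) • X + (s * s ^ k) • Y := by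
    intro k
    induction k with
    | zero => simp [hNd]
    | succ k ih =>
      rw [pow_succ, ← mul_assoc, ih, hNd]
      simp only [add_mul, mul_add, smul_mul_assoc, mul_smul_comm, hX, hY, hXY, hYX, smul_smul,
        smul_zero, add_zero, zero_add, pow_succ]
      congr 2 <;> ring
  have hp : ∀ p : ℚ[X], N * aeval N p = ((α : ℝ) * aeval (α : ℝ) p) • X + (s * aeval s p) • Y := by
    intro p
    induction p using Polynomial.induction_on' with
    | add p q hp hq => simp only [map_add, mul_add, hp, hq, add_smul]; abel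
    | monomial n c =>
      simp only [aeval_monomial]
      rw [← Algebra.smul_def, mul_smul_comm, hpow, smul_add, ← smul_assoc, ← smul_assoc]
      simp only [Algebra.smul_def, eq_ratCast]
      congr 3 <;> ring
  obtain ⟨q, hq0, hq⟩ := (hs.sub (isAlgebraic_rat ℚ α)).exists_nonzero_coeff_and_aeval_eq_zero
    (mem_nonZeroDivisors_of_ne_zero (sub_ne_zero.2 hne))
  have h1 := hp (q.comp (Polynomial.X - C α))
  have e1 : aeval s (q.comp (Polynomial.X - C α)) = 0 := by simpa [aeval_comp] using hq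
  have e2 : aeval (α : ℝ) (q.comp (Polynomial.X - C α)) = (q.coeff 0 : ℝ) := by
    simp [aeval_comp, ← coeff_zero_eq_aeval_zero']
  rw [e1, e2, mul_zero, zero_smul, add_zero] at h1
  have h2 : N * aeval N (q.comp (Polynomial.X - C α)) ∈ A :=
    A.mul_mem hN ((Algebra.adjoin_le (Set.singleton_subset_iff.2 hN))
      (aeval_mem_adjoin_singleton ℚ N))
  have h3 := A.smul_mem h2 (α * q.coeff 0)⁻¹
  rw [h1, ← smul_assoc] at h3
  have e3 : (α * q.coeff 0)⁻¹ • ((α : ℝ) * (q.coeff 0 : ℝ)) = 1 := by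
    have a1 : (α : ℝ) ≠ 0 := by exact_mod_cast hα
    have a2 : (q.coeff 0 : ℝ) ≠ 0 := by exact_mod_cast hq0
    rw [Rat.smul_def]; push_cast; field_simp
  rwa [e3, one_smul] at h3

/-- the rank one matrix `z zᵀ` -/
def pr (z : ℍ) : M4 := vecMulVec (vec z) (vec z)

theorem pr_mul (z w : ℍ) : pr z * pr w = (vec z ⬝ᵥ vec w) • vecMulVec (vec z) (vec w) := by
  rw [pr, pr, vecMulVec_mul_vecMulVec, vecMulVec_smul]

theorem dot_mul (z w x : ℍ) : vec (z * x) ⬝ᵥ vec (w * x) = (vec z ⬝ᵥ vec w) * normSq x := by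
  simp [vec, dotProduct, Fin.sum_univ_four, normSq_def']; ring

theorem act_add (A B : M4) (x : ℍ) : act (A + B) x = act A x + act B x := by
  ext <;> simp [act, unvec, add_mulVec]

theorem act_sub (A B : M4) (x : ℍ) : act (A - B) x = act A x - act B x := by
  ext <;> simp [act, unvec, sub_mulVec]

theorem act_smul (c : ℝ) (A : M4) (x : ℍ) : act (c • A) x = c • act A x := by
  ext <;> simp [act, unvec, smul_mulVec]

theorem act_pr (z y : ℍ) : act (pr z) y = (vec z ⬝ᵥ vec y) • z := by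
  ext <;> simp [act, unvec, pr, vec] <;> ring

theorem proj_mem (A : Subalgebra ℚ M4) {a x : ℍ} (ha : normSq a = 1) (hx : normSq x = 1)
    (h1 : mq a (star x * star a * x) ∈ A) (h2 : mq (star a) (star x * a * x) ∈ A)
    (halg : IsAlgebraic ℚ a.re) (hu : normSq a.im ≠ 0) :
    pr x + (normSq a.im)⁻¹ • pr (a.im * x) ∈ A := by
  have d1 : vec x ⬝ᵥ vec x = 1 := by rw [vec_dot, hx]
  have d2 : vec (a.im * x) ⬝ᵥ vec (a.im * x) = normSq a.im := by rw [vec_dot, map_mul, hx, mul_one]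
  have d3 : vec x ⬝ᵥ vec (a.im * x) = 0 := by
    have := dot_mul 1 a.im x
    rw [one_mul] at this
    rw [this]; simp [vec]
  have d4 : vec (a.im * x) ⬝ᵥ vec x = 0 := by rw [dotProduct_comm, d3]
  set E := pr x + (normSq a.im)⁻¹ • pr (a.im * x) with hE
  have hEE : E * E = E := by
    simp only [hE, add_mul, mul_add, smul_mul_assoc, mul_smul_comm, pr_mul, d1, d2, d3, d4,
      zero_smul, smul_zero, add_zero, zero_add, one_smul, smul_smul, inv_mul_cancel₀ hu, mul_one]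
    rfl
  have him : normSq a.im = 1 - a.re ^ 2 := by
    rw [normSq_def'] at ha ⊢; simp; linarith
  refine idem_mem A (Y := 1 - E) hEE (by rw [sub_mul, mul_sub, mul_sub, hEE]; simp)
    (by rw [mul_sub, hEE]; simp) (by rw [sub_mul, hEE]; simp) (α := 2) two_ne_zero
    (s := 4 * a.re ^ 2 - 2) ?_ ?_ ?_
  · exact ((isAlgebraic_nat 4).mul (halg.pow 2)).sub (isAlgebraic_nat 2)
  · intro h; apply hu; rw [him]; push_cast at h; linarith
  · have e : ((2 : ℚ) : ℝ) • E + (4 * a.re ^ 2 - 2) • (1 - E) =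
        mq a (star x * star a * x) + mq (star a) (star x * a * x) := by
      refine act_ext fun y => ?_
      obtain ⟨y, rfl⟩ : ∃ y', y = y' * x :=
        ⟨y * star x, by rw [mul_assoc, star_mul_self, hx]; simp⟩
      have h3 : x * star x = 1 := by rw [self_mul_star, hx]; rfl
      have d5 : vec x ⬝ᵥ vec (y * x) = y.re := by
        have := dot_mul 1 y x
        rw [one_mul] at this
        rw [this, hx]; simp [vec]
      have e1 : a * (y * x) * (star x * star a * x) = a * y * star a * x := by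
        simp only [mul_assoc]; rw [← mul_assoc x, h3, one_mul]
      have e2 : star a * (y * x) * (star x * a * x) = star a * y * a * x := by
        simp only [mul_assoc]; rw [← mul_assoc x, h3, one_mul]
      have e3 : a * y * star a + star a * y * a = (4 * a.re ^ 2 - 2) • y +
          (4 * normSq a.im * y.re) • (1 : ℍ) + (4 * (vec a.im ⬝ᵥ vec y)) • a.im := by
        rw [normSq_def'] at ha ⊢
        ext <;> simp [vec, dotProduct, Fin.sum_univ_four]
        · linear_combination (-2 * y.re) * ha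
        · linear_combination (-2 * y.imI) * ha
        · linear_combination (-2 * y.imJ) * ha
        · linear_combination (-2 * y.imK) * ha
      simp only [hE, act_add, act_sub, act_smul, act_pr, act_one, act_mq, d5, dot_mul, hx, e1, e2]
      rw [← add_mul, e3]
      simp only [add_mul, smul_mul_assoc, one_mul, mul_one]
      have e4 : 4 * a.re ^ 2 - 2 = 2 - 4 * normSq a.im := by rw [him]; ring
      rw [e4]
      match_scalars <;> field_simp <;> ring
    rw [e]; exact A.add_mem h1 h2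

theorem rank_one_mem (A : Subalgebra ℚ M4) {a b x : ℍ} (ha : normSq a = 1) (hb : normSq b = 1)
    (hx : normSq x = 1) (a1 : mq a (star x * star a * x) ∈ A)
    (a2 : mq (star a) (star x * a * x) ∈ A) (b1 : mq b (star x * star b * x) ∈ A)
    (b2 : mq (star b) (star x * b * x) ∈ A) (ra : IsAlgebraic ℚ a.re) (rb : IsAlgebraic ℚ b.re)
    (rab : IsAlgebraic ℚ (a * b).re) (hne : a * b ≠ b * a) : pr x ∈ A := by
  have hc : normSq a.im * normSq b.im - (vec a.im ⬝ᵥ vec b.im) ^ 2 ≠ 0 := by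
    intro h
    apply hne
    rw [← sub_eq_zero, ← normSq_eq_zero]
    simp only [normSq_def', vec, dotProduct, Fin.sum_univ_four] at h ⊢
    simp at h ⊢
    linear_combination 4 * h
  have ua : normSq a.im ≠ 0 := fun h => hc (by
    rw [normSq_eq_zero] at h; simp [h, vec])
  have ub : normSq b.im ≠ 0 := fun h => hc (by
    rw [normSq_eq_zero] at h; simp [h, vec])
  have hE₁ := proj_mem A ha hx a1 a2 ra ua
  have hE₂ := proj_mem A hb hx b1 b2 rb ub
  have d1 : vec x ⬝ᵥ vec x = 1 := by rw [vec_dot, hx]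
  have d2 : vec (a.im * x) ⬝ᵥ vec (a.im * x) = normSq a.im := by rw [vec_dot, map_mul, hx, mul_one]
  have d3 : ∀ c : ℍ, vec x ⬝ᵥ vec (c.im * x) = 0 := fun c => by
    have := dot_mul 1 c.im x
    rw [one_mul] at this
    rw [this]; simp [vec]
  have d4 : ∀ c : ℍ, vec (c.im * x) ⬝ᵥ vec x = 0 := fun c => by rw [dotProduct_comm, d3]
  have d5 : vec (a.im * x) ⬝ᵥ vec (b.im * x) = vec a.im ⬝ᵥ vec b.im := by
    rw [dot_mul, hx, mul_one]
  have d6 : vec (b.im * x) ⬝ᵥ vec (a.im * x) = vec a.im ⬝ᵥ vec b.im := by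
    rw [dotProduct_comm, d5]
  have ia : normSq a.im = 1 - a.re ^ 2 := by rw [normSq_def'] at ha ⊢; simp; linarith
  have ib : normSq b.im = 1 - b.re ^ 2 := by rw [normSq_def'] at hb ⊢; simp; linarith
  have iab : vec a.im ⬝ᵥ vec b.im = a.re * b.re - (a * b).re := by
    simp [vec, dotProduct, Fin.sum_univ_four]; ring
  refine idem_mem A (Y := (normSq a.im)⁻¹ • pr (a.im * x)) (α := 1)
    (s := (vec a.im ⬝ᵥ vec b.im) ^ 2 * (normSq a.im * normSq b.im)⁻¹) ?_ ?_ ?_ ?_ one_ne_zero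
    ?_ ?_ ?_
  · rw [pr_mul, d1, one_smul]; rfl
  · simp only [smul_mul_assoc, mul_smul_comm, pr_mul, d2, smul_smul, inv_mul_cancel₀ ua, mul_one]
    rfl
  · simp [pr_mul, d3]
  · simp [pr_mul, d4]
  · rw [ia, ib, iab]
    exact (((ra.mul rb).sub rab).pow 2).mul
      ((isAlgebraic_one.sub (ra.pow 2)).mul (isAlgebraic_one.sub (rb.pow 2))).inv
  · intro h
    apply hc
    rw [Rat.cast_one, mul_inv_eq_one₀ (mul_ne_zero ua ub)] at h
    rw [h, sub_self]
  · have h := A.mul_mem (A.mul_mem hE₁ hE₂) hE₁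
    simp only [pr, add_mul, mul_add, smul_mul_assoc, mul_smul_comm, vecMulVec_mul_vecMulVec,
      vecMulVec_smul, d1, d3, d4, d5, d6, zero_smul, smul_zero, add_zero, zero_add, one_smul,
      smul_smul, smul_dotProduct, smul_eq_mul, vecMulVec_zero, zero_mul] at h
    simp only [pr, smul_smul, Rat.cast_one, one_smul]
    have e : (vec a.im ⬝ᵥ vec b.im) ^ 2 * (normSq a.im * normSq b.im)⁻¹ * (normSq a.im)⁻¹ =
      (normSq a.im)⁻¹ * ((normSq b.im)⁻¹ * ((normSq a.im)⁻¹ * (vec a.im ⬝ᵥ vec b.im)) *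
        (vec a.im ⬝ᵥ vec b.im)) := by ring
    rw [e]
    exact h

theorem rank_pr {x : ℍ} (hx : normSq x = 1) : (pr x).rank = 1 := by
  refine le_antisymm (rank_vecMulVec_le _ _) (Nat.pos_of_ne_zero fun h => ?_)
  have h1 : LinearMap.range (pr x).mulVecLin = ⊥ := Submodule.finrank_eq_zero.1 h
  have h2 : (pr x).mulVecLin (vec x) = 0 := by
    rw [← Submodule.mem_bot ℝ, ← h1]; exact ⟨_, rfl⟩
  have h3 := act_pr x x
  rw [act, show pr x *ᵥ vec x = 0 from h2, vec_dot, hx, one_smul] at h3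
  exact ne_zero_of_unit hx (h3.symm.trans rfl)

variable {G : Subgroup (specialOrthogonalGroup (Fin 4) ℝ)}

theorem sq_eq_one_of_covP {t : cover G} (h : covP G t = 1) :
    cov₁ G (t ^ 2) = 1 ∧ cov₂ G (t ^ 2) = 1 := by
  have h1 : ∀ x, x * cov₂ G t = cov₁ G t * x := fun x => by
    have := cov_act t x
    rw [h] at this
    simpa [act_one] using this
  have h2 := h1 1
  rw [one_mul, mul_one] at h2
  have hu := cov_u₁ t
  let i : ℍ := ⟨0, 1, 0, 0⟩
  let j : ℍ := ⟨0, 0, 1, 0⟩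
  have h3 : (i * cov₂ G t).imJ = (cov₁ G t * i).imJ := by rw [h1]
  have h4 : (i * cov₂ G t).imK = (cov₁ G t * i).imK := by rw [h1]
  have h5 : (j * cov₂ G t).imK = (cov₁ G t * j).imK := by rw [h1]
  rw [h2] at h3 h4 h5
  rw [map_pow, map_pow, h2, and_self]
  rw [normSq_def'] at hu
  simp only [imJ_mul, imK_mul, i, j] at h3 h4 h5
  have a1 : (cov₁ G t).imK = 0 := by linarith
  have a2 : (cov₁ G t).imJ = 0 := by linarith
  have a3 : (cov₁ G t).imI = 0 := by linarith
  rw [a1, a2, a3] at hu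
  ext <;> simp [sq, a1, a2, a3]
  linarith

theorem exists_free (h2 : Cond2 G) :
    ∃ φ : FreeGroup (Fin 2) →* cover G, ∀ w, covP G (φ w) = 1 → w = 1 := by
  have u : IsU (1 : cover G →* ℍ) := fun t => by simp
  have key : ∀ ρ : cover G →* ℍ, FreeAct 1 ρ → (∀ t, covP G t = 1 → ρ (t ^ 2) = 1) →
      ∃ φ : FreeGroup (Fin 2) →* cover G, ∀ w, covP G (φ w) = 1 → w = 1 := by
    rintro ρ ⟨φ, hφ⟩ hρ
    refine ⟨φ, fun w hw => ?_⟩
    by_contra h1
    refine hφ (w ^ 2) (by simpa using h1) 1 one_ne_zero ?_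
    rw [map_pow φ, hρ _ hw]; simp
  rcases free_or_va_of_comm u cov_u₁ (fun a b => by simp) with h | h
  · exact key _ h fun t ht => (sq_eq_one_of_covP ht).1
  rcases free_or_va_of_comm u cov_u₂ (fun a b => by simp) with h' | h'
  · exact key _ h' fun t ht => (sq_eq_one_of_covP ht).2
  exact absurd ⟨h, h'⟩ (not_va h2)

theorem main (h2 : Cond2 G)
    (h : ¬ Dense (G : Set (specialOrthogonalGroup (Fin 4) ℝ)) ∨
      (∃ g ∈ G, ∃ z : ℂ, aeval z (g : M4).charpoly = 0 ∧ Transcendental ℚ z) ∨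
      (∃ g ∈ G, ∃ v : AbsoluteValue ℂ ℝ, ∀ z : ℂ, aeval z (g : M4).charpoly = 0 → v z ≠ 1) ∨
      ∀ M ∈ Algebra.adjoin ℚ (Subtype.val '' (G : Set (specialOrthogonalGroup (Fin 4) ℝ))),
        M.rank ≠ 1) :
    ∃ F : Subgroup (specialOrthogonalGroup (Fin 4) ℝ),
      F ≤ G ∧ Nonempty (F ≃* FreeGroup (Fin 2)) ∧
      ∀ x : Fin 4 → ℝ, x ⬝ᵥ x = 1 → ∀ f ∈ F, ∀ g ∈ F,
        (f : M4) *ᵥ x = x → (g : M4) *ᵥ x = x → f * g = g * f := by
  suffices key : ∃ φ : FreeGroup (Fin 2) →* cover G, (∀ w, covP G (φ w) = 1 → w = 1) ∧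
      ∀ x : ℍ, normSq x = 1 → ∀ w w', cov₁ G (φ w) * x = x * cov₂ G (φ w) →
        cov₁ G (φ w') * x = x * cov₂ G (φ w') →
        cov₁ G (φ w) * cov₁ G (φ w') = cov₁ G (φ w') * cov₁ G (φ w) by
    obtain ⟨φ, h1, h3⟩ := key
    let ψ : FreeGroup (Fin 2) →* specialOrthogonalGroup (Fin 4) ℝ :=
      G.subtype.comp ((covP G).comp φ)
    have hinj : Function.Injective ψ := by
      rw [injective_iff_map_eq_one]
      exact fun w hw => h1 w (Subtype.ext hw)
    refine ⟨ψ.range, ?_, ⟨(MonoidHom.ofInjective hinj).symm⟩, ?_⟩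
    · rintro _ ⟨w, rfl⟩; exact (covP G (φ w)).2
    · rintro x hx _ ⟨w, rfl⟩ _ ⟨w', rfl⟩ hw hw'
      have hx1 : normSq (unvec x) = 1 := by rw [← vec_dot, vec_unvec, hx]
      have e1 := (cov_fix _ _).1 hw
      have e2 := (cov_fix _ _).1 hw'
      have c1 := h3 _ hx1 w w' e1 e2
      have c2 : cov₂ G (φ w) * cov₂ G (φ w') = cov₂ G (φ w') * cov₂ G (φ w) := by
        apply mul_left_cancel₀ (ne_zero_of_unit hx1)
        rw [← mul_assoc, ← e1, mul_assoc, ← e2, ← mul_assoc, c1, mul_assoc, e1, ← mul_assoc, e2,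
          mul_assoc]
      rw [← map_mul, ← map_mul]
      apply Subtype.ext
      show ((covP G (φ (w * w')) : specialOrthogonalGroup (Fin 4) ℝ) : M4) =
        ((covP G (φ (w' * w)) : specialOrthogonalGroup (Fin 4) ℝ) : M4)
      simp only [cov_mq, map_mul φ, map_mul (cov₁ G), map_mul (cov₂ G), c1, c2]
  have hfree : FreeAct (cov₁ G) (cov₂ G) → ∃ φ : FreeGroup (Fin 2) →* cover G,
      (∀ w, covP G (φ w) = 1 → w = 1) ∧
      ∀ x : ℍ, normSq x = 1 → ∀ w w', cov₁ G (φ w) * x = x * cov₂ G (φ w) →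
        cov₁ G (φ w') * x = x * cov₂ G (φ w') →
        cov₁ G (φ w) * cov₁ G (φ w') = cov₁ G (φ w') * cov₁ G (φ w) := by
    rintro ⟨φ, hφ⟩
    refine ⟨φ, fun w hw => ?_, fun x hx w w' hw _ => ?_⟩
    · by_contra h1
      refine hφ w h1 1 one_ne_zero ?_
      rw [← cov_act, hw]; simp [act_one]
    · have : w = 1 := by
        by_contra h1
        exact hφ w h1 x (ne_zero_of_unit hx) hw
      simp [this]
  by_cases ht : ∃ g ∈ G, ∃ z : ℂ, aeval z (g : M4).charpoly = 0 ∧ Transcendental ℚ z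
  · obtain ⟨g, hg, h⟩ := ht
    exact hfree (freeAct_of h2 (Or.inr ⟨g, hg, Or.inl h⟩))
  rcases h with h | h | ⟨g, hg, h⟩ | h
  · exact hfree (freeAct_of h2 (Or.inl h))
  · exact absurd h ht
  · exact hfree (freeAct_of h2 (Or.inr ⟨g, hg, Or.inr h⟩))
  obtain ⟨φ, hφ⟩ := exists_free h2
  refine ⟨φ, hφ, fun x hx w w' hw hw' => ?_⟩
  have x0 := ne_zero_of_unit hx
  have e0 : star x * x = 1 := by rw [star_mul_self, hx]; rfl
  have hb : ∀ t, cov₁ G t * x = x * cov₂ G t → cov₂ G t = star x * cov₁ G t * x := fun t ht => by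
    rw [mul_assoc, ht, ← mul_assoc, e0, one_mul]
  have halg : ∀ t, cov₁ G t * x = x * cov₂ G t → IsAlgebraic ℚ (cov₁ G t).re := by
    intro t h1
    obtain ⟨z, hz⟩ := exists_ev (cov_u₁ t)
    have hz2 : Ev (star (cov₂ G t)) z := by
      rw [ev_star, hb t h1, ← inv_eq_star hx, ev_conj x0]; exact hz
    have h3 : IsAlgebraic ℚ (z * z) := by
      by_contra h4
      refine ht ⟨_, (covP G t).2, z * z, ?_, h4⟩
      rw [cov_mq, charpoly_factor (cov_u₁ t) (by simpa using cov_u₂ t) hz hz2]; simp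
    have h4 : IsAlgebraic ℚ z := IsAlgebraic.of_pow two_pos (by rwa [sq])
    have h5 : IsAlgebraic ℚ ((2 * (cov₁ G t).re : ℝ) : ℂ) := hz.2 ▸ h4.add h4.inv
    have h6 : IsAlgebraic ℚ (2 * (cov₁ G t).re) :=
      (isAlgebraic_algHom_iff (Complex.ofRealHom.toRatAlgHom) Complex.ofReal_injective).1 h5
    have h7 := h6.mul (isAlgebraic_nat (R := ℚ) (A := ℝ) 2).inv
    have e : 2 * (cov₁ G t).re * ((2 : ℕ) : ℝ)⁻¹ = (cov₁ G t).re := by push_cast; ring
    rwa [e] at h7
  have hm : ∀ t, cov₁ G t * x = x * cov₂ G t →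
      mq (cov₁ G t) (star x * star (cov₁ G t) * x) ∈
        Algebra.adjoin ℚ (Subtype.val '' (G : Set (specialOrthogonalGroup (Fin 4) ℝ))) ∧
      mq (star (cov₁ G t)) (star x * cov₁ G t * x) ∈
        Algebra.adjoin ℚ (Subtype.val '' (G : Set (specialOrthogonalGroup (Fin 4) ℝ))) := by
    intro t h1
    constructor
    · refine Algebra.subset_adjoin ⟨_, (covP G t).2, ?_⟩
      rw [cov_mq, hb t h1, star_mul, star_mul, star_star, mul_assoc]
    · refine Algebra.subset_adjoin ⟨_, (covP G t⁻¹).2, ?_⟩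
      rw [cov_mq, cov_u₁.map_inv, cov_u₂.map_inv, star_star, hb t h1]
  by_contra hne
  have h3 : cov₁ G (φ w * φ w') * x = x * cov₂ G (φ w * φ w') := by
    rw [map_mul, map_mul, mul_assoc, hw', ← mul_assoc, hw, mul_assoc]
  have h4 := halg _ h3
  rw [map_mul] at h4
  exact h _ (rank_one_mem _ (cov_u₁ _) (cov_u₁ _) hx (hm _ hw).1 (hm _ hw).2 (hm _ hw').1
    (hm _ hw').2 (halg _ hw) (halg _ hw') h4 hne) (rank_pr hx)

end Pool.Agent.Lib.MP_0bf891_al
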